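import Pool.Agent.Work.MP_db9399_dx_helper26.PCD
import Pool.Agent.Work.MP_db9399_xc_helper38.ATOMS

/-!
# MP_db9399, all scales, block DECX (helper26)

The light members of every cluster of the closed family are decomposed by `dec_q`, then joined to the
pieces of the whole graph (`PcD` of XFrame v3).
-/

set_option autoImplicit false

namespace Pool.Agent.Work.MP_db9399_dx

open Finset Classical
open Pool.Agent.Work.MP_db9399_all (nb)
open Pool.Agent.Work.MP_db9399_da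
open Pool.Agent.Work.MP_db9399_cl.helper26 (DecQ Stmt_DECQ)
open Pool.Agent.Work.MP_db9399_xf
open Pool.Agent.Work.MP_db9399_xc.helper38 (Clx lgt)

universe u v

/-- The pieces `X` and the closed family of clusters `Cs`: the sets of `X.cq` are the clusters (`q1`,
`q2`); all members of pieces except `X.Hv` are light (`lt`); vertices of `X.Hv` are in pieces of type K
(`hk`); `κ`: a cluster has few vertices in `V0` or `Hv` (`vh`); `z0`: every exceptional vertex misses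
`z0 d` vertices of every cluster (`mz`). -/
structure Lnk0 {V : Type u} [Fintype V] {N J : ℕ} (z0 κ a : ℝ) (G : SimpleGraph V) (d : ℕ)
    (Cs : Finset (Finset V)) (X : XD V N J) : Prop where
  q1 : ∀ Q ∈ Cs, ∃ k, ∀ v, v ∈ Q ↔ X.cq v = some k
  q2 : ∀ v k, X.cq v = some k → ∃ Q ∈ Cs, ∀ w, w ∈ Q ↔ X.cq w = some k
  lt : ∀ v, v ∉ X.P.V0 → v ∉ X.Hv → v ∈ lgt G d a Cs
  hk : ∀ v, v ∈ X.Hv → InT X Ty.K v
  vh : ∀ Q ∈ Cs, ((Q.filter fun v => v ∈ X.P.V0 ∨ v ∈ X.Hv).card : ℝ) ≤ κ * d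
  mz : ∀ v ∈ X.P.V0, ∀ Q ∈ Cs, z0 * d ≤ ((Q \ nb G v).card : ℝ)
  n4 : ∀ n, X.P.ty n = Ty.N → 4 ∣ Fintype.card (Ts X.P n)

/-- Moreover an exceptional member of a cluster has many light neighbours in it. -/
structure Lnk {V : Type u} [Fintype V] {N J : ℕ} (z0 κ a : ℝ) (G : SimpleGraph V) (d : ℕ)
    (Cs : Finset (Finset V)) (X : XD V N J) : Prop extends Lnk0 z0 κ a G d Cs X where
  v0n : ∀ x ∈ X.P.V0, ∀ q, X.cq x = some q → (3 / 4 - κ) * d ≤
    (((nb G x).filter fun v => v ∉ X.P.V0 ∧ v ∉ X.Hv ∧ X.cq v = some q).card : ℝ)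

/-- `v0n` from the other links -/
theorem Lnk0.toLnk {V : Type u} [Fintype V] {N J : ℕ} {z0 κ a Mc ζc gg : ℝ} {G : SimpleGraph V}
    {d : ℕ} {Cs : Finset (Finset V)} {X : XD V N J} (h : Lnk0 z0 κ a G d Cs X)
    (hreg : ∀ v, (nb G v).card = d) (hC : Clx G d Mc ζc a gg Cs) (hζ : ζc ≤ 1 / 8) :
    Lnk z0 κ a G d Cs X := by
  refine ⟨h, fun x _ q hq => ?_⟩
  obtain ⟨Q, hQ, hQq⟩ := h.q2 x q hq
  have h1 := hC.inn Q hQ x ((hQq x).2 hq)
  have h2 := h.vh Q hQ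
  have h3 : ((nb G x ∩ Q).card : ℝ) + ((nb G x \ Q).card : ℝ) = d := by
    rw [← hreg x]
    exact_mod_cast card_inter_add_card_sdiff (nb G x) Q
  have h4 : nb G x ∩ Q ⊆ ((nb G x).filter fun v => v ∉ X.P.V0 ∧ v ∉ X.Hv ∧ X.cq v = some q) ∪
      (Q.filter fun v => v ∈ X.P.V0 ∨ v ∈ X.Hv) := by
    intro v hv
    obtain ⟨h5, h6⟩ := mem_inter.1 hv
    by_cases h7 : v ∈ X.P.V0 ∨ v ∈ X.Hv
    · exact mem_union_right _ (mem_filter.2 ⟨h6, h7⟩)
    · rw [not_or] at h7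
      exact mem_union_left _ (mem_filter.2 ⟨h5, h7.1, h7.2, (hQq v).1 h6⟩)
  have h5 : ((nb G x ∩ Q).card : ℝ) ≤
      (((nb G x).filter fun v => v ∉ X.P.V0 ∧ v ∉ X.Hv ∧ X.cq v = some q).card : ℝ) +
      ((Q.filter fun v => v ∈ X.P.V0 ∨ v ∈ X.Hv).card : ℝ) := by
    exact_mod_cast (card_le_card h4).trans (card_union_le _ _)
  have h6 : (0 : ℝ) ≤ d := Nat.cast_nonneg d
  nlinarith

/-- **DECX**: the pieces. `Mc`, `ζc`: constants of the clusters; `rr`: the constant of the cuts inside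
the parts (`PcL.cutP`) as a function of the constant `ρ1` of the cuts. -/
def Stmt_DECX : Prop :=
  ∀ (Mc g ζc z θk θ' η κ : ℝ), 1 ≤ Mc → 0 < g → g ≤ 1 / 10 → g ≤ θk / 4 → 0 < ζc → ζc ≤ 1 / 8 →
    0 < z → z ≤ ζc / 4 → z ≤ θk / 4 → 0 < θ' → 0 < η → 0 < κ →
    ∃ M : ℕ, ∀ (T : Thr) (rr : ℝ → ℝ), T.Pos → (∀ ρ, 0 < ρ → ρ ≤ 1 → 0 < rr ρ ∧ rr ρ ≤ ρ) →
    ∃ (J : ℕ) (S : Fin J → Scl) (ρ1 : Fin J → ℝ) (a0 : ℝ) (d0 : ℕ),
      (∀ s, Adm T (S s)) ∧ (∀ s, 0 < ρ1 s ∧ ρ1 s ≤ 1 ∧ (S s).ρ = rr (ρ1 s)) ∧ 0 < a0 ∧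
    ∀ {V : Type u} [Fintype V] (G : SimpleGraph V) (d : ℕ) (a a' gg : ℝ)
      (Cs : Finset (Finset V)), d0 ≤ d → (∀ v, (nb G v).card = d) → 0 < a → a ≤ a0 →
      17 * Mc * a ≤ a' → Clx G d Mc ζc a gg Cs →
      ∃ (N : ℕ) (X : XD V N J),
        PcD (4 * Mc + 1) g z θk θ' η a' M S G d X ∧
        PcD (4 * Mc + 1) g z θk θ' η a' M (fun s => { S s with ρ := ρ1 s }) G d X ∧
        Lnk (min z (g / 2)) κ a G d Cs X

section enum

theorem enum {α : Type u} {β : Type v} (P : Finset α) (f : α → β) (b : β) :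
    ∃ (J : ℕ) (S : Fin (J + 1) → β), (∀ p ∈ P, ∃ j, S j = f p) ∧
      ∀ j, S j = b ∨ ∃ p ∈ P, S j = f p := by
  have key : ∀ L : List β, ∃ (J : ℕ) (S : Fin (J + 1) → β), (∀ y ∈ L, ∃ j, S j = y) ∧
      ∀ j, S j = b ∨ S j ∈ L := by
    intro L
    refine ⟨L.length, fun j => (b :: L).get (j.cast (by simp)), ?_, ?_⟩
    · intro y hy
      have h1 : y ∈ b :: L := List.mem_cons_of_mem _ hy
      obtain ⟨n, hn⟩ := List.mem_iff_get.1 h1
      exact ⟨n.cast (by simp), hn⟩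
    · intro j
      have h1 : (b :: L).get (j.cast (by simp)) ∈ b :: L := List.get_mem _ _
      exact List.mem_cons.1 h1
  obtain ⟨J, S, h1, h2⟩ := key (P.toList.map f)
  refine ⟨J, S, fun p hp => h1 _ (List.mem_map_of_mem (mem_toList.2 hp)), fun j => ?_⟩
  rcases h2 j with h3 | h3
  · exact Or.inl h3
  · right
    obtain ⟨p, hp, hpe⟩ := List.mem_map.1 h3
    exact ⟨p, mem_toList.1 hp, hpe.symm⟩

theorem exists_low {α : Type u} (P : Finset α) (f : α → ℝ) (hf : ∀ p ∈ P, 0 < f p) :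
    ∃ δ : ℝ, 0 < δ ∧ ∀ p ∈ P, δ ≤ f p := by
  induction P using Finset.induction_on with
  | empty => exact ⟨1, one_pos, fun p hp => absurd hp (notMem_empty p)⟩
  | insert x P hx ih =>
    obtain ⟨δ, h1, h2⟩ := ih fun p hp => hf p (mem_insert_of_mem hp)
    refine ⟨min δ (f x), lt_min h1 (hf x (mem_insert_self _ _)), fun p hp => ?_⟩
    rcases mem_insert.1 hp with rfl | hp
    · exact min_le_right _ _
    · exact (min_le_left _ _).trans (h2 p hp)

end enum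

section lnk
variable {V : Type u} [Fintype V] {q M J : ℕ} {C g z x e : ℝ} {ρ ζ θ : Fin q → ℝ}
  {G : SimpleGraph V} {d : ℕ} {A : Fin q → Finset V} {PL : ∀ i, Pcs {v // v ∈ A i} M}
  {X : Fin q × Fin M → Bool → Finset V} {Hh : Fin q → Finset V} {Fb : Fin q × Fin M → Bool}

/-- an exceptional vertex misses many vertices of every cluster -/
theorem miss_Q (h : Fnl C g z x e ρ ζ θ G d A PL X Hh Fb) (hg : g ≤ 1 / 10) (i : Fin q)
    (hθ : θ i ≤ 1 / 2) (hA : (1 : ℝ) / 2 * d < ((A i).card : ℝ)) (v : V)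
    (hv : v ∈ (gl G d z ζ A PL X).V0) :
    min z (g / 2) * d ≤ ((A i \ nb G v).card : ℝ) := by
  have hd := d_pos h.toGlu
  obtain ⟨w, hw⟩ : ∃ w : {v // v ∈ A i}, w ∉ (PL i).V0 := by
    by_contra hcon
    push Not at hcon
    have h1 : (PL i).V0 = univ := by
      ext w
      exact ⟨fun _ => mem_univ _, fun _ => hcon w⟩
    have h2 := (h.dq i).V0c
    rw [h1, card_univ, Fintype.card_coe] at h2
    nlinarith
  set p : Fin q × Fin M := (i, (PL i).pc w) with hp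
  have hwY : w.1 ∈ Yp A PL p := (mem_Yp A PL p w.1).2 ⟨w.2, hw, rfl⟩
  have hne : (Yp A PL p).Nonempty := ⟨_, hwY⟩
  have key : min z (g / 2) * d ≤ ((Yp A PL p \ nb G v).card : ℝ) := by
    have hsplit : ((nb G v ∩ Yp A PL p).card : ℝ) + ((Yp A PL p \ nb G v).card : ℝ) =
        (Yp A PL p).card := by
      rw [inter_comm]
      exact_mod_cast card_inter_add_card_sdiff _ _
    have hnb : ((nb G v ∩ Yp A PL p).card : ℝ) ≤ d := by
      rw [← h.reg v]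
      exact_mod_cast card_le_card inter_subset_left
    rcases hT : (PL p.1).ty p.2 with _ | _ | _ | _
    · exact absurd ((h.dq p.1).emp p.2 hT) (fun h1 => h1.false ⟨w, hw, rfl⟩)
    · refine le_trans (mul_le_mul_of_nonneg_right (min_le_left _ _) hd.le)
        (miss_K h.toGlu p hT v ?_)
      rw [mem_union]
      rintro (h1 | h1)
      · exact notV0_of_Yp h.toGlu p v h1 hv
      · exact ((gl_mem' (G := G) (d := d) (z := z) (ζ := ζ) (X := X) v p).2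
          ((ix_iff h.toGlu v p).2 (Or.inr h1))).1 hv
    · have h1 := (h.dq p.1).nL p.2 hT
      rw [← card_Yp] at h1
      have h2 : min z (g / 2) * d ≤ g / 2 * d :=
        mul_le_mul_of_nonneg_right (min_le_right _ _) hd.le
      linarith
    · have h1 := big_Sp h.toGlu p hT hne false
      have h2 := big_Sp h.toGlu p hT hne true
      have h3 : (Yp A PL p).card = (Sp A PL p false).card + (Sp A PL p true).card := by
        rw [Yp_Sp]
        exact card_union_of_disjoint (Sp_dis p false)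
      have h3' : ((Yp A PL p).card : ℝ) = (Sp A PL p false).card + (Sp A PL p true).card := by
        exact_mod_cast h3
      have h4 : min z (g / 2) * d ≤ 1 / 20 * d :=
        mul_le_mul_of_nonneg_right ((min_le_right _ _).trans (by linarith)) hd.le
      have := h.ζ8 p.1
      nlinarith
  refine key.trans ?_
  exact_mod_cast card_le_card (sdiff_subset_sdiff (Yp_sub p) (Subset.refl _))

theorem Zp_K' (h : Fnl C g z x e ρ ζ θ G d A PL X Hh Fb) (p : Fin q × Fin M) (v : V)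
    (hv : v ∈ Zp G d z A PL X p) : (PL p.1).ty p.2 = Ty.K := by
  rcases ((mem_Zp p v).1 hv).2 with h1 | ⟨β, h1⟩
  · exact h1.1
  · rw [h.hX] at h1
    exact absurd h1 (notMem_empty _)

/-- few vertices of a cluster are exceptional or heavy -/
theorem few_Q (h : Fnl C g z x e ρ ζ θ G d A PL X Hh Fb) (i : Fin q) (hθ0 : 0 ≤ θ i) :
    (((A i ∪ Hh i).filter fun v => v ∈ (gl G d z ζ A PL X).V0 ∨
      v ∈ (univ.filter fun v => ∃ p, v ∈ Zp G d z A PL X p)).card : ℝ) ≤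
      (θ i + e + 2 * M * θ i) * d := by
  have hd := d_pos h.toGlu
  have h1 : ((A i ∪ Hh i).filter fun v => v ∈ (gl G d z ζ A PL X).V0 ∨
      v ∈ (univ.filter fun v => ∃ p, v ∈ Zp G d z A PL X p)) ⊆
      ((PL i).V0.map (Function.Embedding.subtype _) ∪ Hh i) ∪
        (univ : Finset (Fin M)).biUnion fun m => Zp G d z A PL X (i, m) := by
    intro w hw
    obtain ⟨h4, h2⟩ := mem_filter.1 hw
    rcases h2 with h2 | h2
    · refine mem_union_left _ ?_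
      rw [mem_union] at h4 ⊢
      rcases h4 with h4 | h4
      · left
        rw [mem_map]
        refine ⟨⟨w, h4⟩, ?_, rfl⟩
        by_contra h5
        exact notV0_of_Yp h.toGlu (i, (PL i).pc ⟨w, h4⟩) w ((mem_Yp A PL _ w).2 ⟨h4, h5, rfl⟩) h2
      · exact Or.inr h4
    · obtain ⟨_, p, h5⟩ := mem_filter.1 h2
      refine mem_union_right _ (mem_biUnion.2 ⟨p.2, mem_univ _, ?_⟩)
      have h6 := mem_Q h p w (mem_union_right _ h5)
      have h7 : p.1 = i := by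
        by_contra hne
        exact disjoint_left.1 (h.Qd _ _ hne) h6 h4
      have h8 : ((i, p.2) : Fin q × Fin M) = p := by rw [← h7]
      rw [h8]
      exact h5
  have h2 : (((PL i).V0.map (Function.Embedding.subtype _) ∪ Hh i).card : ℝ) ≤ (θ i + e) * d := by
    have h3 := card_union_le ((PL i).V0.map (Function.Embedding.subtype _)) (Hh i)
    rw [card_map] at h3
    have h3' : (((PL i).V0.map (Function.Embedding.subtype _) ∪ Hh i).card : ℝ) ≤
        (PL i).V0.card + (Hh i).card := by exact_mod_cast h3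
    have h4 := (h.dq i).V0c
    have h5 := h.Hc i
    linarith
  have h3 : (((univ : Finset (Fin M)).biUnion fun m => Zp G d z A PL X (i, m)).card : ℝ) ≤
      M * (2 * θ i * d) := by
    have h4 : (((univ : Finset (Fin M)).biUnion fun m => Zp G d z A PL X (i, m)).card : ℝ) ≤
        ∑ m : Fin M, ((Zp G d z A PL X (i, m)).card : ℝ) := by exact_mod_cast card_biUnion_le
    refine h4.trans ?_
    have h5 : ∀ m ∈ (univ : Finset (Fin M)), ((Zp G d z A PL X (i, m)).card : ℝ) ≤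
        2 * θ i * d := by
      intro m _
      by_cases hK : (PL i).ty m = Ty.K
      · exact card_ZpK h.toGlu (i, m) hK
      · have h6 : Zp G d z A PL X (i, m) = ∅ := by
          rw [eq_empty_iff_forall_notMem]
          intro v hv
          exact hK (Zp_K' h (i, m) v hv)
        rw [h6, card_empty]
        push_cast
        positivity
    refine (sum_le_card_nsmul _ _ _ h5).trans (le_of_eq ?_)
    rw [card_univ, Fintype.card_fin, nsmul_eq_mul]
  refine (Nat.cast_le.2 (card_le_card h1)).trans ?_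
  have h4 := card_union_le ((PL i).V0.map (Function.Embedding.subtype _) ∪ Hh i)
    ((univ : Finset (Fin M)).biUnion fun m => Zp G d z A PL X (i, m))
  have h4' : ((((PL i).V0.map (Function.Embedding.subtype _) ∪ Hh i) ∪
      ((univ : Finset (Fin M)).biUnion fun m => Zp G d z A PL X (i, m))).card : ℝ) ≤
      (((PL i).V0.map (Function.Embedding.subtype _) ∪ Hh i).card : ℝ) +
      (((univ : Finset (Fin M)).biUnion fun m => Zp G d z A PL X (i, m)).card : ℝ) := by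
    exact_mod_cast h4
  linarith

end lnk

theorem stmt_DECX (hQ : Stmt_DECQ.{u}) : Stmt_DECX.{u} := by
  intro Mc g ζc z θk θ' η κ hMc hg hg1 hgk hζc hζc1 hz hzc hzk hθ' hη hκ
  obtain ⟨M, r, K, hrK, hmain⟩ := hQ (4 * Mc) g (by linarith) hg hg1
  refine ⟨M, ?_⟩
  intro T rr hT hrr
  have hθk : 0 < θk := by linarith
  have hM0 : (0 : ℝ) ≤ M := Nat.cast_nonneg M
  have hκM : 0 < κ / (2 * M + 2) := by positivity
  -- the constants of the scales
  obtain ⟨rho1, hr1⟩ : ∃ rho1 : ℝ → ℝ, ∀ ρ, 0 < ρ → 0 < rho1 ρ ∧ rho1 ρ ≤ 1 ∧ 4 * rho1 ρ ≤ ρ ∧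
      4 * rho1 ρ * (4 * Mc + 1) ≤ 1 := by
    refine ⟨fun ρ => min (ρ / 4) (1 / (4 * (4 * Mc + 1))), fun ρ hρ => ?_⟩
    have h1 : min (ρ / 4) (1 / (4 * (4 * Mc + 1))) ≤ ρ / 4 := min_le_left _ _
    have h2 : min (ρ / 4) (1 / (4 * (4 * Mc + 1))) ≤ 1 / (4 * (4 * Mc + 1)) := min_le_right _ _
    have h3 : (0 : ℝ) < 4 * (4 * Mc + 1) := by linarith
    rw [le_div_iff₀ h3] at h2
    have h4 : 0 < min (ρ / 4) (1 / (4 * (4 * Mc + 1))) := lt_min (by linarith) (by positivity)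
    refine ⟨h4, ?_, by linarith, by linarith⟩
    nlinarith
  set R : ℝ → ℝ := fun ρ => rr (rho1 ρ) with hR
  have hR1 : ∀ ρ, 0 < ρ → 0 < R ρ ∧ R ρ ≤ rho1 ρ := fun ρ hρ => hrr _ (hr1 ρ hρ).1 (hr1 ρ hρ).2.1
  set Pi : ℝ → ℝ := fun ρ => T.π0 (R ρ) with hPi
  have hPi0 : ∀ ρ, 0 < ρ → 0 < Pi ρ := fun ρ hρ => hT.π0 _ (hR1 ρ hρ).1
  set Ka : ℝ → ℝ := fun ρ => T.κ0 (R ρ) (Pi ρ) with hKa
  have hKa0 : ∀ ρ, 0 < ρ → 0 < Ka ρ := fun ρ hρ => hT.κ0 _ _ (hR1 ρ hρ).1 (hPi0 ρ hρ)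
  set Ep : ℝ → ℝ := fun ρ => T.ε0 (R ρ) (Pi ρ) (Ka ρ) with hEp
  have hEp0 : ∀ ρ, 0 < ρ → 0 < Ep ρ := fun ρ hρ =>
    hT.ε0 _ _ _ (hR1 ρ hρ).1 (hPi0 ρ hρ) (hKa0 ρ hρ)
  set Ze : ℝ → ℝ := fun ρ => T.ζ0 (R ρ) (Pi ρ) (Ka ρ) (Ep ρ) with hZe
  have hZe0 : ∀ ρ, 0 < ρ → 0 < Ze ρ := fun ρ hρ =>
    hT.ζ0 _ _ _ _ (hR1 ρ hρ).1 (hPi0 ρ hρ) (hKa0 ρ hρ) (hEp0 ρ hρ)
  have hTh0 : ∀ ρ ζ, 0 < ρ → 0 < ζ → 0 < T.θ0 (R ρ) (Pi ρ) (Ka ρ) (Ep ρ) ζ := fun ρ ζ hρ hζ =>
    hT.θ0 _ _ _ _ _ (hR1 ρ hρ).1 (hPi0 ρ hρ) (hKa0 ρ hρ) (hEp0 ρ hρ) hζ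
  obtain ⟨Rs, Sg, zz, tt, d1, hRs, hSg, hzt, hdec⟩ := hmain 0 (fun _ _ => 1)
    (fun ρ _ => min (Ze ρ / 2) (min (ζc / 8) (min (θk / 8) (min θ' (1 / 8)))))
    (fun ρ _ ζ => min (T.θ0 (R ρ) (Pi ρ) (Ka ρ) (Ep ρ) (2 * ζ) / 2)
      (min (θk / 16) (min (η / 4) (min (1 / 2) (κ / (2 * M + 2))))))
    (fun _ _ _ _ => ⟨one_pos, le_refl _⟩)
    (fun ρ σ hρ _ => lt_min (half_pos (hZe0 ρ hρ)) (lt_min (by linarith)
      (lt_min (by linarith) (lt_min hθ' (by norm_num)))))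
    (fun ρ σ ζ hρ _ hζ => lt_min (half_pos (hTh0 ρ _ hρ (by linarith))) (lt_min (by linarith)
      (lt_min (by linarith) (lt_min (by norm_num) hκM))))
  have hzt' : ∀ ρ ∈ Rs, ∀ σ ∈ Sg, (0 < zz ρ σ ∧ 2 * zz ρ σ ≤ Ze ρ ∧ zz ρ σ ≤ ζc / 8 ∧
      zz ρ σ ≤ θk / 8 ∧ zz ρ σ ≤ θ' ∧ zz ρ σ ≤ 1 / 8) ∧ (0 < tt ρ σ ∧
      2 * tt ρ σ ≤ T.θ0 (R ρ) (Pi ρ) (Ka ρ) (Ep ρ) (2 * zz ρ σ) ∧ tt ρ σ ≤ θk / 16 ∧
      tt ρ σ ≤ η / 4 ∧ tt ρ σ ≤ 1 / 2 ∧ (2 * M + 2) * tt ρ σ ≤ κ) := by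
    intro ρ hρ σ hσ
    obtain ⟨h1, h2, _, h3, h4⟩ := hzt ρ hρ σ hσ
    simp only [le_min_iff] at h2 h4
    obtain ⟨a1, a2, a3, a4, a5⟩ := h2
    obtain ⟨b1, b2, b3, b4, b5⟩ := h4
    rw [le_div_iff₀ (by positivity)] at b5
    exact ⟨⟨h1, by linarith, a2, a3, a4, a5⟩, h3, by linarith, b2, b3, b4, by linarith⟩
  obtain ⟨J, SS, hSS1, hSS2⟩ := enum (Rs ×ˢ Sg)
    (fun y => ((⟨R y.1, Pi y.1, Ka y.1, Ep y.1, 2 * zz y.1 y.2, 2 * tt y.1 y.2⟩ : Scl),
      rho1 y.1))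
    ((⟨R 1, Pi 1, Ka 1, Ep 1, Ze 1, T.θ0 (R 1) (Pi 1) (Ka 1) (Ep 1) (Ze 1)⟩ : Scl), rho1 1)
  have hgood : ∀ j, Adm T (SS j).1 ∧ 0 < (SS j).2 ∧ (SS j).2 ≤ 1 ∧ (SS j).1.ρ = rr (SS j).2 := by
    intro j
    rcases hSS2 j with h1 | ⟨y, hy, h1⟩
    · rw [h1]
      have h2 := hr1 1 one_pos
      have h3 := hR1 1 one_pos
      exact ⟨⟨⟨h3.1, h3.2.trans h2.2.1⟩, ⟨hPi0 1 one_pos, le_refl _⟩, ⟨hKa0 1 one_pos, le_refl _⟩,
        ⟨hEp0 1 one_pos, le_refl _⟩, ⟨hZe0 1 one_pos, le_refl _⟩,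
        ⟨hTh0 1 _ one_pos (hZe0 1 one_pos), le_refl _⟩⟩, h2.1, h2.2.1, rfl⟩
    · rw [h1]
      obtain ⟨hy1, hy2⟩ := mem_product.1 hy
      have hρ := (hRs _ hy1).1
      have h2 := hr1 _ hρ
      have h3 := hR1 _ hρ
      obtain ⟨⟨a1, a2, _⟩, b1, b2, _⟩ := hzt' _ hy1 _ hy2
      exact ⟨⟨⟨h3.1, h3.2.trans h2.2.1⟩, ⟨hPi0 _ hρ, le_refl _⟩, ⟨hKa0 _ hρ, le_refl _⟩,
        ⟨hEp0 _ hρ, le_refl _⟩, ⟨by linarith, a2⟩, ⟨by linarith, b2⟩⟩, h2.1, h2.2.1, rfl⟩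
  obtain ⟨δ, hδ0, hδ⟩ := exists_low (Rs ×ˢ Sg) (fun y => min (tt y.1 y.2) (y.1 / 40))
    (fun y hy => by
      obtain ⟨hy1, hy2⟩ := mem_product.1 hy
      have hρ := (hRs _ hy1).1
      exact lt_min (hzt' _ hy1 _ hy2).2.1 (by linarith))
  obtain ⟨δ2, hδ20, hδ2⟩ := exists_low Rs (fun y => y / 40) (fun y hy => by
    have := (hRs _ hy).1
    linarith)
  refine ⟨J + 1, fun j => (SS j).1, fun j => (SS j).2, min (1 / 64) (min δ δ2), max d1 4,
    fun j => (hgood j).1, fun j => (hgood j).2, lt_min (by norm_num) (lt_min hδ0 hδ20), ?_⟩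
  intro V _ G d a a' gg Cs hd hreg ha haa ha' hCl
  have ha64 : a ≤ 1 / 64 := haa.trans (min_le_left _ _)
  have haδ : a ≤ δ := haa.trans ((min_le_right _ _).trans (min_le_left _ _))
  have haδ2 : a ≤ δ2 := haa.trans ((min_le_right _ _).trans (min_le_right _ _))
  have hd1 : d1 ≤ d := (le_max_left _ _).trans hd
  have hd4 : 4 ≤ d := (le_max_right _ _).trans hd
  have hd4' : (4 : ℝ) ≤ d := by exact_mod_cast hd4
  have hd0 : (0 : ℝ) < d := by linarith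
  -- the clusters
  set Q : Fin Cs.card → Finset V := fun i => (Cs.equivFin.symm i).1 with hQdef
  have hQm : ∀ i, Q i ∈ Cs := fun i => (Cs.equivFin.symm i).2
  have hQi : ∀ i j, i ≠ j → Q i ≠ Q j := by
    intro i j hij h1
    exact hij (Cs.equivFin.symm.injective (Subtype.ext h1))
  have hQs : ∀ U ∈ Cs, ∃ i, Q i = U := by
    intro U hU
    exact ⟨Cs.equivFin ⟨U, hU⟩, by
      change (Cs.equivFin.symm (Cs.equivFin ⟨U, hU⟩)).1 = U
      rw [Equiv.symm_apply_apply]⟩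
  set A : Fin Cs.card → Finset V :=
    fun i => (Q i).filter fun v => ((nb G v \ Q i).card : ℝ) ≤ 2 * a * d with hA
  set Hh : Fin Cs.card → Finset V :=
    fun i => (Q i).filter fun v => 2 * a * d < ((nb G v \ Q i).card : ℝ) with hHh
  have hAH : ∀ i, A i ∪ Hh i = Q i := by
    intro i
    ext v
    rw [mem_union, hA, hHh]
    simp only [mem_filter]
    constructor
    · rintro (h1 | h1) <;> exact h1.1
    · intro h1
      rcases le_or_gt ((nb G v \ Q i).card : ℝ) (2 * a * d) with h2 | h2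
      · exact Or.inl ⟨h1, h2⟩
      · exact Or.inr ⟨h1, h2⟩
  have hAQ : ∀ i, A i ⊆ Q i := fun i => filter_subset _ _
  have hHc : ∀ i, ((Hh i).card : ℝ) ≤ 2 * a ^ 2 * d := fun i => hCl.hv (Q i) (hQm i)
  have hQd : ∀ i j, i ≠ j → Disjoint (A i ∪ Hh i) (A j ∪ Hh j) := by
    intro i j hij
    rw [hAH, hAH]
    exact hCl.dis _ (hQm i) _ (hQm j) (hQi i j hij)
  have hAd : ∀ i j, i ≠ j → Disjoint (A i) (A j) := fun i j hij =>
    (hQd i j hij).mono subset_union_left subset_union_left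
  have ha2 : 2 * a ^ 2 ≤ a / 32 := by nlinarith
  have hQA : ∀ i, ((Q i \ A i).card : ℝ) ≤ 2 * a ^ 2 * d := by
    intro i
    refine le_trans ?_ (hHc i)
    refine Nat.cast_le.2 (card_le_card ?_)
    intro v hv
    rw [mem_sdiff] at hv
    have h1 := hv.1
    rw [← hAH i, mem_union] at h1
    exact h1.resolve_left hv.2
  have hlx : ∀ i v, v ∈ A i → ((nb G v \ A i).card : ℝ) ≤ 4 * a * d := by
    intro i v hv
    have h1 : ((nb G v \ A i).card : ℝ) ≤ (nb G v \ Q i).card + (Q i \ A i).card := by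
      have h2 : nb G v \ A i ⊆ (nb G v \ Q i) ∪ (Q i \ A i) := by
        intro w hw
        rw [mem_sdiff] at hw
        rw [mem_union, mem_sdiff, mem_sdiff]
        by_cases h3 : w ∈ Q i
        · exact Or.inr ⟨h3, hw.2⟩
        · exact Or.inl ⟨hw.1, h3⟩
      exact_mod_cast (card_le_card h2).trans (card_union_le _ _)
    have h2 := (mem_filter.1 hv).2
    have h3 := hQA i
    nlinarith
  have hAlow : ∀ i, (5 : ℝ) / 8 * d ≤ ((A i).card : ℝ) := by
    intro i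
    have h1 := hCl.lo (Q i) (hQm i)
    have h2 : ((Q i \ A i).card : ℝ) + (A i).card = (Q i).card := by
      exact_mod_cast card_sdiff_add_card_eq_card (hAQ i)
    have h3 := hQA i
    nlinarith
  have hAup : ∀ i, ((A i).card : ℝ) ≤ 4 * Mc * d := by
    intro i
    refine le_trans ?_ (hCl.hi (Q i) (hQm i))
    exact_mod_cast card_le_card (hAQ i)
  have hnin : ∀ i v, v ∉ A i → v ∉ Hh i → ζc / 2 * d ≤ ((nb G v \ A i).card : ℝ) := by
    intro i v h1 h2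
    have h3 : v ∉ Q i := by
      rw [← hAH i, mem_union]
      exact fun h4 => h4.elim h1 h2
    refine (hCl.nin (Q i) (hQm i) v h3).trans ?_
    exact_mod_cast card_le_card (sdiff_subset_sdiff (Subset.refl _) (hAQ i))
  -- local decompositions
  have hloc : ∀ i, ∃ ρ ∈ Rs, ∃ σ ∈ Sg, ∃ P : Pcs {v // v ∈ A i} M,
      DecQ (4 * Mc) g ρ (zz ρ σ) (tt ρ σ) (lG G (A i)) (lex G (A i)) d P := by
    intro i
    have hfl : ((⌊4 * a * d⌋₊ : ℕ) : ℝ) ≤ 4 * a * d := Nat.floor_le (by positivity)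
    obtain ⟨ρ, hρ, σ, hσ, P, h1, _⟩ := hdec (lG G (A i)) (lex G (A i)) d ⌊4 * a * d⌋₊ ∅ hd1
      (fun v => by rw [lG_card, hreg]) (fun v => Nat.le_floor (hlx i v.1 v.2)) (by
        have h1 : ((10 * ⌊4 * a * d⌋₊ : ℕ) : ℝ) ≤ d := by
          push_cast
          nlinarith
        exact_mod_cast h1) (fun ρ hρ => by
        have h2 := hδ2 ρ hρ
        refine hfl.trans ?_
        exact mul_le_mul_of_nonneg_right (by linarith) hd0.le) (by
        rw [Fintype.card_coe]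
        have h1 := hAlow i
        have h2 : ((d + 1 : ℕ) : ℝ) ≤ ((2 * (A i).card : ℕ) : ℝ) := by
          push_cast
          linarith
        exact_mod_cast h2) (by
        rw [Fintype.card_coe]
        exact hAup i) (by simp)
    exact ⟨ρ, hρ, σ, hσ, P, h1⟩
  choose ρc hρc σc hσc PL hPL using hloc
  have hcon := fun i => hzt' (ρc i) (hρc i) (σc i) (hσc i)
  have hδc : ∀ i, δ ≤ tt (ρc i) (σc i) := fun i =>
    (hδ (ρc i, σc i) (mem_product.2 ⟨hρc i, hσc i⟩)).trans (min_le_left _ _)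
  have hζd : ∀ i, 5 / 4 * zz (ρc i) (σc i) + z < ζc / 2 := by
    intro i
    have h1 := (hcon i).1.2.2.1
    linarith
  set X : Fin Cs.card × Fin M → Bool → Finset V := fun _ _ => ∅ with hXdef
  have hX : Glu (4 * Mc) g z (4 * a) (2 * a ^ 2) ρc (fun i => zz (ρc i) (σc i))
      (fun i => tt (ρc i) (σc i)) G d A PL X :=
    ⟨hreg, by omega, hAd, hPL, hlx, by linarith, by linarith, fun i => (hcon i).1.1.le,
      fun i => (hcon i).1.2.2.2.2.2, fun p β => empty_subset _, fun p => rfl, fun p β => by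
        rw [hXdef, card_empty]
        push_cast
        positivity⟩
  have hFb0 : ∀ p, ∃ β, (Rw G d z (fun i => zz (ρc i) (σc i)) A PL X p β).card ≤
      (Rw G d z (fun i => zz (ρc i) (σc i)) A PL X p (!β)).card := by
    intro p
    rcases le_total (Rw G d z (fun i => zz (ρc i) (σc i)) A PL X p false).card
      (Rw G d z (fun i => zz (ρc i) (σc i)) A PL X p true).card with h1 | h1
    · exact ⟨false, h1⟩
    · exact ⟨true, h1⟩
  choose Fb hFb using hFb0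
  have hF : Fnl (4 * Mc) g z (4 * a) (2 * a ^ 2) ρc (fun i => zz (ρc i) (σc i))
      (fun i => tt (ρc i) (σc i)) G d A PL X Hh Fb :=
    ⟨hX, hHc, hQd, fun i v h1 h2 => by
      have h3 := hnin i v h1 h2
      refine lt_of_lt_of_le ?_ h3
      exact mul_lt_mul_of_pos_right (hζd i) hd0, fun p β => rfl, hFb, hz.le⟩
  have hs : ∀ i, ∃ j, SS j = ((⟨R (ρc i), Pi (ρc i), Ka (ρc i), Ep (ρc i),
      2 * zz (ρc i) (σc i), 2 * tt (ρc i) (σc i)⟩ : Scl), rho1 (ρc i)) := fun i =>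
    hSS1 (ρc i, σc i) (mem_product.2 ⟨hρc i, hσc i⟩)
  choose s hs using hs
  have hρ0 : ∀ i, 0 < ρc i := fun i => (hRs _ (hρc i)).1
  have hMa : 0 < Mc * a := by positivity
  have hMa1 : a ≤ Mc * a := by nlinarith
  have hall : ∀ S : Fin (J + 1) → Scl, (∀ i, (S (s i)).ζ = 2 * zz (ρc i) (σc i)) →
      (∀ i, (S (s i)).θ = 2 * tt (ρc i) (σc i)) →
      (∀ i, 0 ≤ (S (s i)).ρ ∧ (S (s i)).ρ ≤ rho1 (ρc i)) →
      PcD (4 * Mc + 1) g z θk θ' η a' M S G d (XF G d z (fun i => zz (ρc i) (σc i)) A PL X Hh Fb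
        (0 : Fin (J + 1)) s) := by
    intro S hS1 hS2 hS3
    refine pcd hF S θk θ' η a' (4 * Mc + 1) (by linarith) (le_refl _) (by positivity)
      (by linarith) hS1 hS2 (fun i => ?_) (fun i => ?_) (by linarith) (by linarith) ?_ ?_ ?_
      hη.le hgk hzk (fun i => (hcon i).1.2.2.2.1) (fun i => (hcon i).2.2.2.1)
      (fun i => (hcon i).1.2.2.2.2.1) (fun i => (hcon i).2.2.2.2.1)
    · have h1 := hr1 (ρc i) (hρ0 i)
      have h2 := hS3 i
      refine ⟨h2.1, by linarith, ?_⟩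
      refine le_trans ?_ h1.2.2.2
      exact mul_le_mul_of_nonneg_right (by linarith) (by linarith)
    · have := hδc i
      linarith
    · linarith
    · linarith
    · nlinarith
  refine ⟨_, XF G d z (fun i => zz (ρc i) (σc i)) A PL X Hh Fb (0 : Fin (J + 1)) s, ?_, ?_, ?_⟩
  · refine hall _ (fun i => by rw [hs]) (fun i => by rw [hs]) fun i => ?_
    rw [hs]
    exact ⟨(hR1 _ (hρ0 i)).1.le, (hR1 _ (hρ0 i)).2⟩
  · refine hall _ (fun i => by
      change (SS (s i)).1.ζ = _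
      rw [hs]) (fun i => by
      change (SS (s i)).1.θ = _
      rw [hs]) fun i => ?_
    change 0 ≤ (SS (s i)).2 ∧ (SS (s i)).2 ≤ _
    rw [hs]
    exact ⟨(hr1 _ (hρ0 i)).1.le, le_refl _⟩
  · refine Lnk0.toLnk (Mc := Mc) (ζc := ζc) (gg := gg) ⟨?_, ?_, ?_, ?_, ?_, ?_, ?_⟩ hreg hCl hζc1
    · intro U hU
      obtain ⟨i, rfl⟩ := hQs U hU
      refine ⟨i.val, fun v => ?_⟩
      change v ∈ Q i ↔ cqX A Hh v = some i.val
      rw [← hAH i]
      exact ⟨cqX_eq hQd v i, cqX_mem hQd v i⟩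
    · intro v k hk
      obtain ⟨i, h1, h2⟩ := (cqX_iff hQd v k).1 hk
      refine ⟨Q i, hQm i, fun w => ?_⟩
      change w ∈ Q i ↔ cqX A Hh w = some k
      rw [← hAH i, ← h1]
      exact ⟨cqX_eq hQd w i, cqX_mem hQd w i⟩
    · intro v hv hvH
      obtain ⟨p, h1, h2⟩ := glF_YZ hF v hv
      have h3 : v ∈ Yp A PL p := by
        rcases mem_union.1 h2 with h3 | h3
        · exact h3
        · exact absurd (mem_filter.2 ⟨mem_univ _, p, h3⟩) hvH
      have h4 := mem_filter.1 (Yp_sub p h3)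
      exact mem_filter.2 ⟨mem_univ _, Q p.1, hQm p.1, h4.1, h4.2⟩
    · intro v hv
      obtain ⟨_, p, hvp⟩ := mem_filter.1 hv
      have h1 := Zp_K' hF p v hvp
      have h2 := (gl_mem' (G := G) (d := d) (z := z) (ζ := fun i => zz (ρc i) (σc i)) (X := X) v
        p).2 ((ix_iff hX v p).2 (Or.inr hvp))
      have h3 : (Yp A PL p).Nonempty := by
        rw [← card_pos]
        have h4 := (card_K hX p h1).1
        have h5 := hX.ζ8 p.1
        have h6 : (0 : ℝ) < (Yp A PL p).card := by nlinarith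
        exact_mod_cast h6
      refine ⟨h2.1, ?_⟩
      change (gl G d z (fun i => zz (ρc i) (σc i)) A PL X).ty
        ((gl G d z (fun i => zz (ρc i) (σc i)) A PL X).pc v) = Ty.K
      rw [h2.2, gl_ty p h3]
      exact h1
    · intro U hU
      obtain ⟨i, rfl⟩ := hQs U hU
      have h1 := few_Q hF i (hcon i).2.1.le
      rw [hAH i] at h1
      refine le_trans h1 ?_
      refine mul_le_mul_of_nonneg_right ?_ hd0.le
      have h2 := hδc i
      have h3 := (hcon i).2.2.2.2.2.2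
      nlinarith
    · intro v hv U hU
      obtain ⟨i, rfl⟩ := hQs U hU
      refine (miss_Q hF hg1 i (hcon i).2.2.2.2.2.1 ?_ v hv).trans ?_
      · have := hAlow i
        linarith
      · exact_mod_cast card_le_card (sdiff_subset_sdiff (hAQ i) (Subset.refl _))
    · intro n hn
      obtain ⟨p, h1, h2, h3⟩ := glF_ty' n Ty.N (by decide) hn
      subst h1
      exact f_n4 hF p h2 h3

end Pool.Agent.Work.MP_db9399_dx
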