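import Pool.Agent.Work.MP_db9399_dx_helper26.DECX
import Pool.Agent.Work.MP_db9399_cl_helper26.DecX
import Pool.Agent.Work.MP_db9399_da_helper62.PARTS2
import Pool.Agent.Work.MP_db9399_da_helper55.DEC2
import Pool.Agent.Work.MP_db9399_da_helper55.DECS
import Pool.Agent.Work.MP_db9399_da_helper45.LBB
import Pool.Agent.Work.MP_db9399_da_helper74.LBH
import Pool.Agent.Work.MP_db9399_da_helper85.LBV
import Pool.Agent.Work.MP_db9399_da_helper73.CPB
import Pool.Agent.Work.MP_db9399_da_helper73.CPN
import Pool.Agent.Work.MP_db9399_da_helper73.WR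
import Pool.Agent.Work.MP_db9399_da_helper73.PCUT
import Pool.Agent.Work.MP_db9399_da_helper19.DCUT

/-!
# MP_db9399, all scales, block DECX: without hypotheses (helper26)
-/

set_option autoImplicit false

namespace Pool.Agent.Work.MP_db9399_dx

open Pool.Agent.Work
open Pool.Agent.Work.MP_db9399_da

universe u

theorem all_pcut : MP_db9399_da_helper72.Stmt_PCUT.{u} :=
  MP_db9399_da_helper73.stmt_PCUT MP_db9399_da_helper73.stmt_WR

theorem all_parts : Stmt_PARTS2.{u} :=
  MP_db9399_da.helper62.stmt_PARTS2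
    (MP_db9399_da.helper45.stmt_LAB3 MP_db9399_da.helper45.stmt_LBA
      (MP_db9399_da.helper45.stmt_LBB MP_db9399_da.helper74.stmt_LBH
        MP_db9399_da.helper85.stmt_LBV))
    (MP_db9399_da.helper73.stmt_CPB all_pcut)
    (MP_db9399_da.helper73.stmt_CPN all_pcut MP_db9399_da.helper19.stmt_DCUT)

/-- **DECX.** -/
theorem decx : Stmt_DECX.{u} :=
  stmt_DECX (MP_db9399_cl.helper26.dec_q
    (MP_db9399_da.helper55.stmt_DECS2 MP_db9399_da.helper55.stmt_DEC1) all_parts)

end Pool.Agent.Work.MP_db9399_dx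

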