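import Pool.Agent.Work.MP_db9399_dx_helper26.Glue

/-!
# MP_db9399, all scales, DECX: properties of the pieces (helper26)
-/

set_option autoImplicit false

namespace Pool.Agent.Work.MP_db9399_dx

open Finset Classical
open Pool.Agent.Work.MP_db9399_all (nb)
open Pool.Agent.Work.MP_db9399_da
open Pool.Agent.Work.MP_db9399_cl.helper26 (DecQ)

universe u v

section gen
variable {W : Type u} [Fintype W] {M : ℕ}

theorem mem_pV (P : Pcs W M) (m : Fin M) (w : W) : w ∈ pV P m ↔ w ∉ P.V0 ∧ P.pc w = m := by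
  rw [pV, mem_filter]
  exact ⟨fun h => h.2, fun h => ⟨mem_univ _, h⟩⟩

theorem sum_pV (P : Pcs W M) (m : Fin M) (F : W → ℝ) (hF : ∀ v, 0 ≤ F v) (B : ℝ)
    (hB : ∑ v ∈ univ \ P.V0, F v ≤ B) : ∑ v ∈ pV P m, F v ≤ B := by
  refine le_trans (sum_le_sum_of_subset_of_nonneg ?_ fun v _ _ => hF v) hB
  intro v hv
  exact mem_sdiff.2 ⟨mem_univ _, ((mem_pV P m v).1 hv).1⟩

theorem sum_comm_nb (G : SimpleGraph W) (S T : Finset W) :
    ∑ v ∈ S, ((nb G v ∩ T).card : ℝ) = ∑ w ∈ T, ((nb G w ∩ S).card : ℝ) := by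
  have h : ∀ (A B : Finset W), ∑ v ∈ A, ((nb G v ∩ B).card : ℝ) =
      ∑ v ∈ A, ∑ w ∈ B, (if G.Adj v w then (1 : ℝ) else 0) := by
    intro A B
    refine sum_congr rfl fun v _ => ?_
    rw [← sum_filter, sum_const, nsmul_eq_mul, mul_one]
    congr 2
    ext w
    rw [mem_inter, mem_nb', mem_filter]
    exact and_comm
  rw [h, h, sum_comm]
  refine sum_congr rfl fun w _ => sum_congr rfl fun v _ => ?_
  simp only [G.adj_comm]

theorem card_io (G : SimpleGraph W) (v : W) (S : Finset W) (d : ℕ) (h : (nb G v).card = d) :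
    ((nb G v ∩ S).card : ℝ) + ((nb G v \ S).card : ℝ) = d := by
  rw [← h]
  exact_mod_cast card_inter_add_card_sdiff (nb G v) S

end gen

section fields
variable {V : Type u} [Fintype V] {q M : ℕ} {C g z x e : ℝ} {ρ ζ θ : Fin q → ℝ}
  {G : SimpleGraph V} {d : ℕ} {A : Fin q → Finset V} {PL : ∀ i, Pcs {v // v ∈ A i} M}
  {X : Fin q × Fin M → Bool → Finset V}

/-- edges which leave the own piece -/
theorem out_Yp (h : Glu C g z x e ρ ζ θ G d A PL X) (p : Fin q × Fin M)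
    (v : {v // v ∈ A p.1}) (h2 : (PL p.1).pc v = p.2) :
    ((nb G v.1 \ Yp A PL p).card : ℝ) ≤
      ((nb (thin (lG G (A p.1)) (PL p.1)) v).card : ℝ) + lex G (A p.1) v := by
  have h3 := thin_bulk (lG G (A p.1)) (PL p.1) v
  have h4 := (h.dq p.1).reg v
  have h5 : (nb (bulk (lG G (A p.1)) (PL p.1)) v).card ≤ (nb G v.1 ∩ Yp A PL p).card := by
    rw [← card_map (f := Function.Embedding.subtype (fun v => v ∈ A p.1))]
    refine card_le_card ?_
    intro w hw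
    obtain ⟨w', hw', rfl⟩ := mem_map.1 hw
    rw [mem_nb'] at hw'
    rw [mem_inter, mem_nb', mem_Yp]
    refine ⟨hw'.1, w'.2, hw'.2.2.1, ?_⟩
    have h6 : (PL p.1).pc v = (PL p.1).pc w' := hw'.2.2.2.1
    exact h6.symm.trans h2
  have h6 := card_inter_add_card_sdiff (nb G v.1) (Yp A PL p)
  have h7 := h.reg v.1
  have h8 : (nb G v.1 \ Yp A PL p).card ≤ (nb (thin (lG G (A p.1)) (PL p.1)) v).card +
      lex G (A p.1) v := by omega
  exact_mod_cast h8

/-- type B: edges which do not go to the opposite side -/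
theorem out_Sp (h : Glu C g z x e ρ ζ θ G d A PL X) (p : Fin q × Fin M)
    (hp : (PL p.1).ty p.2 = Ty.B) (β : Bool) (v : {v // v ∈ A p.1})
    (h2 : (PL p.1).pc v = p.2) (h2' : (PL p.1).sd v = β) :
    ((nb G v.1 \ Sp A PL p (!β)).card : ℝ) ≤
      ((nb (thin (lG G (A p.1)) (PL p.1)) v).card : ℝ) + lex G (A p.1) v := by
  have h3 := thin_bulk (lG G (A p.1)) (PL p.1) v
  have h4 := (h.dq p.1).reg v
  have h5 : (nb (bulk (lG G (A p.1)) (PL p.1)) v).card ≤ (nb G v.1 ∩ Sp A PL p (!β)).card := by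
    rw [← card_map (f := Function.Embedding.subtype (fun v => v ∈ A p.1))]
    refine card_le_card ?_
    intro w hw
    obtain ⟨w', hw', rfl⟩ := mem_map.1 hw
    rw [mem_nb'] at hw'
    rw [mem_inter, mem_nb', mem_Sp]
    have h6 : (PL p.1).pc v = (PL p.1).pc w' := hw'.2.2.2.1
    have h7 := hw'.2.2.2.2 (by rw [h2]; exact hp)
    refine ⟨hw'.1, w'.2, hw'.2.2.1, h6.symm.trans h2, ?_⟩
    rw [h2'] at h7
    change (PL p.1).sd w' = !β
    cases hs : (PL p.1).sd w' <;> cases β <;> simp_all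
  have h6 := card_inter_add_card_sdiff (nb G v.1) (Sp A PL p (!β))
  have h7 := h.reg v.1
  have h8 : (nb G v.1 \ Sp A PL p (!β)).card ≤
      (nb (thin (lG G (A p.1)) (PL p.1)) v).card + lex G (A p.1) v := by omega
  exact_mod_cast h8

theorem sum_out (h : Glu C g z x e ρ ζ θ G d A PL X) (p : Fin q × Fin M) :
    ∑ v ∈ Yp A PL p, ((nb G v \ Yp A PL p).card : ℝ) ≤ θ p.1 * (d : ℝ) ^ 2 := by
  have h1 : ∑ v ∈ Yp A PL p, ((nb G v \ Yp A PL p).card : ℝ) =
      ∑ v ∈ pV (PL p.1) p.2, ((nb G v.1 \ Yp A PL p).card : ℝ) := by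
    conv_lhs => rw [Yp, sum_map]
    rfl
  rw [h1]
  refine le_trans (sum_le_sum fun v hv => out_Yp h p v ((mem_pV _ _ v).1 hv).2) ?_
  exact sum_pV (PL p.1) p.2 _ (fun v => by positivity) _ (h.dq p.1).ths

theorem pV_gl (h : Glu C g z x e ρ ζ θ G d A PL X) (p : Fin q × Fin M) :
    pV (gl G d z ζ A PL X) (eN q M (some p)) = Yp A PL p ∪ Zp G d z A PL X p := by
  ext v
  rw [pV, mem_filter, mem_union, ← ix_iff h, ← gl_mem']
  exact ⟨fun h => h.2, fun h => ⟨mem_univ _, h⟩⟩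

theorem pV_glN (h : Glu C g z x e ρ ζ θ G d A PL X) (p : Fin q × Fin M)
    (hp : (PL p.1).ty p.2 = Ty.N) :
    pV (gl G d z ζ A PL X) (eN q M (some p)) = Yp A PL p := by
  rw [pV_gl h]
  have h1 : Zp G d z A PL X p = ∅ := by
    rw [eq_empty_iff_forall_notMem]
    intro v hv
    rcases Zp_ty h p v hv with h1 | h1 <;> rw [hp] at h1 <;> cases h1
  rw [h1, union_empty]

theorem dis_YZ (p p' : Fin q × Fin M) : Disjoint (Yp A PL p) (Zp G d z A PL X p') := by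
  rw [disjoint_left]
  intro v h1 h2
  exact ((mem_Zp p' v).1 h2).1 p h1

/-- type K: only absorbed vertices join -/
theorem Zp_K (h : Glu C g z x e ρ ζ θ G d A PL X) (p : Fin q × Fin M)
    (hp : (PL p.1).ty p.2 = Ty.K) (v : V) (hv : v ∈ Zp G d z A PL X p) : Ab G d z A PL v p := by
  rcases ((mem_Zp p v).1 hv).2 with h1 | ⟨β, h1⟩
  · exact h1
  · have h2 := ((mem_Rg _ _ v).1 (h.XR p β h1)).2.1
    rw [hp] at h2
    cases h2

/-- type B: the joined vertices -/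
theorem Zp_B (h : Glu C g z x e ρ ζ θ G d A PL X) (p : Fin q × Fin M)
    (hp : (PL p.1).ty p.2 = Ty.B) : Zp G d z A PL X p = X p false ∪ X p true := by
  ext v
  rw [mem_Zp, mem_union]
  constructor
  · rintro ⟨_, h1 | ⟨β, h1⟩⟩
    · have h2 := h1.1
      rw [hp] at h2
      cases h2
    · cases β
      · exact Or.inl h1
      · exact Or.inr h1
  · rintro (h1 | h1)
    · exact ⟨fun p' => X_Yp h p p' _ v h1, Or.inr ⟨_, h1⟩⟩
    · exact ⟨fun p' => X_Yp h p p' _ v h1, Or.inr ⟨_, h1⟩⟩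

/-- few vertices are absorbed -/
theorem card_ZpK (h : Glu C g z x e ρ ζ θ G d A PL X) (p : Fin q × Fin M)
    (hp : (PL p.1).ty p.2 = Ty.K) : ((Zp G d z A PL X p).card : ℝ) ≤ 2 * θ p.1 * d := by
  have h1 : ∀ v ∈ Zp G d z A PL X p, (d : ℝ) / 2 ≤ ((nb G v ∩ Yp A PL p).card : ℝ) := by
    intro v hv
    have h2 := in_Ab h p v (Zp_K h p hp v hv)
    have := d_pos h
    have := h.z8
    have := h.ζ8 p.1
    nlinarith
  have h2 : ((Zp G d z A PL X p).card : ℝ) * (d / 2) ≤ θ p.1 * (d : ℝ) ^ 2 := by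
    calc ((Zp G d z A PL X p).card : ℝ) * (d / 2) = ∑ _v ∈ Zp G d z A PL X p, (d : ℝ) / 2 := by
          rw [sum_const, nsmul_eq_mul]
      _ ≤ ∑ v ∈ Zp G d z A PL X p, ((nb G v ∩ Yp A PL p).card : ℝ) := sum_le_sum h1
      _ = ∑ w ∈ Yp A PL p, ((nb G w ∩ Zp G d z A PL X p).card : ℝ) := sum_comm_nb G _ _
      _ ≤ ∑ w ∈ Yp A PL p, ((nb G w \ Yp A PL p).card : ℝ) := by
          refine sum_le_sum fun w _ => ?_
          exact_mod_cast card_le_card fun y hy => by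
            rw [mem_inter] at hy
            exact mem_sdiff.2 ⟨hy.1, fun h3 => disjoint_left.1 (dis_YZ p p) h3 hy.2⟩
      _ ≤ _ := sum_out h p
  have h3 := d_pos h
  have h4 : ((Zp G d z A PL X p).card : ℝ) * (d / 2) ≤ 2 * θ p.1 * d * (d / 2) := by
    refine h2.trans (le_of_eq ?_)
    ring
  exact le_of_mul_le_mul_right h4 (by positivity)

/-- every vertex outside a piece of type K misses many of its vertices -/
theorem miss_K (h : Glu C g z x e ρ ζ θ G d A PL X) (p : Fin q × Fin M)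
    (hp : (PL p.1).ty p.2 = Ty.K) (w : V) (hw : w ∉ Yp A PL p ∪ Zp G d z A PL X p) :
    z * d ≤ ((Yp A PL p \ nb G w).card : ℝ) := by
  by_contra hcon
  rw [not_le] at hcon
  have hab : Ab G d z A PL w p := ⟨hp, hcon⟩
  apply hw
  rw [mem_union, mem_Zp]
  by_cases h1 : ∃ p', w ∈ Yp A PL p'
  · obtain ⟨p', h1⟩ := h1
    left
    rw [Ab_Yp h p p' w hab h1]
    exact h1
  · exact Or.inr ⟨fun p' h2 => h1 ⟨p', h2⟩, Or.inl hab⟩

/-- a vertex of a piece of type K is adjacent to almost all vertices of the piece -/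
theorem in_K (h : Glu C g z x e ρ ζ θ G d A PL X) (hz0 : 0 ≤ z) (p : Fin q × Fin M)
    (hp : (PL p.1).ty p.2 = Ty.K) (v : V) (hv : v ∈ Yp A PL p ∪ Zp G d z A PL X p) :
    (1 - ζ p.1 - z) * d ≤ ((nb G v ∩ (Yp A PL p ∪ Zp G d z A PL X p)).card : ℝ) := by
  have h1 : (nb G v ∩ Yp A PL p).card ≤ (nb G v ∩ (Yp A PL p ∪ Zp G d z A PL X p)).card :=
    card_le_card (inter_subset_inter_left subset_union_left)
  have h2 : ((nb G v ∩ Yp A PL p).card : ℝ) ≤
      ((nb G v ∩ (Yp A PL p ∪ Zp G d z A PL X p)).card : ℝ) := by exact_mod_cast h1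
  have hd := d_pos h
  rcases mem_union.1 hv with h3 | h3
  · have h4 := in_Yp h p v h3
    nlinarith
  · have h4 := in_Ab h p v (Zp_K h p hp v h3)
    linarith

/-- sum of the missing degrees in a piece of type K -/
theorem sum_K (h : Glu C g z x e ρ ζ θ G d A PL X) (hz0 : 0 ≤ z) (p : Fin q × Fin M)
    (hp : (PL p.1).ty p.2 = Ty.K) : ∑ v ∈ Yp A PL p ∪ Zp G d z A PL X p,
      ((d : ℝ) - (nb G v ∩ (Yp A PL p ∪ Zp G d z A PL X p)).card) ≤
        2 * θ p.1 * (d : ℝ) ^ 2 := by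
  have hd := d_pos h
  rw [sum_union (dis_YZ p p)]
  have hdeg : ∀ v (S : Finset V), (d : ℝ) - (nb G v ∩ S).card = ((nb G v \ S).card : ℝ) := by
    intro v S
    have h2 := card_io G v S d (h.reg v)
    linarith
  have h1 : ∑ v ∈ Yp A PL p, ((d : ℝ) - (nb G v ∩ (Yp A PL p ∪ Zp G d z A PL X p)).card) ≤
      θ p.1 * (d : ℝ) ^ 2 := by
    refine le_trans (sum_le_sum fun v _ => ?_) (sum_out h p)
    rw [hdeg]
    exact_mod_cast card_le_card (sdiff_subset_sdiff (Subset.refl _) subset_union_left)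
  have h2 : ∑ v ∈ Zp G d z A PL X p,
      ((d : ℝ) - (nb G v ∩ (Yp A PL p ∪ Zp G d z A PL X p)).card) ≤
        (2 * θ p.1 * d) * (d / 4) := by
    have h3 : ∀ v ∈ Zp G d z A PL X p,
        (d : ℝ) - (nb G v ∩ (Yp A PL p ∪ Zp G d z A PL X p)).card ≤ d / 4 := by
      intro v hv
      have h4 := in_K h hz0 p hp v (mem_union_right _ hv)
      have := h.z8
      have := h.ζ8 p.1
      nlinarith
    refine (sum_le_sum h3).trans ?_
    rw [sum_const, nsmul_eq_mul]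
    exact mul_le_mul_of_nonneg_right (card_ZpK h p hp) (by positivity)
  have hθ : 0 ≤ θ p.1 * (d : ℝ) ^ 2 := (sum_nonneg fun _ _ => Nat.cast_nonneg _).trans (sum_out h p)
  nlinarith

/-- no piece of type `E` -/
theorem gl_emp (h : Glu C g z x e ρ ζ θ G d A PL X) (n : Fin (q * M + 1))
    (hn : (gl G d z ζ A PL X).ty n = Ty.E) : IsEmpty (Ts (gl G d z ζ A PL X) n) := by
  refine ⟨fun w => ?_⟩
  obtain ⟨p, h1, h2⟩ := (gl_mem w.1 n).1 w.2
  have hd := d_pos h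
  rcases (ix_iff h w.1 p).1 h2 with h3 | h3
  · have h4 : (Yp A PL p).Nonempty := ⟨_, h3⟩
    rw [h1, gl_ty p h4] at hn
    obtain ⟨a1, a2, a3⟩ := (mem_Yp A PL p w.1).1 h3
    exact ((h.dq p.1).emp p.2 hn).false ⟨⟨w.1, a1⟩, a2, a3⟩
  · rcases ((mem_Zp p _).1 h3).2 with h4 | ⟨β, h4⟩
    · have h5 := (card_K h p h4.1).1
      have h6 : (Yp A PL p).Nonempty := by
        rw [← card_pos]
        have : (0 : ℝ) < ((Yp A PL p).card : ℝ) := by
          have := h.ζ8 p.1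
          nlinarith
        exact_mod_cast this
      rw [h1, gl_ty p h6, h4.1] at hn
      cases hn
    · obtain ⟨_, h5, h6, _⟩ := (mem_Rg _ _ _).1 (h.XR p β h4)
      rw [h1, gl_ty p h6, h5] at hn
      cases hn

/-- thin degrees of the pieces of type N -/
theorem thd_N (h : Glu C g z x e ρ ζ θ G d A PL X) (p : Fin q × Fin M)
    (hN : (PL p.1).ty p.2 = Ty.N) (v : V) (hv : v ∈ Yp A PL p) :
    ((nb (thin G (gl G d z ζ A PL X)) v).card : ℝ) ≤ ζ p.1 * d := by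
  obtain ⟨a1, a2, a3⟩ := (mem_Yp A PL p v).1 hv
  have h1 := (gl_tr h p ⟨v, hv⟩ hN).thin ⟨v, a1⟩ ⟨a2, a3⟩ (lex G (A p.1) ⟨v, a1⟩) d
    ((h.dq p.1).reg ⟨v, a1⟩) (h.reg v)
  have h2 := (h.dq p.1).thd ⟨v, a1⟩ a2
  have h3 : ((nb (thin G (gl G d z ζ A PL X)) v).card : ℝ) =
      ((nb (thin (lG G (A p.1)) (PL p.1)) ⟨v, a1⟩).card : ℝ) + lex G (A p.1) ⟨v, a1⟩ := by
    exact_mod_cast h1
  rw [h3]
  exact h2

theorem ths_N (h : Glu C g z x e ρ ζ θ G d A PL X) (p : Fin q × Fin M)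
    (hN : (PL p.1).ty p.2 = Ty.N) :
    ∑ v ∈ Yp A PL p, ((nb (thin G (gl G d z ζ A PL X)) v).card : ℝ) ≤ θ p.1 * (d : ℝ) ^ 2 := by
  have h1 : ∑ v ∈ Yp A PL p, ((nb (thin G (gl G d z ζ A PL X)) v).card : ℝ) =
      ∑ v ∈ pV (PL p.1) p.2, ((nb (thin G (gl G d z ζ A PL X)) v.1).card : ℝ) := by
    conv_lhs => rw [Yp, sum_map]
    rfl
  rw [h1]
  refine le_trans (sum_le_sum fun v hv => ?_)
    (sum_pV (PL p.1) p.2 _ (fun v => by positivity) _ (h.dq p.1).ths)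
  have hv2 := (mem_pV _ _ v).1 hv
  have hv' : v.1 ∈ Yp A PL p := (mem_Yp A PL p v.1).2 ⟨v.2, hv2⟩
  have h3 := (gl_tr h p ⟨v.1, hv'⟩ hN).thin v hv2 (lex G (A p.1) v) d ((h.dq p.1).reg v)
    (h.reg v.1)
  exact_mod_cast h3.le

/-- the side of a joined vertex -/
theorem sd_X (h : Glu C g z x e ρ ζ θ G d A PL X) (p : Fin q × Fin M) (β : Bool) (v : V)
    (hv : v ∈ X p β) : (gl G d z ζ A PL X).sd v = β := by
  have h2 : ¬ ∃ p', v ∈ Yp A PL p' := by
    rintro ⟨p', h3⟩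
    exact X_Yp h p p' β v hv h3
  change (if ∃ p, v ∈ Yp A PL p then pick A (fun i w => (PL i).sd w) false v
    else ((jn G d z A PL X v).map Prod.snd).getD false) = _
  rw [if_neg h2, jn_X h p β v hv]
  rfl

/-- the sides of a piece of type B -/
theorem sV_gl (h : Glu C g z x e ρ ζ θ G d A PL X) (p : Fin q × Fin M)
    (hp : (PL p.1).ty p.2 = Ty.B) (β : Bool) :
    sV (gl G d z ζ A PL X) (eN q M (some p)) β = Sp A PL p β ∪ X p β := by
  ext v
  rw [sV, mem_filter, mem_union]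
  constructor
  · rintro ⟨_, h1, h2, h3⟩
    have h4 := (ix_iff h v p).1 ((gl_mem' v p).1 ⟨h1, h2⟩)
    rcases h4 with h4 | h4
    · left
      obtain ⟨a1, a2, a3⟩ := (mem_Yp A PL p v).1 h4
      refine (mem_Sp A PL p β v).2 ⟨a1, a2, a3, ?_⟩
      rw [← gl_sd h p ⟨v, a1⟩ ⟨a2, a3⟩]
      exact h3
    · right
      rw [Zp_B h p hp, mem_union] at h4
      rcases h4 with h4 | h4
      · rw [sd_X h p _ v h4] at h3
        rw [← h3]
        exact h4
      · rw [sd_X h p _ v h4] at h3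
        rw [← h3]
        exact h4
  · rintro (h1 | h1)
    · obtain ⟨a1, a2, a3, a4⟩ := (mem_Sp A PL p β v).1 h1
      have h2 := (gl_mem' (G := G) (d := d) (z := z) (ζ := ζ) (X := X) v p).2
        ((ix_iff h v p).2 (Or.inl (Sp_sub p β h1)))
      refine ⟨mem_univ _, h2.1, h2.2, ?_⟩
      rw [gl_sd h p ⟨v, a1⟩ ⟨a2, a3⟩]
      exact a4
    · have h2 := (gl_mem' (G := G) (d := d) (z := z) (ζ := ζ) (X := X) v p).2
        ((ix_iff h v p).2 (Or.inr ((mem_Zp p v).2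
          ⟨fun p' => X_Yp h p p' β v h1, Or.inr ⟨β, h1⟩⟩)))
      exact ⟨mem_univ _, h2.1, h2.2, sd_X h p β v h1⟩

end fields

end Pool.Agent.Work.MP_db9399_dx
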