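import Pool.Agent.Work.MP_db9399_dx_helper26.Fields

/-!
# MP_db9399, all scales, DECX: pieces of type B, rigid vertices (helper26)
-/

set_option autoImplicit false

namespace Pool.Agent.Work.MP_db9399_dx

open Finset Classical
open Pool.Agent.Work.MP_db9399_all (nb)
open Pool.Agent.Work.MP_db9399_da
open Pool.Agent.Work.MP_db9399_cl.helper26 (DecQ)

universe u v

section gen
variable {W : Type u} [Fintype W] {M : ℕ}

/-- cut in a piece: subsets of the piece as sets of vertices -/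
theorem cut_sets (G : SimpleGraph W) (P : Pcs W M) (m : Fin M) (T : Finset (Ts P m)) :
    ((T.map (Function.Embedding.subtype _) : Finset W) ⊆ pV P m ∧
    (pV P m \ T.map (Function.Embedding.subtype _)).card = (univ \ T).card ∧
    ∑ v ∈ T.map (Function.Embedding.subtype _),
      ((nb (bulk G P) v \ T.map (Function.Embedding.subtype _)).card : ℝ) =
      ∑ v ∈ T, ((nb (bk G P m) v \ T).card : ℝ)) := by
  refine ⟨?_, ?_, ?_⟩
  · intro v hv
    obtain ⟨w, _, rfl⟩ := mem_map.1 hv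
    exact (mem_pV P m _).2 w.2
  · rw [← card_map (f := Function.Embedding.subtype (fun v => v ∉ P.V0 ∧ P.pc v = m))
      (s := univ \ T)]
    congr 1
    ext v
    simp only [mem_sdiff, mem_map, mem_pV, mem_univ, true_and, Function.Embedding.coe_subtype]
    constructor
    · rintro ⟨h1, h2⟩
      exact ⟨⟨v, h1⟩, fun h3 => h2 ⟨_, h3, rfl⟩, rfl⟩
    · rintro ⟨w, h1, rfl⟩
      refine ⟨w.2, ?_⟩
      rintro ⟨w', h2, h3⟩
      rw [Subtype.ext h3] at h2
      exact h1 h2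
  · rw [sum_map]
    refine sum_congr rfl fun v _ => ?_
    rw [← card_map (f := Function.Embedding.subtype (fun v => v ∉ P.V0 ∧ P.pc v = m))
      (s := nb (bk G P m) v \ T)]
    congr 2
    ext w
    simp only [mem_sdiff, mem_map, mem_nb', Function.Embedding.coe_subtype]
    constructor
    · rintro ⟨h1, h2⟩
      have h3 : w ∉ P.V0 ∧ P.pc w = m := by
        refine ⟨h1.2.2.1, ?_⟩
        rw [← h1.2.2.2.1]
        exact v.2.2
      exact ⟨⟨w, h3⟩, ⟨h1, fun h4 => h2 ⟨_, h4, rfl⟩⟩, rfl⟩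
    · rintro ⟨w', ⟨h1, h2⟩, rfl⟩
      refine ⟨h1, ?_⟩
      rintro ⟨w'', h3, h4⟩
      rw [Subtype.ext h4] at h3
      exact h2 h3

/-- cut: from sets of vertices -/
theorem cut_of (G : SimpleGraph W) (P : Pcs W M) (m : Fin M) (ρ : ℝ)
    (h : ∀ S ⊆ pV P m, ρ * S.card * (pV P m \ S).card ≤
      ∑ v ∈ S, ((nb (bulk G P) v \ S).card : ℝ)) (T : Finset (Ts P m)) :
    ρ * T.card * (univ \ T).card ≤ ∑ v ∈ T, ((nb (bk G P m) v \ T).card : ℝ) := by
  obtain ⟨h1, h2, h3⟩ := cut_sets G P m T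
  have h4 := h _ h1
  rw [h2, h3, card_map] at h4
  exact h4

/-- cut: to sets of vertices -/
theorem cut_to (G : SimpleGraph W) (P : Pcs W M) (m : Fin M) (ρ : ℝ)
    (h : ∀ T : Finset (Ts P m), ρ * T.card * (univ \ T).card ≤
      ∑ v ∈ T, ((nb (bk G P m) v \ T).card : ℝ)) (S : Finset W) (hS : S ⊆ pV P m) :
    ρ * S.card * (pV P m \ S).card ≤ ∑ v ∈ S, ((nb (bulk G P) v \ S).card : ℝ) := by
  set T : Finset (Ts P m) := S.subtype (fun v => v ∉ P.V0 ∧ P.pc v = m) with hT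
  have hTS : T.map (Function.Embedding.subtype _) = S := by
    rw [hT, subtype_map]
    exact filter_true_of_mem fun v hv => (mem_pV P m v).1 (hS hv)
  obtain ⟨h1, h2, h3⟩ := cut_sets G P m T
  have h4 := h T
  rw [← h2, ← h3, hTS] at h4
  have h5 : T.card = S.card := by
    rw [← hTS, card_map]
  rw [h5] at h4
  exact h4

/-- the same without sets depending on decidability -/
theorem cut_to' (G : SimpleGraph W) (P : Pcs W M) (m : Fin M) (ρ : ℝ)
    (h : ∀ T : Finset (Ts P m), ρ * T.card * (univ \ T).card ≤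
      ∑ v ∈ T, ((nb (bk G P m) v \ T).card : ℝ)) (S : Finset W) (hS : S ⊆ pV P m) (b : ℕ)
    (hb : b + S.card = (pV P m).card) (F : W → ℝ)
    (hF : ∀ v ∈ S, ∀ T : Finset W, (∀ w, w ∈ T ↔ (bulk G P).Adj v w ∧ w ∉ S) →
      (T.card : ℝ) ≤ F v) : ρ * S.card * b ≤ ∑ v ∈ S, F v := by
  have h1 := cut_to G P m ρ h S hS
  have h2 : (pV P m \ S).card + S.card = (pV P m).card := card_sdiff_add_card_eq_card hS
  have h3 : (pV P m \ S).card = b := by omega
  rw [h3] at h1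
  refine h1.trans (sum_le_sum fun v hv => hF v hv _ fun w => ?_)
  rw [mem_sdiff, mem_nb']

theorem nb_bulk_sub (G : SimpleGraph W) (P : Pcs W M) (m : Fin M) (v : W) (hv : v ∈ pV P m) :
    nb (bulk G P) v ⊆ pV P m := by
  intro w hw
  rw [mem_nb'] at hw
  rw [mem_pV]
  refine ⟨hw.2.2.1, ?_⟩
  rw [← hw.2.2.2.1]
  exact ((mem_pV P m v).1 hv).2

/-- the cut is symmetric -/
theorem cut_symm (G : SimpleGraph W) (P : Pcs W M) (m : Fin M) (S : Finset W)
    (hS : S ⊆ pV P m) : ∑ v ∈ S, ((nb (bulk G P) v \ S).card : ℝ) =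
      ∑ v ∈ pV P m \ S, ((nb (bulk G P) v \ (pV P m \ S)).card : ℝ) := by
  have h1 : ∀ v ∈ S, nb (bulk G P) v \ S = nb (bulk G P) v ∩ (pV P m \ S) := by
    intro v hv
    ext w
    rw [mem_sdiff, mem_inter, mem_sdiff]
    constructor
    · rintro ⟨h2, h3⟩
      exact ⟨h2, nb_bulk_sub G P m v (hS hv) h2, h3⟩
    · rintro ⟨h2, _, h3⟩
      exact ⟨h2, h3⟩
  have h2 : ∀ v ∈ pV P m \ S, nb (bulk G P) v \ (pV P m \ S) = nb (bulk G P) v ∩ S := by
    intro v hv
    ext w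
    rw [mem_sdiff, mem_inter, mem_sdiff]
    constructor
    · rintro ⟨h3, h4⟩
      refine ⟨h3, ?_⟩
      by_contra h5
      exact h4 ⟨nb_bulk_sub G P m v (mem_sdiff.1 hv).1 h3, h5⟩
    · rintro ⟨h3, h4⟩
      exact ⟨h3, fun h5 => h5.2 h4⟩
  have e1 : ∑ v ∈ S, ((nb (bulk G P) v \ S).card : ℝ) =
      ∑ v ∈ S, ((nb (bulk G P) v ∩ (pV P m \ S)).card : ℝ) :=
    sum_congr rfl fun v hv => by rw [h1 v hv]
  have e2 : ∑ v ∈ pV P m \ S, ((nb (bulk G P) v \ (pV P m \ S)).card : ℝ) =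
      ∑ v ∈ pV P m \ S, ((nb (bulk G P) v ∩ S).card : ℝ) :=
    sum_congr rfl fun v hv => by rw [h2 v hv]
  rw [e1, e2]
  exact sum_comm_nb _ _ _

end gen

section fields
variable {V : Type u} [Fintype V] {q M : ℕ} {C g z x e : ℝ} {ρ ζ θ : Fin q → ℝ}
  {G : SimpleGraph V} {d : ℕ} {A : Fin q → Finset V} {PL : ∀ i, Pcs {v // v ∈ A i} M}
  {X : Fin q × Fin M → Bool → Finset V}

/-- thin degree in a piece of type B -/
theorem thin_B (h : Glu C g z x e ρ ζ θ G d A PL X) (p : Fin q × Fin M)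
    (hp : (PL p.1).ty p.2 = Ty.B) (β : Bool) (v : V)
    (hv : v ∈ Sp A PL p β ∪ X p β) :
    ((nb (thin G (gl G d z ζ A PL X)) v).card : ℝ) ≤ ((nb G v \ Sp A PL p (!β)).card : ℝ) ∧
      nb G v ∩ Sp A PL p (!β) ⊆ nb (bulk G (gl G d z ζ A PL X)) v := by
  have h1 : nb G v ∩ Sp A PL p (!β) ⊆ nb (bulk G (gl G d z ζ A PL X)) v := by
    intro w hw
    rw [mem_inter, mem_nb'] at hw
    have hv' : v ∈ sV (gl G d z ζ A PL X) (eN q M (some p)) β := by
      rw [sV_gl h p hp]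
      exact hv
    have hw' : w ∈ sV (gl G d z ζ A PL X) (eN q M (some p)) (!β) := by
      rw [sV_gl h p hp]
      exact mem_union_left _ hw.2
    rw [sV, mem_filter] at hv' hw'
    rw [mem_nb']
    refine ⟨hw.1, hv'.2.1, hw'.2.1, hv'.2.2.1.trans hw'.2.2.1.symm, fun _ => ?_⟩
    rw [hv'.2.2.2, hw'.2.2.2]
    cases β <;> simp
  refine ⟨?_, h1⟩
  have h2 := thin_bulk G (gl G d z ζ A PL X) v
  have h3 := card_inter_add_card_sdiff (nb G v) (Sp A PL p (!β))
  have h4 := card_le_card h1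
  exact_mod_cast (by omega : (nb (thin G (gl G d z ζ A PL X)) v).card ≤
    (nb G v \ Sp A PL p (!β)).card)

/-- neighbours outside the opposite side -/
theorem out_B (h : Glu C g z x e ρ ζ θ G d A PL X) (p : Fin q × Fin M)
    (hp : (PL p.1).ty p.2 = Ty.B) (β : Bool) (v : V) (hv : v ∈ Sp A PL p β ∪ X p β) :
    ((nb G v \ Sp A PL p (!β)).card : ℝ) ≤ 5 / 4 * ζ p.1 * d := by
  have hd := d_pos h
  have hz := h.ζ0 p.1
  rcases mem_union.1 hv with h1 | h1
  · have h2 := in_Sp h p hp β v h1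
    have h3 := card_io G v (Sp A PL p (!β)) d (h.reg v)
    nlinarith
  · exact out_Rg h p _ v (h.XR p β h1)

theorem thd_B (h : Glu C g z x e ρ ζ θ G d A PL X) (p : Fin q × Fin M)
    (hp : (PL p.1).ty p.2 = Ty.B) (β : Bool) (v : V)
    (hv : v ∈ Sp A PL p β ∪ X p β) :
    ((nb (thin G (gl G d z ζ A PL X)) v).card : ℝ) ≤ 5 / 4 * ζ p.1 * d :=
  (thin_B h p hp β v hv).1.trans (out_B h p hp β v hv)

theorem pV_B (h : Glu C g z x e ρ ζ θ G d A PL X) (p : Fin q × Fin M)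
    (hp : (PL p.1).ty p.2 = Ty.B) (v : V)
    (hv : v ∈ pV (gl G d z ζ A PL X) (eN q M (some p))) : ∃ β, v ∈ Sp A PL p β ∪ X p β := by
  rw [pV_gl h, Zp_B h p hp, Yp_Sp] at hv
  simp only [mem_union] at hv
  rcases hv with (h1 | h1) | (h1 | h1)
  · exact ⟨false, mem_union_left _ h1⟩
  · exact ⟨true, mem_union_left _ h1⟩
  · exact ⟨false, mem_union_right _ h1⟩
  · exact ⟨true, mem_union_right _ h1⟩

/-- the sum of the thin degrees in a piece of type B -/
theorem ths_B (h : Glu C g z x e ρ ζ θ G d A PL X) (p : Fin q × Fin M)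
    (hp : (PL p.1).ty p.2 = Ty.B) :
    ∑ v ∈ pV (gl G d z ζ A PL X) (eN q M (some p)),
      ((nb (thin G (gl G d z ζ A PL X)) v).card : ℝ) ≤ (θ p.1 + e) * (d : ℝ) ^ 2 := by
  have hd := d_pos h
  rw [pV_gl h, sum_union (dis_YZ p p)]
  have h1 : ∑ v ∈ Yp A PL p, ((nb (thin G (gl G d z ζ A PL X)) v).card : ℝ) ≤
      θ p.1 * (d : ℝ) ^ 2 := by
    have h1 : ∑ v ∈ Yp A PL p, ((nb (thin G (gl G d z ζ A PL X)) v).card : ℝ) =
        ∑ v ∈ pV (PL p.1) p.2, ((nb (thin G (gl G d z ζ A PL X)) v.1).card : ℝ) := by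
      conv_lhs => rw [Yp, sum_map]
      rfl
    rw [h1]
    refine le_trans (sum_le_sum fun v hv => ?_)
      (sum_pV (PL p.1) p.2 _ (fun v => by positivity) _ (h.dq p.1).ths)
    have hv2 := (mem_pV _ _ v).1 hv
    have hv' : v.1 ∈ Sp A PL p ((PL p.1).sd v) := (mem_Sp A PL p _ v.1).2 ⟨v.2, hv2.1, hv2.2, rfl⟩
    exact (thin_B h p hp _ v.1 (mem_union_left _ hv')).1.trans
      (out_Sp h p hp _ v hv2.2 rfl)
  have h2 : ∑ v ∈ Zp G d z A PL X p, ((nb (thin G (gl G d z ζ A PL X)) v).card : ℝ) ≤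
      (2 * e * d) * (d / 4) := by
    have h3 : ∀ v ∈ Zp G d z A PL X p,
        ((nb (thin G (gl G d z ζ A PL X)) v).card : ℝ) ≤ d / 4 := by
      intro v hv
      obtain ⟨β, hβ⟩ := pV_B h p hp v (by
        rw [pV_gl h]
        exact mem_union_right _ hv)
      have h4 := thd_B h p hp β v hβ
      have := h.ζ8 p.1
      nlinarith
    refine (sum_le_sum h3).trans ?_
    rw [sum_const, nsmul_eq_mul]
    refine mul_le_mul_of_nonneg_right ?_ (by positivity)
    rw [Zp_B h p hp]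
    have h4 : ((X p false ∪ X p true).card : ℝ) ≤ (X p false).card + (X p true).card := by
      exact_mod_cast card_union_le _ _
    have h5 := h.Xc p false
    have h6 := h.Xc p true
    linarith
  have h3 : 0 ≤ e * (d : ℝ) ^ 2 := by
    have h4 := h.Xc p false
    have h5 : 0 ≤ e * d := (Nat.cast_nonneg _).trans h4
    nlinarith
  nlinarith

theorem bulk_up (h : Glu C g z x e ρ ζ θ G d A PL X) (p : Fin q × Fin M) (v w : {v // v ∈ A p.1})
    (hv : v ∉ (PL p.1).V0 ∧ (PL p.1).pc v = p.2)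
    (hvw : (bulk (lG G (A p.1)) (PL p.1)).Adj v w) :
    (bulk G (gl G d z ζ A PL X)).Adj v.1 w.1 := by
  obtain ⟨h1, _, h3, h4, h5⟩ := hvw
  have hw : w ∉ (PL p.1).V0 ∧ (PL p.1).pc w = p.2 := ⟨h3, h4.symm.trans hv.2⟩
  have hv' := (gl_mem' (G := G) (d := d) (z := z) (ζ := ζ) (X := X) v.1 p).2
    ((ix_iff h v.1 p).2 (Or.inl ((mem_Yp A PL p v.1).2 ⟨v.2, hv⟩)))
  have hw' := (gl_mem' (G := G) (d := d) (z := z) (ζ := ζ) (X := X) w.1 p).2
    ((ix_iff h w.1 p).2 (Or.inl ((mem_Yp A PL p w.1).2 ⟨w.2, hw⟩)))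
  refine ⟨h1, hv'.1, hw'.1, hv'.2.trans hw'.2.symm, fun h6 => ?_⟩
  rw [gl_sd h p v hv, gl_sd h p w hw]
  apply h5
  rw [hv'.2, gl_ty p ⟨v.1, (mem_Yp A PL p v.1).2 ⟨v.2, hv⟩⟩] at h6
  rw [hv.2]
  exact h6

/-- cuts of the old part of a piece -/
theorem cut_Y (h : Glu C g z x e ρ ζ θ G d A PL X) (p : Fin q × Fin M)
    (hp : (PL p.1).ty p.2 = Ty.N ∨ (PL p.1).ty p.2 = Ty.B) (S : Finset V)
    (hS : S ⊆ Yp A PL p) : ρ p.1 * S.card * (Yp A PL p \ S).card ≤
      ∑ v ∈ S, ((nb (bulk G (gl G d z ζ A PL X)) v ∩ (Yp A PL p \ S)).card : ℝ) := by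
  set S' : Finset {v // v ∈ A p.1} := S.subtype (fun v => v ∈ A p.1) with hS'
  have hSS : S'.map (Function.Embedding.subtype _) = S := by
    rw [hS', subtype_map]
    exact filter_true_of_mem fun v hv => Yp_sub p (hS hv)
  have hsub : S' ⊆ pV (PL p.1) p.2 := by
    intro v hv
    rw [hS', mem_subtype] at hv
    obtain ⟨_, a2⟩ := (mem_Yp A PL p v.1).1 (hS hv)
    exact (mem_pV _ _ v).2 a2
  have h2 : S'.card = S.card := by rw [← hSS, card_map]
  have h3 : (Yp A PL p \ S).card + S'.card = (pV (PL p.1) p.2).card := by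
    have h5 : (Yp A PL p \ S).card + S.card = (Yp A PL p).card :=
      card_sdiff_add_card_eq_card hS
    have h6 : (Yp A PL p).card = (pV (PL p.1) p.2).card := by rw [Yp, card_map]
    omega
  have h1 := cut_to' (lG G (A p.1)) (PL p.1) p.2 (ρ p.1) ((h.dq p.1).cut p.2 hp) S' hsub _ h3
    (fun v => ((nb (bulk G (gl G d z ζ A PL X)) v.1 ∩ (Yp A PL p \ S)).card : ℝ)) (by
      intro v hv T hT
      rw [← card_map (f := Function.Embedding.subtype (fun v => v ∈ A p.1)) (s := T)]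
      refine Nat.cast_le.2 (card_le_card ?_)
      intro w hw
      obtain ⟨w', hw', rfl⟩ := mem_map.1 hw
      rw [hT] at hw'
      have hv2 := (mem_pV _ _ v).1 (hsub hv)
      rw [mem_inter, mem_nb', mem_sdiff, mem_Yp]
      refine ⟨bulk_up h p v w' hv2 hw'.1, ⟨w'.2, hw'.1.2.2.1, ?_⟩, fun h5 => hw'.2 ?_⟩
      · have h6 : (PL p.1).pc v = (PL p.1).pc w' := hw'.1.2.2.2.1
        exact h6.symm.trans hv2.2
      · rw [hS', mem_subtype]
        exact h5)
  rw [h2] at h1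
  refine h1.trans (le_of_eq ?_)
  conv_rhs => rw [← hSS, sum_map]
  rw [hSS]
  rfl

/-- **Cuts of a piece of type B.** -/
theorem cut_B (h : Glu C g z x e ρ ζ θ G d A PL X) (p : Fin q × Fin M)
    (hp : (PL p.1).ty p.2 = Ty.B) (ρ1 : ℝ) (hρ0 : 0 ≤ ρ1)
    (hρ1 : 4 * ρ1 ≤ ρ p.1) (hρ2 : 4 * ρ1 * (C + 1) ≤ 1) (he : 4 * e ≤ 1 / 8) (S : Finset V)
    (hS : S ⊆ pV (gl G d z ζ A PL X) (eN q M (some p))) :
    ρ1 * S.card * (pV (gl G d z ζ A PL X) (eN q M (some p)) \ S).card ≤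
      ∑ v ∈ S, ((nb (bulk G (gl G d z ζ A PL X)) v \ S).card : ℝ) := by
  have hd := d_pos h
  set P := gl G d z ζ A PL X with hP
  set n := eN q M (some p) with hnn
  have hpV : pV P n = Yp A PL p ∪ Zp G d z A PL X p := pV_gl h p
  have hZ : ((Zp G d z A PL X p).card : ℝ) ≤ 2 * e * d := by
    rw [Zp_B h p hp]
    have h4 : ((X p false ∪ X p true).card : ℝ) ≤ (X p false).card + (X p true).card := by
      exact_mod_cast card_union_le _ _
    have h5 := h.Xc p false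
    have h6 := h.Xc p true
    linarith
  have hY : ((Yp A PL p).card : ℝ) ≤ C * d := by
    refine le_trans ?_ (h.dq p.1).siz
    rw [Yp, card_map]
    exact_mod_cast card_le_univ _
  have htot : ((pV P n).card : ℝ) ≤ (C + 1) * d := by
    rw [hpV, card_union_of_disjoint (dis_YZ p p)]
    push_cast
    nlinarith
  -- a set with more new than old vertices
  have key : ∀ S ⊆ pV P n, (S ∩ Yp A PL p).card < (S ∩ Zp G d z A PL X p).card →
      ρ1 * S.card * (pV P n \ S).card ≤ ∑ v ∈ S, ((nb (bulk G P) v \ S).card : ℝ) := by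
    intro S hS hlt
    have h1 : (S ∩ Yp A PL p).card + (S ∩ Zp G d z A PL X p).card = S.card := by
      rw [← card_union_of_disjoint ((dis_YZ p p).mono inter_subset_right inter_subset_right),
        ← inter_union_distrib_left, ← hpV, inter_eq_left.2 hS]
    have h2 : ((S ∩ Zp G d z A PL X p).card : ℝ) ≤ 2 * e * d :=
      le_trans (by exact_mod_cast card_le_card inter_subset_right) hZ
    have h3 : (S.card : ℝ) ≤ 2 * (S ∩ Zp G d z A PL X p).card := by
      exact_mod_cast (by omega : S.card ≤ 2 * (S ∩ Zp G d z A PL X p).card)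
    have h4 : ∀ v ∈ S ∩ Zp G d z A PL X p, (d : ℝ) / 2 ≤ ((nb (bulk G P) v \ S).card : ℝ) := by
      intro v hv
      obtain ⟨hv1, hv2⟩ := mem_inter.1 hv
      obtain ⟨β, hβ⟩ := pV_B h p hp v (by
        rw [pV_gl h]
        exact mem_union_right _ hv2)
      have h5 := (thin_B h p hp β v hβ).2
      have h6 := out_B h p hp β v hβ
      have h7 := card_io G v (Sp A PL p (!β)) d (h.reg v)
      have h8 : ((nb G v ∩ Sp A PL p (!β)).card : ℝ) ≤ ((nb (bulk G P) v).card : ℝ) := by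
        exact_mod_cast card_le_card h5
      have h9 : ((nb (bulk G P) v).card : ℝ) ≤ ((nb (bulk G P) v \ S).card : ℝ) + S.card := by
        have h10 := card_inter_add_card_sdiff (nb (bulk G P) v) S
        have h11 : (nb (bulk G P) v ∩ S).card ≤ S.card := card_le_card inter_subset_right
        exact_mod_cast (by omega : (nb (bulk G P) v).card ≤ (nb (bulk G P) v \ S).card + S.card)
      have := h.ζ8 p.1
      nlinarith
    calc ρ1 * S.card * (pV P n \ S).card
        ≤ ρ1 * S.card * ((C + 1) * d) := by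
          refine mul_le_mul_of_nonneg_left ?_ (by positivity)
          refine le_trans ?_ htot
          exact_mod_cast card_le_card sdiff_subset
      _ = (4 * ρ1 * (C + 1)) * (S.card * (d / 4)) := by ring
      _ ≤ 1 * (S.card * (d / 4)) := mul_le_mul_of_nonneg_right hρ2 (by positivity)
      _ ≤ (S ∩ Zp G d z A PL X p).card * (d / 2) := by nlinarith
      _ = ∑ _v ∈ S ∩ Zp G d z A PL X p, (d : ℝ) / 2 := by rw [sum_const, nsmul_eq_mul]
      _ ≤ ∑ v ∈ S ∩ Zp G d z A PL X p, ((nb (bulk G P) v \ S).card : ℝ) := sum_le_sum h4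
      _ ≤ _ := sum_le_sum_of_subset_of_nonneg inter_subset_left fun _ _ _ => Nat.cast_nonneg _
  by_cases hc1 : (S ∩ Yp A PL p).card < (S ∩ Zp G d z A PL X p).card
  · exact key S hS hc1
  by_cases hc2 : ((pV P n \ S) ∩ Yp A PL p).card < ((pV P n \ S) ∩ Zp G d z A PL X p).card
  · have h1 := key _ sdiff_subset hc2
    rw [Finset.sdiff_sdiff_eq_self hS] at h1
    rw [cut_symm G P n S hS]
    linarith
  rw [not_lt] at hc1 hc2
  have h1 : (S ∩ Yp A PL p).card + (S ∩ Zp G d z A PL X p).card = S.card := by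
    rw [← card_union_of_disjoint ((dis_YZ p p).mono inter_subset_right inter_subset_right),
      ← inter_union_distrib_left, ← hpV, inter_eq_left.2 hS]
  have h2 : ((pV P n \ S) ∩ Yp A PL p).card + ((pV P n \ S) ∩ Zp G d z A PL X p).card =
      (pV P n \ S).card := by
    rw [← card_union_of_disjoint ((dis_YZ p p).mono inter_subset_right inter_subset_right),
      ← inter_union_distrib_left, ← hpV, inter_eq_left.2 sdiff_subset]
  have h3 : (S.card : ℝ) ≤ 2 * (S ∩ Yp A PL p).card := by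
    exact_mod_cast (by omega : S.card ≤ 2 * (S ∩ Yp A PL p).card)
  have h4 : ((pV P n \ S).card : ℝ) ≤ 2 * ((pV P n \ S) ∩ Yp A PL p).card := by
    exact_mod_cast (by omega : (pV P n \ S).card ≤ 2 * ((pV P n \ S) ∩ Yp A PL p).card)
  have h5 := cut_Y h p (Or.inr hp) (S ∩ Yp A PL p) inter_subset_right
  have h6 : (pV P n \ S) ∩ Yp A PL p = Yp A PL p \ (S ∩ Yp A PL p) := by
    ext v
    simp only [hpV, mem_inter, mem_sdiff, mem_union]
    tauto
  calc ρ1 * S.card * (pV P n \ S).card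
      ≤ ρ1 * (2 * (S ∩ Yp A PL p).card) * (2 * ((pV P n \ S) ∩ Yp A PL p).card) := by
        refine mul_le_mul (mul_le_mul_of_nonneg_left h3 hρ0) h4 (by positivity) (by positivity)
    _ = 4 * ρ1 * ((S ∩ Yp A PL p).card * ((pV P n \ S) ∩ Yp A PL p).card) := by ring
    _ ≤ ρ p.1 * ((S ∩ Yp A PL p).card * ((pV P n \ S) ∩ Yp A PL p).card) :=
        mul_le_mul_of_nonneg_right hρ1 (by positivity)
    _ = ρ p.1 * (S ∩ Yp A PL p).card * (Yp A PL p \ (S ∩ Yp A PL p)).card := by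
        rw [h6]
        ring
    _ ≤ _ := h5
    _ ≤ ∑ v ∈ S ∩ Yp A PL p, ((nb (bulk G P) v \ S).card : ℝ) := by
        refine sum_le_sum fun v _ => Nat.cast_le.2 (card_le_card ?_)
        intro w hw
        simp only [mem_inter, mem_sdiff] at hw ⊢
        exact ⟨hw.1, fun h7 => hw.2.2 ⟨h7, hw.2.1⟩⟩
    _ ≤ _ := sum_le_sum_of_subset_of_nonneg inter_subset_left fun _ _ _ => Nat.cast_nonneg _

end fields

end Pool.Agent.Work.MP_db9399_dx
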