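import Pool.Agent.Work.MP_db9399_dx_helper26.Flip

/-!
# MP_db9399, all scales, DECX: the structure `PcD` (helper26)
-/

set_option autoImplicit false

namespace Pool.Agent.Work.MP_db9399_dx

open Finset Classical
open Pool.Agent.Work.MP_db9399_all (nb)
open Pool.Agent.Work.MP_db9399_da
open Pool.Agent.Work.MP_db9399_cl.helper26 (DecQ)
open Pool.Agent.Work.MP_db9399_xf

universe u v

section fin
variable {V : Type u} [Fintype V] {q M J : ℕ} {C g z x e : ℝ} {ρ ζ θ : Fin q → ℝ}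
  {G : SimpleGraph V} {d : ℕ} {A : Fin q → Finset V} {PL : ∀ i, Pcs {v // v ∈ A i} M}
  {X : Fin q × Fin M → Bool → Finset V} {Hh : Fin q → Finset V} {Fb : Fin q × Fin M → Bool}
  {s0 : Fin J} {s : Fin q → Fin J}

theorem e_nonneg (h : Fnl C g z x e ρ ζ θ G d A PL X Hh Fb) (p : Fin q × Fin M) : 0 ≤ e := by
  have hd := d_pos h.toGlu
  have h1 := h.Xc p false
  have h2 : 0 ≤ e * d := (Nat.cast_nonneg _).trans h1
  exact nonneg_of_mul_nonneg_left h2 hd

theorem x_nonneg (h : Fnl C g z x e ρ ζ θ G d A PL X Hh Fb) (i : Fin q) (v : V) (hv : v ∈ A i) :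
    0 ≤ x := by
  have hd := d_pos h.toGlu
  have h1 := h.lx i v hv
  have h2 : 0 ≤ x * d := (Nat.cast_nonneg _).trans h1
  exact nonneg_of_mul_nonneg_left h2 hd

theorem card_A (h : Fnl C g z x e ρ ζ θ G d A PL X Hh Fb) (i : Fin q) :
    ((A i).card : ℝ) ≤ C * d := by
  have h1 := (h.dq i).siz
  rw [Fintype.card_coe] at h1
  exact h1

theorem card_Q (h : Fnl C g z x e ρ ζ θ G d A PL X Hh Fb) (i : Fin q) :
    ((A i ∪ Hh i).card : ℝ) ≤ (C + e) * d := by
  have h1 := card_A h i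
  have h2 := h.Hc i
  have h3 : ((A i ∪ Hh i).card : ℝ) ≤ (A i).card + (Hh i).card := by
    exact_mod_cast card_union_le _ _
  linarith

/-- clusters have bounded size -/
theorem f_clc (h : Fnl C g z x e ρ ζ θ G d A PL X Hh Fb) (k : ℕ) (hC : 0 ≤ C + e) :
    ((univ.filter (fun v => cqX A Hh v = some k)).card : ℝ) ≤ (C + e) * d := by
  have hd := d_pos h.toGlu
  by_cases hk : k < q
  · refine le_trans ?_ (card_Q h ⟨k, hk⟩)
    refine Nat.cast_le.2 (card_le_card ?_)
    intro v hv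
    exact cqX_mem h.Qd v ⟨k, hk⟩ (mem_filter.1 hv).2
  · have h1 : univ.filter (fun v => cqX A Hh v = some k) = ∅ := by
      rw [filter_eq_empty_iff]
      intro v _ hv
      obtain ⟨i, h1, _⟩ := (cqX_iff h.Qd v k).1 hv
      exact hk (h1 ▸ i.2)
    rw [h1, card_empty]
    push_cast
    positivity

/-- pieces of a cluster -/
theorem f_npc (h : Fnl C g z x e ρ ζ θ G d A PL X Hh Fb) (k : ℕ) :
    (univ.filter (fun n => ∃ v, v ∉ (glF G d z ζ A PL X Fb).V0 ∧
      (glF G d z ζ A PL X Fb).pc v = n ∧ cqX A Hh v = some k)).card ≤ M := by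
  by_cases hk : k < q
  · have h1 : univ.filter (fun n => ∃ v, v ∉ (glF G d z ζ A PL X Fb).V0 ∧
        (glF G d z ζ A PL X Fb).pc v = n ∧ cqX A Hh v = some k) ⊆
        (univ : Finset (Fin M)).image fun m => eN q M (some (⟨k, hk⟩, m)) := by
      intro n hn
      obtain ⟨_, v, h1, h2, h3⟩ := mem_filter.1 hn
      obtain ⟨p, h4, h5⟩ := glF_YZ h v h1
      have h6 := glF_cq h v p h5
      rw [h3] at h6
      have h7 : p.1 = ⟨k, hk⟩ := Fin.ext (Option.some.inj h6).symm
      rw [mem_image]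
      refine ⟨p.2, mem_univ _, ?_⟩
      rw [← h7, ← h2, h4]
    refine (card_le_card h1).trans (card_image_le.trans ?_)
    rw [card_univ, Fintype.card_fin]
  · have h1 : univ.filter (fun n => ∃ v, v ∉ (glF G d z ζ A PL X Fb).V0 ∧
        (glF G d z ζ A PL X Fb).pc v = n ∧ cqX A Hh v = some k) = ∅ := by
      rw [filter_eq_empty_iff]
      rintro n _ ⟨v, _, _, hv⟩
      obtain ⟨i, h1, _⟩ := (cqX_iff h.Qd v k).1 hv
      exact hk (h1 ▸ i.2)
    rw [h1, card_empty]
    exact Nat.zero_le _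

/-- edges which leave the cluster of a light member -/
theorem f_out (h : Fnl C g z x e ρ ζ θ G d A PL X Hh Fb) (i : Fin q) (v : V) (hv : v ∈ A i) :
    (((nb G v).filter (fun w => cqX A Hh w ≠ cqX A Hh v)).card : ℝ) ≤ x * d := by
  refine le_trans ?_ (h.lx i v hv)
  refine Nat.cast_le.2 (card_le_card ?_)
  intro w hw
  obtain ⟨h1, h2⟩ := mem_filter.1 hw
  rw [mem_sdiff]
  refine ⟨h1, fun h3 => h2 ?_⟩
  rw [cqX_eq h.Qd w i (mem_union_left _ h3), cqX_eq h.Qd v i (mem_union_left _ hv)]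

theorem f_xs (h : Fnl C g z x e ρ ζ θ G d A PL X Hh Fb) (n : Fin (q * M + 1)) (a : ℝ)
    (ha0 : 0 ≤ a) (hx : 0 ≤ x) (ha : C * x + e ≤ a) :
    ((∑ v ∈ pV (glF G d z ζ A PL X Fb) n,
      ((nb G v).filter (fun w => cqX A Hh w ≠ cqX A Hh v)).card : ℕ) : ℝ) ≤ a * (d : ℝ) ^ 2 := by
  have hd := d_pos h.toGlu
  by_cases hne : (pV (glF G d z ζ A PL X Fb) n).Nonempty
  · obtain ⟨v, hv⟩ := hne
    obtain ⟨h1, h2⟩ := (mem_pV _ _ v).1 hv
    obtain ⟨p, h3, _⟩ := glF_YZ h v h1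
    have h4 : n = eN q M (some p) := h2.symm.trans h3
    rw [h4, glF_pV h p]
    push_cast
    have h5 : Yp A PL p ∪ Zp G d z A PL X p ⊆ A p.1 ∪ Hh p.1 := fun v hv => mem_Q h p v hv
    calc ∑ v ∈ Yp A PL p ∪ Zp G d z A PL X p,
          (((nb G v).filter (fun w => cqX A Hh w ≠ cqX A Hh v)).card : ℝ)
        ≤ ∑ v ∈ A p.1 ∪ Hh p.1,
          (((nb G v).filter (fun w => cqX A Hh w ≠ cqX A Hh v)).card : ℝ) :=
          sum_le_sum_of_subset_of_nonneg h5 fun _ _ _ => Nat.cast_nonneg _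
      _ ≤ ∑ v ∈ A p.1, (((nb G v).filter (fun w => cqX A Hh w ≠ cqX A Hh v)).card : ℝ) +
          ∑ v ∈ Hh p.1, (((nb G v).filter (fun w => cqX A Hh w ≠ cqX A Hh v)).card : ℝ) := by
          have h6 := sum_union_inter (s₁ := A p.1) (s₂ := Hh p.1)
            (f := fun v => (((nb G v).filter (fun w => cqX A Hh w ≠ cqX A Hh v)).card : ℝ))
          have h7 : 0 ≤ ∑ v ∈ A p.1 ∩ Hh p.1,
              (((nb G v).filter (fun w => cqX A Hh w ≠ cqX A Hh v)).card : ℝ) :=
            sum_nonneg fun _ _ => Nat.cast_nonneg _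
          linarith
      _ ≤ (A p.1).card * (x * d) + (Hh p.1).card * d := by
          refine add_le_add ?_ ?_
          · rw [← nsmul_eq_mul]
            exact sum_le_card_nsmul _ _ _ fun v hv => f_out h p.1 v hv
          · rw [← nsmul_eq_mul]
            refine sum_le_card_nsmul _ _ _ fun v hv => ?_
            rw [← h.reg v]
            exact_mod_cast card_le_card (filter_subset _ _)
      _ ≤ (C * d) * (x * d) + (e * d) * d :=
          add_le_add (mul_le_mul_of_nonneg_right (card_A h p.1) (by positivity))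
            (mul_le_mul_of_nonneg_right (h.Hc p.1) hd.le)
      _ = (C * x + e) * (d : ℝ) ^ 2 := by ring
      _ ≤ a * (d : ℝ) ^ 2 := mul_le_mul_of_nonneg_right ha (by positivity)
  · rw [not_nonempty_iff_eq_empty] at hne
    rw [hne, sum_empty]
    push_cast
    positivity

/-- vertices of `V0` in a cluster -/
theorem f_v0c (h : Fnl C g z x e ρ ζ θ G d A PL X Hh Fb) (i : Fin q) :
    ((univ.filter (fun w => w ∈ (glF G d z ζ A PL X Fb).V0 ∧
      cqX A Hh w = some i.val)).card : ℝ) ≤ (θ i + e) * d := by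
  have h1 : univ.filter (fun w => w ∈ (glF G d z ζ A PL X Fb).V0 ∧ cqX A Hh w = some i.val) ⊆
      (PL i).V0.map (Function.Embedding.subtype _) ∪ Hh i := by
    intro w hw
    obtain ⟨_, h2, h3⟩ := mem_filter.1 hw
    have h4 := cqX_mem h.Qd w i h3
    rw [mem_union] at h4 ⊢
    rcases h4 with h4 | h4
    · left
      rw [mem_map]
      refine ⟨⟨w, h4⟩, ?_, rfl⟩
      by_contra h5
      exact notV0_of_Yp h.toGlu (i, (PL i).pc ⟨w, h4⟩) w ((mem_Yp A PL _ w).2 ⟨h4, h5, rfl⟩) h2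
    · exact Or.inr h4
  have h2 := (card_le_card h1).trans (card_union_le _ _)
  rw [card_map] at h2
  have h3 : ((univ.filter (fun w => w ∈ (glF G d z ζ A PL X Fb).V0 ∧
      cqX A Hh w = some i.val)).card : ℝ) ≤ (PL i).V0.card + (Hh i).card := by exact_mod_cast h2
  have h4 := (h.dq i).V0c
  have h5 := h.Hc i
  linarith

/-- heavy members of a piece -/
theorem f_hv (h : Fnl C g z x e ρ ζ θ G d A PL X Hh Fb) (p : Fin q × Fin M) :
    pV (glF G d z ζ A PL X Fb) (eN q M (some p)) ∩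
      (univ.filter fun v => ∃ p, v ∈ Zp G d z A PL X p) ⊆ Zp G d z A PL X p := by
  intro v hv
  obtain ⟨h1, h2⟩ := mem_inter.1 hv
  rw [glF_pV h p, mem_union] at h1
  obtain ⟨_, p', h3⟩ := mem_filter.1 h2
  rcases h1 with h1 | h1
  · exact absurd h3 (disjoint_left.1 (dis_YZ p p') h1)
  · exact h1

theorem f_hvc (h : Fnl C g z x e ρ ζ θ G d A PL X Hh Fb) (n : Fin (q * M + 1))
    (hn : (glF G d z ζ A PL X Fb).ty n = Ty.N ∨ (glF G d z ζ A PL X Fb).ty n = Ty.B) :
    ((pV (glF G d z ζ A PL X Fb) n ∩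
      (univ.filter fun v => ∃ p, v ∈ Zp G d z A PL X p)).card : ℝ) ≤ 2 * e * d := by
  have hd := d_pos h.toGlu
  rcases hn with hn | hn
  · obtain ⟨p, h1, h2, h3⟩ := glF_ty' n Ty.N (by decide) hn
    have h4 : Zp G d z A PL X p = ∅ := by
      rw [eq_empty_iff_forall_notMem]
      intro v hv
      rcases Zp_ty h.toGlu p v hv with h4 | h4 <;> rw [h3] at h4 <;> cases h4
    have h5 := f_hv h p
    rw [← h1, h4, subset_empty] at h5
    rw [h5, card_empty]
    push_cast
    have := e_nonneg h p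
    positivity
  · obtain ⟨p, h1, h2, h3⟩ := glF_ty' n Ty.B (by decide) hn
    have h5 := card_le_card (f_hv h p)
    rw [← h1, Zp_B h.toGlu p h3] at h5
    have h6 : ((pV (glF G d z ζ A PL X Fb) n ∩
      (univ.filter fun v => ∃ p, v ∈ Zp G d z A PL X p)).card : ℝ) ≤
      (X p false).card + (X p true).card := by exact_mod_cast h5.trans (card_union_le _ _)
    have h7 := h.Xc p false
    have h8 := h.Xc p true
    linarith

theorem f_kh (h : Fnl C g z x e ρ ζ θ G d A PL X Hh Fb) (p : Fin q × Fin M)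
    (hp : (PL p.1).ty p.2 = Ty.K) :
    ((pV (glF G d z ζ A PL X Fb) (eN q M (some p)) ∩
      (univ.filter fun v => ∃ p, v ∈ Zp G d z A PL X p)).card : ℝ) ≤ 2 * θ p.1 * d := by
  refine le_trans ?_ (card_ZpK h.toGlu p hp)
  exact_mod_cast card_le_card (f_hv h p)

theorem lowYK (h : Fnl C g z x e ρ ζ θ G d A PL X Hh Fb) (p : Fin q × Fin M)
    (hp : (PL p.1).ty p.2 = Ty.K) : (1 - ζ p.1) * d ≤ ((Yp A PL p).card : ℝ) ∧
      ((Yp A PL p).card : ℝ) ≤ (1 + g) * d := card_K h.toGlu p hp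

end fin

end Pool.Agent.Work.MP_db9399_dx
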