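import Pool.Agent.Work.MP_db9399_dx_helper26.Final

/-!
# MP_db9399, all scales, DECX: the structure `PcD`, types N and B (helper26)
-/

set_option autoImplicit false

namespace Pool.Agent.Work.MP_db9399_dx

open Finset Classical
open Pool.Agent.Work.MP_db9399_all (nb)
open Pool.Agent.Work.MP_db9399_da
open Pool.Agent.Work.MP_db9399_cl.helper26 (DecQ)
open Pool.Agent.Work.MP_db9399_xf

universe u v

section gen
variable {V : Type u} [Fintype V] {N : ℕ}

theorem flp_rg (G : SimpleGraph V) (P : Pcs V N) (F : Fin N → Bool) (b : Fin N → ℝ) (w : V)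
    (n : Fin N) (β : Bool) (h : (flp G P F b).rg w = some (n, β)) :
    w ∈ P.V0 ∧ P.ty n = Ty.B ∧ ((sV P n (xor β (F n)) \ nb G w).card : ℝ) < b n := by
  change (if h : ∃ y : Fin N × Bool, w ∈ P.V0 ∧ P.ty y.1 = Ty.B ∧
    ((sV P y.1 (xor y.2 (F y.1)) \ nb G w).card : ℝ) < b y.1 then
    some h.choose else none) = some (n, β) at h
  by_cases h1 : ∃ y : Fin N × Bool, w ∈ P.V0 ∧ P.ty y.1 = Ty.B ∧
    ((sV P y.1 (xor y.2 (F y.1)) \ nb G w).card : ℝ) < b y.1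
  · rw [dif_pos h1] at h
    have h2 := Option.some.inj h
    have h5 := h1.choose_spec
    rw [h2] at h5
    exact h5
  · rw [dif_neg h1] at h
    cases h

theorem flp_rg' (G : SimpleGraph V) (P : Pcs V N) (F : Fin N → Bool) (b : Fin N → ℝ) (w : V)
    (n : Fin N) (β : Bool) (h0 : w ∈ P.V0) (hn : P.ty n = Ty.B)
    (hb : ((sV P n (xor β (F n)) \ nb G w).card : ℝ) < b n)
    (hu : ∀ m β', P.ty m = Ty.B → ((sV P m (xor β' (F m)) \ nb G w).card : ℝ) < b m →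
      m = n ∧ β' = β) :
    (flp G P F b).rg w = some (n, β) := by
  change (if h : ∃ y : Fin N × Bool, w ∈ P.V0 ∧ P.ty y.1 = Ty.B ∧
    ((sV P y.1 (xor y.2 (F y.1)) \ nb G w).card : ℝ) < b y.1 then
    some h.choose else none) = some (n, β)
  have h1 : ∃ y : Fin N × Bool, w ∈ P.V0 ∧ P.ty y.1 = Ty.B ∧
    ((sV P y.1 (xor y.2 (F y.1)) \ nb G w).card : ℝ) < b y.1 := ⟨(n, β), h0, hn, hb⟩
  rw [dif_pos h1]
  obtain ⟨h2, h3⟩ := hu _ _ h1.choose_spec.2.1 h1.choose_spec.2.2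
  exact congrArg some (Prod.ext h2 h3)

end gen

section fin
variable {V : Type u} [Fintype V] {q M J : ℕ} {C g z x e : ℝ} {ρ ζ θ : Fin q → ℝ}
  {G : SimpleGraph V} {d : ℕ} {A : Fin q → Finset V} {PL : ∀ i, Pcs {v // v ∈ A i} M}
  {X : Fin q × Fin M → Bool → Finset V} {Hh : Fin q → Finset V} {Fb : Fin q × Fin M → Bool}
  {s0 : Fin J} {s : Fin q → Fin J}

theorem glF_thin : thin G (glF G d z ζ A PL X Fb) = thin G (gl G d z ζ A PL X) :=
  flp_thin _ _ _ _

theorem glF_sV (h : Fnl C g z x e ρ ζ θ G d A PL X Hh Fb) (p : Fin q × Fin M)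
    (hp : (PL p.1).ty p.2 = Ty.B) (β : Bool) :
    sV (glF G d z ζ A PL X Fb) (eN q M (some p)) β =
      Sp A PL p (xor β (Fb p)) ∪ X p (xor β (Fb p)) := by
  unfold glF
  rw [flp_sV, atN_some, sV_gl h.toGlu p hp]

theorem card_SX (h : Fnl C g z x e ρ ζ θ G d A PL X Hh Fb) (p : Fin q × Fin M) (β : Bool) :
    (Sp A PL p β ∪ X p β).card = (Sp A PL p β).card + (X p β).card := by
  rw [card_union_of_disjoint]
  rw [disjoint_left]
  intro v h1 h2
  exact X_Yp h.toGlu p p β v h2 (Sp_sub p β h1)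

theorem f_bE (h : Fnl C g z x e ρ ζ θ G d A PL X Hh Fb) (n : Fin (q * M + 1))
    (hn : (glF G d z ζ A PL X Fb).ty n = Ty.B) :
    (sV (glF G d z ζ A PL X Fb) n false).card = (sV (glF G d z ζ A PL X Fb) n true).card := by
  obtain ⟨p, h1, h2, h3⟩ := glF_ty' n Ty.B (by decide) hn
  rw [h1, glF_sV h p h3, glF_sV h p h3, card_SX h, card_SX h]
  have h4 := card_Sp h.toGlu p h3
  have h5 := h.Xe p
  cases Fb p
  · change (Sp A PL p false).card + (X p false).card = (Sp A PL p true).card + (X p true).card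
    omega
  · change (Sp A PL p true).card + (X p true).card = (Sp A PL p false).card + (X p false).card
    omega

theorem f_thd (h : Fnl C g z x e ρ ζ θ G d A PL X Hh Fb) (v : V) (p : Fin q × Fin M)
    (hv : v ∈ Yp A PL p ∪ Zp G d z A PL X p)
    (hp : (PL p.1).ty p.2 = Ty.N ∨ (PL p.1).ty p.2 = Ty.B) :
    ((nb (thin G (glF G d z ζ A PL X Fb)) v).card : ℝ) ≤ 2 * ζ p.1 * d := by
  have hd := d_pos h.toGlu
  have hζ := h.ζ0 p.1
  rw [glF_thin]
  rcases hp with hp | hp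
  · have h1 : v ∈ Yp A PL p := by
      rcases mem_union.1 hv with h1 | h1
      · exact h1
      · rcases Zp_ty h.toGlu p v h1 with h2 | h2 <;> rw [hp] at h2 <;> cases h2
    have h2 := thd_N h.toGlu p hp v h1
    nlinarith
  · obtain ⟨β, hβ⟩ := pV_B h.toGlu p hp v (by
      rw [pV_gl h.toGlu]
      exact hv)
    have h2 := thd_B h.toGlu p hp β v hβ
    nlinarith

theorem f_ths (h : Fnl C g z x e ρ ζ θ G d A PL X Hh Fb) (p : Fin q × Fin M)
    (hp : (PL p.1).ty p.2 = Ty.N ∨ (PL p.1).ty p.2 = Ty.B) (he : e ≤ θ p.1) :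
    ∑ v ∈ pV (glF G d z ζ A PL X Fb) (eN q M (some p)),
      ((nb (thin G (glF G d z ζ A PL X Fb)) v).card : ℝ) ≤ 2 * θ p.1 * (d : ℝ) ^ 2 := by
  have hd := d_pos h.toGlu
  have he0 := e_nonneg h p
  rw [glF_thin]
  change ∑ v ∈ pV (gl G d z ζ A PL X) (eN q M (some p)),
      ((nb (thin G (gl G d z ζ A PL X)) v).card : ℝ) ≤ _
  rcases hp with hp | hp
  · rw [pV_glN h.toGlu p hp]
    have h2 := ths_N h.toGlu p hp
    nlinarith
  · have h2 := ths_B h.toGlu p hp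
    nlinarith

theorem f_nL (h : Fnl C g z x e ρ ζ θ G d A PL X Hh Fb) (p : Fin q × Fin M)
    (hne : (Yp A PL p).Nonempty) (hp : (PL p.1).ty p.2 = Ty.N) :
    (1 + g / 2) * d ≤ (Fintype.card (Ts (glF G d z ζ A PL X Fb) (eN q M (some p))) : ℝ) := by
  have h1 := (gl_tr h.toGlu p hne hp).card
  have h2 := (h.dq p.1).nL p.2 hp
  rw [← h1] at h2
  exact h2

theorem f_cut (h : Fnl C g z x e ρ ζ θ G d A PL X Hh Fb) (p : Fin q × Fin M)
    (hne : (Yp A PL p).Nonempty)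
    (hp : (PL p.1).ty p.2 = Ty.N ∨ (PL p.1).ty p.2 = Ty.B) (ρ1 : ℝ) (hρ0 : 0 ≤ ρ1)
    (hρ1 : 4 * ρ1 ≤ ρ p.1) (hρ2 : 4 * ρ1 * (C + 1) ≤ 1) (he : 4 * e ≤ 1 / 8)
    (T : Finset (Ts (glF G d z ζ A PL X Fb) (eN q M (some p)))) :
    ρ1 * T.card * (univ \ T).card ≤
      ∑ v ∈ T, ((nb (bk G (glF G d z ζ A PL X Fb) (eN q M (some p))) v \ T).card : ℝ) := by
  refine flp_cut _ _ _ _ _ _ ?_ T
  intro T
  rcases hp with hp | hp
  · have h1 := (gl_tr h.toGlu p hne hp).cut ρ1 (fun S => by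
      refine le_trans ?_ ((h.dq p.1).cut p.2 (Or.inl hp) S)
      rw [mul_assoc, mul_assoc]
      refine mul_le_mul_of_nonneg_right ?_ (by positivity)
      linarith) T
    exact h1
  · exact cut_of G _ _ ρ1 (fun S hS => cut_B h.toGlu p hp ρ1 hρ0 hρ1 hρ2 he S hS) T

theorem f_nbi (h : Fnl C g z x e ρ ζ θ G d A PL X Hh Fb) (p : Fin q × Fin M)
    (hne : (Yp A PL p).Nonempty) (hp : (PL p.1).ty p.2 = Ty.N) (ρ1 : ℝ)
    (hρ0 : 0 ≤ ρ1) (hρ1 : 4 * ρ1 ≤ ρ p.1)
    (T : Finset (Ts (glF G d z ζ A PL X Fb) (eN q M (some p)))) :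
    ρ1 * (d : ℝ) ^ 2 ≤
      ∑ v ∈ T, ((nb (bk G (glF G d z ζ A PL X Fb) (eN q M (some p))) v ∩ T).card : ℝ) +
      ∑ v ∈ univ \ T,
        ((nb (bk G (glF G d z ζ A PL X Fb) (eN q M (some p))) v \ T).card : ℝ) := by
  refine flp_nbi _ _ _ _ _ _ ?_ T
  intro T
  refine (gl_tr h.toGlu p hne hp).nbi _ (fun S => ?_) T
  refine le_trans ?_ ((h.dq p.1).nbi p.2 hp S)
  refine mul_le_mul_of_nonneg_right ?_ (by positivity)
  linarith

/-- the number of a side -/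
theorem glF_sV' (h : Fnl C g z x e ρ ζ θ G d A PL X Hh Fb) (p : Fin q × Fin M)
    (hp : (PL p.1).ty p.2 = Ty.B) (β : Bool) :
    sV (glF G d z ζ A PL X Fb) (eN q M (some p)) β = Sp A PL p (xor β (Fb p)) := by
  rw [glF_sV h p hp, h.hX, union_empty]

theorem gl_sV' (h : Fnl C g z x e ρ ζ θ G d A PL X Hh Fb) (p : Fin q × Fin M)
    (hp : (PL p.1).ty p.2 = Ty.B) (β : Bool) :
    sV (gl G d z ζ A PL X) (eN q M (some p)) β = Sp A PL p β := by
  rw [sV_gl h.toGlu p hp, h.hX, union_empty]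

theorem Rw_Rg (h : Fnl C g z x e ρ ζ θ G d A PL X Hh Fb) (p : Fin q × Fin M)
    (hne : (Yp A PL p).Nonempty) (hp : (PL p.1).ty p.2 = Ty.B) (β : Bool) :
    Rw G d z ζ A PL X p β ⊆ Rg G d ζ A PL p β := by
  intro w hw
  obtain ⟨_, h1, h2⟩ := mem_filter.1 hw
  exact (mem_Rg p β w).2 ⟨fun p' h8 => notV0_of_Yp h.toGlu p' w h8 h1, hp, hne, Or.inr h2⟩

/-- rigid vertices -/
theorem f_rg (h : Fnl C g z x e ρ ζ θ G d A PL X Hh Fb) (w : V) (n : Fin (q * M + 1)) (β : Bool)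
    (hr : (glF G d z ζ A PL X Fb).rg w = some (n, β)) :
    w ∈ (glF G d z ζ A PL X Fb).V0 ∧ (glF G d z ζ A PL X Fb).ty n = Ty.B ∧
      ∃ p, n = eN q M (some p) ∧ (Yp A PL p).Nonempty ∧ (PL p.1).ty p.2 = Ty.B ∧
        w ∈ Rw G d z ζ A PL X p (xor β (Fb p)) := by
  obtain ⟨h1, h2, h4⟩ := flp_rg _ _ _ _ w n β hr
  obtain ⟨p, h5, h6, h7⟩ := glF_ty' (G := G) (d := d) (z := z) (ζ := ζ) (A := A) (PL := PL)
    (X := X) (Fb := Fb) n Ty.B (by decide) h2
  refine ⟨h1, h2, p, h5, h6, h7, mem_filter.2 ⟨mem_univ _, h1, ?_⟩⟩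
  rw [h5, atN_some, atN_some, gl_sV' h p h7] at h4
  exact h4

theorem f_rg' (h : Fnl C g z x e ρ ζ θ G d A PL X Hh Fb) (w : V) (p : Fin q × Fin M)
    (hne : (Yp A PL p).Nonempty) (hp : (PL p.1).ty p.2 = Ty.B) (β : Bool)
    (hw : w ∈ Rw G d z ζ A PL X p (xor β (Fb p))) :
    (glF G d z ζ A PL X Fb).rg w = some (eN q M (some p), β) := by
  obtain ⟨_, h1, h2⟩ := mem_filter.1 hw
  refine flp_rg' _ _ _ _ w _ β h1 ?_ ?_ ?_
  · rw [gl_ty p hne]
    exact hp
  · rw [atN_some, atN_some, gl_sV' h p hp]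
    exact h2
  · intro m β' hm hmw
    obtain ⟨p', h3, h4, h5⟩ := glF_ty' (G := G) (d := d) (z := z) (ζ := ζ) (A := A)
      (PL := PL) (X := X) (Fb := Fb) m Ty.B (by decide) hm
    rw [h3] at hmw
    rw [atN_some, atN_some, gl_sV' h p' h5] at hmw
    have h6 : w ∈ Rw G d z ζ A PL X p' (xor β' (Fb p')) :=
      mem_filter.2 ⟨mem_univ _, h1, hmw⟩
    have h7 := Rg_uniq h.toGlu (p', xor β' (Fb p')) (p, xor β (Fb p)) w
      (Rw_Rg h p' h4 h5 _ h6) (Rw_Rg h p hne hp _ hw)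
    have h8 : p' = p := congrArg Prod.fst h7
    have h9 : xor β' (Fb p') = xor β (Fb p) := congrArg Prod.snd h7
    subst h8
    refine ⟨h3, ?_⟩
    revert h9
    cases β <;> cases β' <;> cases Fb p' <;> simp

theorem f_rgs (h : Fnl C g z x e ρ ζ θ G d A PL X Hh Fb) (p : Fin q × Fin M)
    (hne : (Yp A PL p).Nonempty) (hp : (PL p.1).ty p.2 = Ty.B) (β : Bool) :
    univ.filter (fun w => (glF G d z ζ A PL X Fb).rg w = some (eN q M (some p), β)) =
      Rw G d z ζ A PL X p (xor β (Fb p)) := by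
  ext w
  rw [mem_filter]
  constructor
  · rintro ⟨_, h1⟩
    obtain ⟨_, _, p', h2, _, _, h3⟩ := f_rg h w _ _ h1
    have h4 : p = p' := Option.some.inj ((eN q M).injective h2)
    rw [h4]
    exact h3
  · intro h1
    exact ⟨mem_univ _, f_rg' h w p hne hp β h1⟩

theorem f_rgp (h : Fnl C g z x e ρ ζ θ G d A PL X Hh Fb) (p : Fin q × Fin M)
    (hne : (Yp A PL p).Nonempty) (hp : (PL p.1).ty p.2 = Ty.B) :
    (univ.filter (fun w =>
      (glF G d z ζ A PL X Fb).rg w = some (eN q M (some p), false))).card ≤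
    (univ.filter (fun w =>
      (glF G d z ζ A PL X Fb).rg w = some (eN q M (some p), true))).card := by
  rw [f_rgs h p hne hp, f_rgs h p hne hp]
  have h1 := h.hFb p
  have h2 : xor false (Fb p) = Fb p := by cases Fb p <;> rfl
  have h3 : xor true (Fb p) = !(Fb p) := by cases Fb p <;> rfl
  rw [h2, h3]
  exact h1

theorem f_rgc (h : Fnl C g z x e ρ ζ θ G d A PL X Hh Fb) (p : Fin q × Fin M)
    (hne : (Yp A PL p).Nonempty) (hp : (PL p.1).ty p.2 = Ty.B) :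
    ((univ.filter (fun w =>
      (glF G d z ζ A PL X Fb).rg w = some (eN q M (some p), false))).card : ℝ) ≤ e * d := by
  rw [f_rgs h p hne hp]
  have h2 : xor false (Fb p) = Fb p := by cases Fb p <;> rfl
  rw [h2]
  have hd := d_pos h.toGlu
  obtain ⟨β, hβ⟩ := Rg_c h.toGlu Hh h.Hc (fun i v h3 h4 => by
    have h5 := h.nin i v h3 h4
    have h6 := h.z0
    refine lt_of_le_of_lt ?_ h5
    exact mul_le_mul_of_nonneg_right (by linarith) hd.le) p
  have h3 : ((Rw G d z ζ A PL X p β).card : ℝ) ≤ e * d := by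
    refine le_trans ?_ hβ
    exact_mod_cast card_le_card (Rw_Rg h p hne hp β)
  refine le_trans ?_ h3
  have h4 := h.hFb p
  by_cases h5 : β = Fb p
  · rw [h5]
  · have h6 : β = !(Fb p) := by
      revert h5
      cases β <;> cases Fb p <;> simp
    rw [h6]
    exact_mod_cast h4

theorem f_rgd (h : Fnl C g z x e ρ ζ θ G d A PL X Hh Fb) (w : V) (p : Fin q × Fin M) (β : Bool)
    (hr : (glF G d z ζ A PL X Fb).rg w = some (eN q M (some p), β)) :
    ((nb G w \ sV (glF G d z ζ A PL X Fb) (eN q M (some p)) β).card : ℝ) ≤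
      2 * (2 * ζ p.1) * d ∧
      ((sV (glF G d z ζ A PL X Fb) (eN q M (some p)) β \ nb G w).card : ℝ) ≤
        2 * (2 * ζ p.1) * d := by
  obtain ⟨_, _, p', h1, hne, h2, h3⟩ := f_rg h w _ _ hr
  have h5 : p = p' := Option.some.inj ((eN q M).injective h1)
  subst h5
  have hd := d_pos h.toGlu
  have hζ := h.ζ0 p.1
  rw [glF_sV' h p h2]
  constructor
  · have h6 := out_Rg h.toGlu p _ w (Rw_Rg h p hne h2 _ h3)
    nlinarith
  · have h6 := (mem_filter.1 h3).2.2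
    nlinarith

/-- a vertex of another piece misses many vertices of a side -/
theorem far (h : Fnl C g z x e ρ ζ θ G d A PL X Hh Fb) (p p' : Fin q × Fin M) (hpp : p ≠ p')
    (hp : (PL p.1).ty p.2 = Ty.B) (hne : (Yp A PL p).Nonempty) (β : Bool) (w : V)
    (hw : w ∈ Yp A PL p' ∪ Zp G d z A PL X p') :
    (1 : ℝ) / 2 * d ≤ ((Sp A PL p β \ nb G w).card : ℝ) := by
  have hd := d_pos h.toGlu
  have h1 := big_Sp h.toGlu p hp hne β
  have h2 : (3 : ℝ) / 4 * d ≤ ((nb G w ∩ Yp A PL p').card : ℝ) := by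
    rcases mem_union.1 hw with h2 | h2
    · have h3 := in_Yp h.toGlu p' w h2
      have := h.ζ8 p'.1
      nlinarith
    · rcases ((mem_Zp p' w).1 h2).2 with h3 | ⟨β', h3⟩
      · have h4 := in_Ab h.toGlu p' w h3
        have := h.ζ8 p'.1
        have := h.z8
        nlinarith
      · have h4 := in_Rg h.toGlu p' _ w (h.XR p' β' h3)
        have h5 : ((nb G w ∩ Sp A PL p' (!β')).card : ℝ) ≤ ((nb G w ∩ Yp A PL p').card : ℝ) := by
          exact_mod_cast card_le_card (inter_subset_inter_left (Sp_sub p' _))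
        have := h.ζ8 p'.1
        nlinarith
  have h3 := two_sets h.toGlu w (Yp A PL p') (Sp A PL p β)
    ((Yp_dis h.toGlu p' p (Ne.symm hpp)).mono (Subset.refl _) (Sp_sub p β))
  have h4 : ((Sp A PL p β ∩ nb G w).card : ℝ) + ((Sp A PL p β \ nb G w).card : ℝ) =
      (Sp A PL p β).card := by
    exact_mod_cast card_inter_add_card_sdiff (Sp A PL p β) (nb G w)
  rw [inter_comm] at h4
  have := h.ζ8 p.1
  nlinarith

theorem f_rgm (h : Fnl C g z x e ρ ζ θ G d A PL X Hh Fb) (p : Fin q × Fin M)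
    (hne : (Yp A PL p).Nonempty) (hp : (PL p.1).ty p.2 = Ty.B) (w : V)
    (hw : w ∉ pV (glF G d z ζ A PL X Fb) (eN q M (some p))) (β : Bool)
    (hr : (glF G d z ζ A PL X Fb).rg w ≠ some (eN q M (some p), β)) :
    2 * ζ p.1 / 8 * d ≤
      ((sV (glF G d z ζ A PL X Fb) (eN q M (some p)) β \ nb G w).card : ℝ) := by
  have hd := d_pos h.toGlu
  have hζ := h.ζ0 p.1
  have hζ8 := h.ζ8 p.1
  rw [glF_sV' h p hp]
  by_cases h0 : w ∈ (glF G d z ζ A PL X Fb).V0
  · by_contra hcon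
    rw [not_le] at hcon
    apply hr
    refine f_rg' h w p hne hp β (mem_filter.2 ⟨mem_univ _, h0, ?_⟩)
    linarith
  · obtain ⟨p', h2, h3⟩ := glF_YZ h w h0
    have hpp : p ≠ p' := by
      rintro rfl
      apply hw
      rw [glF_pV h p]
      exact h3
    have h4 := far h p p' hpp hp hne (xor β (Fb p)) w h3
    nlinarith

theorem f_n4 (h : Fnl C g z x e ρ ζ θ G d A PL X Hh Fb) (p : Fin q × Fin M)
    (hne : (Yp A PL p).Nonempty) (hp : (PL p.1).ty p.2 = Ty.N) :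
    4 ∣ Fintype.card (Ts (glF G d z ζ A PL X Fb) (eN q M (some p))) := by
  have h1 := (gl_tr h.toGlu p hne hp).card
  have h2 := (h.dq p.1).n4 p.2 hp
  rw [← h1] at h2
  exact h2

end fin

end Pool.Agent.Work.MP_db9399_dx
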