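import Pool.Agent.Work.MP_db9399_dx_helper26.Rigid
import Pool.Agent.Work.MP_db9399_xf_helper62.XFrame

/-!
# MP_db9399, all scales, DECX: names of the sides, clusters (helper26)
-/

set_option autoImplicit false

namespace Pool.Agent.Work.MP_db9399_dx

open Finset Classical
open Pool.Agent.Work.MP_db9399_all (nb)
open Pool.Agent.Work.MP_db9399_da
open Pool.Agent.Work.MP_db9399_cl.helper26 (DecQ)
open Pool.Agent.Work.MP_db9399_xf

universe u v

section flip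
variable {V : Type u} [Fintype V] {N : ℕ}

/-- names of the sides (`F n` is called `false`), rigid vertices -/
noncomputable def flp (G : SimpleGraph V) (P : Pcs V N) (F : Fin N → Bool) (b : Fin N → ℝ) :
    Pcs V N where
  V0 := P.V0
  pc := P.pc
  ty := P.ty
  rg w := if h : ∃ y : Fin N × Bool, w ∈ P.V0 ∧ P.ty y.1 = Ty.B ∧
    ((sV P y.1 (xor y.2 (F y.1)) \ nb G w).card : ℝ) < b y.1 then some h.choose else none
  sd v := xor (P.sd v) (F (P.pc v))
  pt := P.pt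
  th := P.th

variable (G : SimpleGraph V) (P : Pcs V N) (F : Fin N → Bool) (b : Fin N → ℝ)

theorem flp_pV (n : Fin N) : pV (flp G P F b) n = pV P n := rfl

theorem flp_sV (n : Fin N) (β : Bool) : sV (flp G P F b) n β = sV P n (xor β (F n)) := by
  ext v
  rw [mem_sV, mem_sV]
  constructor
  · rintro ⟨h1, h2, h3⟩
    have h3' : xor (P.sd v) (F (P.pc v)) = β := h3
    have h2' : P.pc v = n := h2
    refine ⟨h1, h2, ?_⟩
    rw [← h3', h2']
    cases P.sd v <;> cases F n <;> rfl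
  · rintro ⟨h1, h2, h3⟩
    refine ⟨h1, h2, ?_⟩
    change xor (P.sd v) (F (P.pc v)) = β
    rw [h3, h2]
    cases β <;> cases F n <;> rfl

theorem flp_bulk : bulk G (flp G P F b) = bulk G P := by
  ext v w
  have key : ∀ x y z : Bool, (xor x z ≠ xor y z) ↔ x ≠ y := by decide
  constructor
  · rintro ⟨h1, h2, h3, h4, h5⟩
    refine ⟨h1, h2, h3, h4, fun h6 => ?_⟩
    have h7 : xor (P.sd v) (F (P.pc v)) ≠ xor (P.sd w) (F (P.pc w)) := h5 h6
    have h4' : P.pc v = P.pc w := h4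
    rw [← h4'] at h7
    exact (key _ _ _).1 h7
  · rintro ⟨h1, h2, h3, h4, h5⟩
    refine ⟨h1, h2, h3, h4, fun h6 => ?_⟩
    change xor (P.sd v) (F (P.pc v)) ≠ xor (P.sd w) (F (P.pc w))
    rw [← h4]
    exact (key _ _ _).2 (h5 h6)

theorem flp_thin : thin G (flp G P F b) = thin G P := by
  ext v w
  change (G.Adj v w ∧ ¬ (bulk G (flp G P F b)).Adj v w) ↔ (G.Adj v w ∧ ¬ (bulk G P).Adj v w)
  rw [flp_bulk]

theorem flp_bk (n : Fin N) : bk G (flp G P F b) n = bk G P n := by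
  change (bulk G (flp G P F b)).comap (fun v : {v : V // v ∉ P.V0 ∧ P.pc v = n} => v.1) =
    (bulk G P).comap (fun v => v.1)
  rw [flp_bulk]

theorem flp_cut (n : Fin N) (ρ : ℝ)
    (h : ∀ T : Finset (Ts P n), ρ * T.card * (univ \ T).card ≤
      ∑ v ∈ T, ((nb (bk G P n) v \ T).card : ℝ)) (T : Finset (Ts (flp G P F b) n)) :
    ρ * T.card * (univ \ T).card ≤ ∑ v ∈ T, ((nb (bk G (flp G P F b) n) v \ T).card : ℝ) := by
  rw [flp_bk]
  exact h T

theorem flp_nbi (n : Fin N) (a : ℝ)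
    (h : ∀ T : Finset (Ts P n), a ≤ ∑ v ∈ T, ((nb (bk G P n) v ∩ T).card : ℝ) +
      ∑ v ∈ univ \ T, ((nb (bk G P n) v \ T).card : ℝ)) (T : Finset (Ts (flp G P F b) n)) :
    a ≤ ∑ v ∈ T, ((nb (bk G (flp G P F b) n) v ∩ T).card : ℝ) +
      ∑ v ∈ univ \ T, ((nb (bk G (flp G P F b) n) v \ T).card : ℝ) := by
  rw [flp_bk]
  exact h T

end flip

section cl
variable {V : Type u} {q : ℕ}

/-- numbers of the clusters -/
noncomputable def cqX (A Hh : Fin q → Finset V) (v : V) : Option ℕ :=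
  if h : ∃ i, v ∈ A i ∪ Hh i then some h.choose.val else none

theorem cqX_iff {A Hh : Fin q → Finset V}
    (hQ : ∀ i j, i ≠ j → Disjoint (A i ∪ Hh i) (A j ∪ Hh j)) (v : V) (k : ℕ) :
    cqX A Hh v = some k ↔ ∃ i : Fin q, i.val = k ∧ v ∈ A i ∪ Hh i := by
  unfold cqX
  by_cases h : ∃ i, v ∈ A i ∪ Hh i
  · rw [dif_pos h]
    constructor
    · intro h1
      exact ⟨h.choose, Option.some.inj h1, h.choose_spec⟩
    · rintro ⟨i, h1, h2⟩
      have h3 : h.choose = i := by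
        by_contra hne
        exact disjoint_left.1 (hQ _ _ hne) h.choose_spec h2
      rw [h3, h1]
  · rw [dif_neg h]
    constructor
    · intro h1
      cases h1
    · rintro ⟨i, _, h2⟩
      exact absurd ⟨i, h2⟩ h

theorem cqX_eq {A Hh : Fin q → Finset V}
    (hQ : ∀ i j, i ≠ j → Disjoint (A i ∪ Hh i) (A j ∪ Hh j)) (v : V) (i : Fin q)
    (hv : v ∈ A i ∪ Hh i) : cqX A Hh v = some i.val := (cqX_iff hQ v i.val).2 ⟨i, rfl, hv⟩

theorem cqX_mem {A Hh : Fin q → Finset V}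
    (hQ : ∀ i j, i ≠ j → Disjoint (A i ∪ Hh i) (A j ∪ Hh j)) (v : V) (i : Fin q)
    (hv : cqX A Hh v = some i.val) : v ∈ A i ∪ Hh i := by
  obtain ⟨j, h1, h2⟩ := (cqX_iff hQ v i.val).1 hv
  rw [← Fin.ext h1]
  exact h2

end cl

section fin
variable {V : Type u} [Fintype V] {q M : ℕ}

/-- vertices of `V0` which miss few vertices of the side `β` -/
noncomputable def Rw (G : SimpleGraph V) (d : ℕ) (z : ℝ) (ζ : Fin q → ℝ) (A : Fin q → Finset V)
    (PL : ∀ i, Pcs {v // v ∈ A i} M) (X : Fin q × Fin M → Bool → Finset V)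
    (p : Fin q × Fin M) (β : Bool) : Finset V :=
  univ.filter fun w => w ∈ (gl G d z ζ A PL X).V0 ∧
    ((Sp A PL p β \ nb G w).card : ℝ) < ζ p.1 / 4 * d

/-- the situation with the heavy members `Hh` and the names of the sides `Fb` -/
structure Fnl (C g z x e : ℝ) (ρ ζ θ : Fin q → ℝ) (G : SimpleGraph V) (d : ℕ)
    (A : Fin q → Finset V) (PL : ∀ i, Pcs {v // v ∈ A i} M)
    (X : Fin q × Fin M → Bool → Finset V) (Hh : Fin q → Finset V)
    (Fb : Fin q × Fin M → Bool) : Prop extends Glu C g z x e ρ ζ θ G d A PL X where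
  Hc : ∀ i, ((Hh i).card : ℝ) ≤ e * d
  Qd : ∀ i j, i ≠ j → Disjoint (A i ∪ Hh i) (A j ∪ Hh j)
  nin : ∀ i v, v ∉ A i → v ∉ Hh i → (5 / 4 * ζ i + z) * d < ((nb G v \ A i).card : ℝ)
  hX : ∀ p β, X p β = ∅
  hFb : ∀ p, (Rw G d z ζ A PL X p (Fb p)).card ≤ (Rw G d z ζ A PL X p (!(Fb p))).card
  z0 : 0 ≤ z

variable {C g z x e : ℝ} {ρ ζ θ : Fin q → ℝ}
  {G : SimpleGraph V} {d : ℕ} {A : Fin q → Finset V} {PL : ∀ i, Pcs {v // v ∈ A i} M}
  {X : Fin q × Fin M → Bool → Finset V} {Hh : Fin q → Finset V} {Fb : Fin q × Fin M → Bool}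

theorem mem_Q (h : Fnl C g z x e ρ ζ θ G d A PL X Hh Fb) (p : Fin q × Fin M) (v : V)
    (hv : v ∈ Yp A PL p ∪ Zp G d z A PL X p) : v ∈ A p.1 ∪ Hh p.1 := by
  by_contra hcon
  rw [mem_union, not_or] at hcon
  have h1 := h.nin p.1 v hcon.1 hcon.2
  have hd := d_pos h.toGlu
  have hz := h.z0
  have hζ := h.ζ0 p.1
  rcases mem_union.1 hv with h2 | h2
  · exact hcon.1 (Yp_sub p h2)
  · rcases ((mem_Zp p v).1 h2).2 with h3 | ⟨β, h3⟩
    · have h4 := in_Ab h.toGlu p v h3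
      have h5 := card_io G v (Yp A PL p) d (h.reg v)
      have h6 : ((nb G v \ A p.1).card : ℝ) ≤ ((nb G v \ Yp A PL p).card : ℝ) := by
        exact_mod_cast card_le_card (sdiff_subset_sdiff (Subset.refl _) (Yp_sub p))
      nlinarith
    · have h4 := out_Rg h.toGlu p _ v (h.XR p β h3)
      have h6 : ((nb G v \ A p.1).card : ℝ) ≤ ((nb G v \ Sp A PL p (!β)).card : ℝ) := by
        exact_mod_cast card_le_card (sdiff_subset_sdiff (Subset.refl _)
          ((Sp_sub p _).trans (Yp_sub p)))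
      nlinarith

variable {J : ℕ}

/-- value at the piece `n` -/
noncomputable def atN {α : Type v} (a : α) (f : Fin q × Fin M → α) (n : Fin (q * M + 1)) : α :=
  ((eN q M).symm n).elim a f

theorem atN_some {α : Type v} (a : α) (f : Fin q × Fin M → α) (p : Fin q × Fin M) :
    atN a f (eN q M (some p)) = f p := by
  unfold atN
  rw [Equiv.symm_apply_apply]
  rfl

/-- the global pieces -/
noncomputable def glF (G : SimpleGraph V) (d : ℕ) (z : ℝ) (ζ : Fin q → ℝ) (A : Fin q → Finset V)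
    (PL : ∀ i, Pcs {v // v ∈ A i} M) (X : Fin q × Fin M → Bool → Finset V)
    (Fb : Fin q × Fin M → Bool) : Pcs V (q * M + 1) :=
  flp G (gl G d z ζ A PL X) (atN false Fb) (atN 0 fun p => ζ p.1 / 4 * d)

/-- **The pieces with scales, clusters and heavy vertices.** -/
noncomputable def XF (G : SimpleGraph V) (d : ℕ) (z : ℝ) (ζ : Fin q → ℝ) (A : Fin q → Finset V)
    (PL : ∀ i, Pcs {v // v ∈ A i} M) (X : Fin q × Fin M → Bool → Finset V)
    (Hh : Fin q → Finset V) (Fb : Fin q × Fin M → Bool) (s0 : Fin J) (s : Fin q → Fin J) :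
    XD V (q * M + 1) J where
  P := glF G d z ζ A PL X Fb
  sc := atN s0 fun p => s p.1
  cq := cqX A Hh
  Hv := univ.filter fun v => ∃ p, v ∈ Zp G d z A PL X p

/-- vertices of a piece -/
theorem glF_ix (v : V) (hv : v ∉ (glF G d z ζ A PL X Fb).V0) :
    ∃ p, (glF G d z ζ A PL X Fb).pc v = eN q M (some p) ∧ ix G d z A PL X v = some p := by
  have h1 : v ∉ (gl G d z ζ A PL X).V0 := hv
  obtain ⟨p, h2, h3⟩ := (gl_mem v ((gl G d z ζ A PL X).pc v)).1 ⟨h1, rfl⟩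
  exact ⟨p, h2, h3⟩

theorem glF_pV (h : Fnl C g z x e ρ ζ θ G d A PL X Hh Fb) (p : Fin q × Fin M) :
    pV (glF G d z ζ A PL X Fb) (eN q M (some p)) = Yp A PL p ∪ Zp G d z A PL X p :=
  pV_gl h.toGlu p

theorem glF_YZ (h : Fnl C g z x e ρ ζ θ G d A PL X Hh Fb) (v : V)
    (hv : v ∉ (glF G d z ζ A PL X Fb).V0) : ∃ p,
      (glF G d z ζ A PL X Fb).pc v = eN q M (some p) ∧ v ∈ Yp A PL p ∪ Zp G d z A PL X p := by
  obtain ⟨p, h1, h2⟩ := glF_ix v hv
  exact ⟨p, h1, mem_union.2 ((ix_iff h.toGlu v p).1 h2)⟩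

theorem glF_cq (h : Fnl C g z x e ρ ζ θ G d A PL X Hh Fb) (v : V) (p : Fin q × Fin M)
    (hv : v ∈ Yp A PL p ∪ Zp G d z A PL X p) : cqX A Hh v = some p.1.val :=
  cqX_eq h.Qd v p.1 (mem_Q h p v hv)

/-- a nonempty piece -/
theorem glF_ty (p : Fin q × Fin M) (hp : (Yp A PL p).Nonempty) :
    (glF G d z ζ A PL X Fb).ty (eN q M (some p)) = (PL p.1).ty p.2 :=
  gl_ty (G := G) (d := d) (z := z) (ζ := ζ) (X := X) p hp

theorem glF_ty' (n : Fin (q * M + 1)) (T : Ty) (hT : T ≠ Ty.E)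
    (hn : (glF G d z ζ A PL X Fb).ty n = T) :
    ∃ p, n = eN q M (some p) ∧ (Yp A PL p).Nonempty ∧ (PL p.1).ty p.2 = T := by
  have h1 : (gl G d z ζ A PL X).ty n = T := hn
  obtain ⟨p, h2, h3, h4⟩ := gl_ty' n (by rw [h1]; exact hT)
  exact ⟨p, h2, h3, by rw [← h4, h1]⟩

/-- the piece of a vertex with type `T` -/
theorem InT_p (h : Fnl C g z x e ρ ζ θ G d A PL X Hh Fb) (s0 : Fin J) (s : Fin q → Fin J)
    (T : Ty) (hT : T ≠ Ty.E) (v : V) (hv : InT (XF G d z ζ A PL X Hh Fb s0 s) T v) :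
    ∃ p, (glF G d z ζ A PL X Fb).pc v = eN q M (some p) ∧ (Yp A PL p).Nonempty ∧
      (PL p.1).ty p.2 = T ∧ v ∈ Yp A PL p ∪ Zp G d z A PL X p := by
  obtain ⟨h1, h2⟩ := hv
  obtain ⟨p, h3, h4⟩ := glF_YZ h v h1
  obtain ⟨p', h5, h6, h7⟩ := glF_ty' _ T hT h2
  have h8 : p = p' := Option.some.inj ((eN q M).injective (h3.symm.trans h5))
  subst h8
  exact ⟨p, h3, h6, h7, h4⟩

end fin

end Pool.Agent.Work.MP_db9399_dx
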