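import Pool.Agent.Work.MP_db9399_dx_helper26.Tr

/-!
# MP_db9399, all scales, DECX: the pieces of all clusters (helper26)

`A i` = light members of the cluster `i`, `PL i` = its pieces. A vertex outside the pieces which misses
less than `z d` vertices of a piece of type K is absorbed by this piece.
-/

set_option autoImplicit false

namespace Pool.Agent.Work.MP_db9399_dx

open Finset Classical
open Pool.Agent.Work.MP_db9399_all (nb)
open Pool.Agent.Work.MP_db9399_da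
open Pool.Agent.Work.MP_db9399_cl.helper26 (DecQ)

universe u v

section defs
variable {V : Type u} [Fintype V]

/-- the graph on `A` -/
def lG (G : SimpleGraph V) (A : Finset V) : SimpleGraph {v // v ∈ A} := G.comap (fun v => v.1)

/-- neighbours outside `A` -/
noncomputable def lex (G : SimpleGraph V) (A : Finset V) (v : {v // v ∈ A}) : ℕ :=
  (nb G v.1 \ A).card

theorem nb_lG (G : SimpleGraph V) (A : Finset V) (v : {v // v ∈ A}) :
    (nb (lG G A) v).map (Function.Embedding.subtype _) = nb G v.1 ∩ A := by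
  ext w
  simp only [mem_map, mem_nb', mem_inter, Function.Embedding.coe_subtype]
  constructor
  · rintro ⟨w', h1, rfl⟩
    exact ⟨h1, w'.2⟩
  · rintro ⟨h1, h2⟩
    exact ⟨⟨w, h2⟩, h1, rfl⟩

theorem lG_card (G : SimpleGraph V) (A : Finset V) (v : {v // v ∈ A}) :
    (nb (lG G A) v).card + lex G A v = (nb G v.1).card := by
  unfold lex
  rw [← card_inter_add_card_sdiff (nb G v.1) A, ← nb_lG, card_map]

variable {q M : ℕ}

/-- choose the value in the set which contains `v` -/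
noncomputable def pick {α : Type v} (A : Fin q → Finset V) (F : ∀ i, {v // v ∈ A i} → α) (a : α)
    (v : V) : α := if h : ∃ i, v ∈ A i then F h.choose ⟨v, h.choose_spec⟩ else a

omit [Fintype V] in
theorem pick_eq {α : Type v} (A : Fin q → Finset V) (F : ∀ i, {v // v ∈ A i} → α) (a : α)
    (hdis : ∀ i j, i ≠ j → Disjoint (A i) (A j)) (i : Fin q) (v : V) (hv : v ∈ A i) :
    pick A F a v = F i ⟨v, hv⟩ := by
  have h : ∃ i, v ∈ A i := ⟨i, hv⟩
  have key : ∀ j (hj : v ∈ A j), j = i → F j ⟨v, hj⟩ = F i ⟨v, hv⟩ := by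
    rintro j hj rfl
    rfl
  unfold pick
  rw [dif_pos h]
  refine key _ _ ?_
  by_contra hne
  exact disjoint_left.1 (hdis _ _ hne) h.choose_spec hv

/-- the piece `m` of the cluster `i`, as a set of vertices -/
noncomputable def Yp (A : Fin q → Finset V) (PL : ∀ i, Pcs {v // v ∈ A i} M)
    (p : Fin q × Fin M) : Finset V :=
  (pV (PL p.1) p.2).map (Function.Embedding.subtype _)

omit [Fintype V] in
theorem mem_Yp (A : Fin q → Finset V) (PL : ∀ i, Pcs {v // v ∈ A i} M) (p : Fin q × Fin M)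
    (v : V) : v ∈ Yp A PL p ↔ ∃ h : v ∈ A p.1, (⟨v, h⟩ : {v // v ∈ A p.1}) ∉ (PL p.1).V0 ∧
      (PL p.1).pc ⟨v, h⟩ = p.2 := by
  unfold Yp pV
  simp only [mem_map, mem_filter, mem_univ, true_and, Function.Embedding.coe_subtype]
  constructor
  · rintro ⟨w, h1, rfl⟩
    exact ⟨w.2, h1⟩
  · rintro ⟨h, h1⟩
    exact ⟨⟨v, h⟩, h1, rfl⟩

/-- the side `β` of the piece `p`, as a set of vertices -/
noncomputable def Sp (A : Fin q → Finset V) (PL : ∀ i, Pcs {v // v ∈ A i} M)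
    (p : Fin q × Fin M) (β : Bool) : Finset V :=
  (sV (PL p.1) p.2 β).map (Function.Embedding.subtype _)

omit [Fintype V] in
theorem mem_Sp (A : Fin q → Finset V) (PL : ∀ i, Pcs {v // v ∈ A i} M) (p : Fin q × Fin M)
    (β : Bool) (v : V) : v ∈ Sp A PL p β ↔ ∃ h : v ∈ A p.1,
      (⟨v, h⟩ : {v // v ∈ A p.1}) ∉ (PL p.1).V0 ∧ (PL p.1).pc ⟨v, h⟩ = p.2 ∧
      (PL p.1).sd ⟨v, h⟩ = β := by
  unfold Sp sV
  simp only [mem_map, mem_filter, mem_univ, true_and, Function.Embedding.coe_subtype]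
  constructor
  · rintro ⟨w, h1, rfl⟩
    exact ⟨w.2, h1⟩
  · rintro ⟨h, h1⟩
    exact ⟨⟨v, h⟩, h1, rfl⟩

/-- `v` can be absorbed by a piece of type K -/
def Ab (G : SimpleGraph V) (d : ℕ) (z : ℝ) (A : Fin q → Finset V)
    (PL : ∀ i, Pcs {v // v ∈ A i} M) (v : V) (p : Fin q × Fin M) : Prop :=
  (PL p.1).ty p.2 = Ty.K ∧ ((Yp A PL p \ nb G v).card : ℝ) < z * d

/-- vertices outside the pieces which are rigid for the side `β` of the piece `p` of type B -/
noncomputable def Rg (G : SimpleGraph V) (d : ℕ) (ζ : Fin q → ℝ) (A : Fin q → Finset V)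
    (PL : ∀ i, Pcs {v // v ∈ A i} M) (p : Fin q × Fin M) (β : Bool) : Finset V :=
  univ.filter fun v => (∀ p', v ∉ Yp A PL p') ∧ (PL p.1).ty p.2 = Ty.B ∧ (Yp A PL p).Nonempty ∧
    (((nb G v \ Sp A PL p β).card : ℝ) < ζ p.1 / 4 * d ∨
      ((Sp A PL p β \ nb G v).card : ℝ) < ζ p.1 / 4 * d)

/-- which vertices outside the pieces join which side; `X` the vertices which join pieces of
type B -/
noncomputable def jn (G : SimpleGraph V) (d : ℕ) (z : ℝ) (A : Fin q → Finset V)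
    (PL : ∀ i, Pcs {v // v ∈ A i} M) (X : Fin q × Fin M → Bool → Finset V) (v : V) :
    Option ((Fin q × Fin M) × Bool) :=
  if h : ∃ p, Ab G d z A PL v p then some (h.choose, false)
  else if h : ∃ y : (Fin q × Fin M) × Bool, v ∈ X y.1 y.2 then some h.choose else none

/-- the index of the piece of a vertex -/
noncomputable def ix (G : SimpleGraph V) (d : ℕ) (z : ℝ) (A : Fin q → Finset V)
    (PL : ∀ i, Pcs {v // v ∈ A i} M) (X : Fin q × Fin M → Bool → Finset V) (v : V) :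
    Option (Fin q × Fin M) :=
  if h : ∃ p, v ∈ Yp A PL p then some h.choose else (jn G d z A PL X v).map Prod.fst

/-- numbers of the pieces -/
noncomputable def eN (q M : ℕ) : Option (Fin q × Fin M) ≃ Fin (q * M + 1) :=
  Fintype.equivFinOfCardEq (by simp)

/-- the type of a piece -/
noncomputable def tyN (A : Fin q → Finset V) (PL : ∀ i, Pcs {v // v ∈ A i} M) :
    Option (Fin q × Fin M) → Ty
  | none => Ty.E
  | some p => if (Yp A PL p).Nonempty then (PL p.1).ty p.2 else Ty.E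

/-- **The pieces of all clusters.** -/
noncomputable def gl (G : SimpleGraph V) (d : ℕ) (z : ℝ) (ζ : Fin q → ℝ) (A : Fin q → Finset V)
    (PL : ∀ i, Pcs {v // v ∈ A i} M) (X : Fin q × Fin M → Bool → Finset V) :
    Pcs V (q * M + 1) where
  V0 := univ.filter fun v => ix G d z A PL X v = none
  pc v := eN q M (ix G d z A PL X v)
  ty n := tyN A PL ((eN q M).symm n)
  rg v := if h : ∃ y : (Fin q × Fin M) × Bool, v ∈ Rg G d ζ A PL y.1 y.2 then
    some (eN q M (some h.choose.1), h.choose.2) else none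
  sd v := if ∃ p, v ∈ Yp A PL p then pick A (fun i w => (PL i).sd w) false v
    else ((jn G d z A PL X v).map Prod.snd).getD false
  pt := pick A (fun i w => (PL i).pt w) false
  th := pick A (fun i w => (PL i).th w) 0

/-- the situation: `z` absorption, `x` edges which leave the light part, `e` number of heavy
members, `X` joined vertices -/
structure Glu (C g z x e : ℝ) (ρ ζ θ : Fin q → ℝ) (G : SimpleGraph V) (d : ℕ)
    (A : Fin q → Finset V) (PL : ∀ i, Pcs {v // v ∈ A i} M)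
    (X : Fin q × Fin M → Bool → Finset V) : Prop where
  reg : ∀ v, (nb G v).card = d
  d1 : 1 ≤ d
  dis : ∀ i j, i ≠ j → Disjoint (A i) (A j)
  dq : ∀ i, DecQ C g (ρ i) (ζ i) (θ i) (lG G (A i)) (lex G (A i)) d (PL i)
  lx : ∀ i v, v ∈ A i → ((nb G v \ A i).card : ℝ) ≤ x * d
  z8 : z ≤ 1 / 8
  x8 : x ≤ 1 / 8
  ζ0 : ∀ i, 0 ≤ ζ i
  ζ8 : ∀ i, ζ i ≤ 1 / 8
  XR : ∀ p β, X p β ⊆ Rg G d ζ A PL p (!β)
  Xe : ∀ p, (X p false).card = (X p true).card
  Xc : ∀ p β, ((X p β).card : ℝ) ≤ e * d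

end defs

section basic
variable {V : Type u} [Fintype V] {q M : ℕ} {C g z x e : ℝ} {ρ ζ θ : Fin q → ℝ}
  {G : SimpleGraph V} {d : ℕ} {A : Fin q → Finset V} {PL : ∀ i, Pcs {v // v ∈ A i} M}
  {X : Fin q × Fin M → Bool → Finset V}

omit [Fintype V] in
theorem Yp_sub (p : Fin q × Fin M) : Yp A PL p ⊆ A p.1 := by
  intro v hv
  exact ((mem_Yp A PL p v).1 hv).1

theorem Yp_uniq (h : Glu C g z x e ρ ζ θ G d A PL X) (p p' : Fin q × Fin M) (v : V)
    (h1 : v ∈ Yp A PL p) (h2 : v ∈ Yp A PL p') : p = p' := by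
  obtain ⟨a1, a2, a3⟩ := (mem_Yp A PL p v).1 h1
  obtain ⟨b1, b2, b3⟩ := (mem_Yp A PL p' v).1 h2
  obtain ⟨i, m⟩ := p
  obtain ⟨i', m'⟩ := p'
  have h3 : i = i' := by
    by_contra hne
    exact disjoint_left.1 (h.dis _ _ hne) a1 b1
  subst h3
  have h4 : m = m' := a3.symm.trans b3
  rw [h4]

omit [Fintype V] in
theorem card_Yp (p : Fin q × Fin M) [Fintype (Ts (PL p.1) p.2)] :
    (Yp A PL p).card = Fintype.card (Ts (PL p.1) p.2) := by
  unfold Yp
  rw [card_map]
  exact (Fintype.card_of_subtype (pV (PL p.1) p.2) fun w => by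
    unfold pV
    simp).symm

/-- neighbours inside the own piece -/
theorem in_Yp (h : Glu C g z x e ρ ζ θ G d A PL X) (p : Fin q × Fin M) (v : V) (h1 : v ∈ Yp A PL p) :
    (1 - ζ p.1) * d ≤ ((nb G v ∩ Yp A PL p).card : ℝ) := by
  obtain ⟨a1, a2, a3⟩ := (mem_Yp A PL p v).1 h1
  have h2 := (h.dq p.1).thd ⟨v, a1⟩ a2
  have h3 := thin_bulk (lG G (A p.1)) (PL p.1) ⟨v, a1⟩
  have h4 := (h.dq p.1).reg ⟨v, a1⟩
  have h5 : (nb (bulk (lG G (A p.1)) (PL p.1)) ⟨v, a1⟩).card ≤ (nb G v ∩ Yp A PL p).card := by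
    rw [← card_map (f := Function.Embedding.subtype (fun v => v ∈ A p.1))]
    refine card_le_card ?_
    intro w hw
    obtain ⟨w', hw', rfl⟩ := mem_map.1 hw
    rw [mem_nb'] at hw'
    rw [mem_inter, mem_nb', mem_Yp]
    refine ⟨hw'.1, w'.2, hw'.2.2.1, ?_⟩
    have h6 : (PL p.1).pc ⟨v, a1⟩ = (PL p.1).pc w' := hw'.2.2.2.1
    exact h6.symm.trans a3
  have h6 : ((nb (thin (lG G (A p.1)) (PL p.1)) ⟨v, a1⟩).card : ℝ) +
      (nb (bulk (lG G (A p.1)) (PL p.1)) ⟨v, a1⟩).card + lex G (A p.1) ⟨v, a1⟩ = d := by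
    exact_mod_cast (by omega : (nb (thin (lG G (A p.1)) (PL p.1)) ⟨v, a1⟩).card +
      (nb (bulk (lG G (A p.1)) (PL p.1)) ⟨v, a1⟩).card + lex G (A p.1) ⟨v, a1⟩ = d)
  have h7 : ((nb (bulk (lG G (A p.1)) (PL p.1)) ⟨v, a1⟩).card : ℝ) ≤
      ((nb G v ∩ Yp A PL p).card : ℝ) := by exact_mod_cast h5
  linarith

theorem card_K (h : Glu C g z x e ρ ζ θ G d A PL X) (p : Fin q × Fin M) (hp : (PL p.1).ty p.2 = Ty.K) :
    (1 - ζ p.1) * d ≤ ((Yp A PL p).card : ℝ) ∧ ((Yp A PL p).card : ℝ) ≤ (1 + g) * d := by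
  have h1 := (h.dq p.1).kL p.2 hp
  have h2 := (h.dq p.1).kU p.2 hp
  rw [← card_Yp] at h1 h2
  exact ⟨h1, h2⟩

/-- neighbours of an absorbed vertex -/
theorem in_Ab (h : Glu C g z x e ρ ζ θ G d A PL X) (p : Fin q × Fin M) (v : V)
    (h1 : Ab G d z A PL v p) : (1 - ζ p.1 - z) * d ≤ ((nb G v ∩ Yp A PL p).card : ℝ) := by
  have h2 := (card_K h p h1.1).1
  have h3 : ((Yp A PL p).card : ℝ) = ((nb G v ∩ Yp A PL p).card : ℝ) +
      ((Yp A PL p \ nb G v).card : ℝ) := by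
    rw [inter_comm]
    exact_mod_cast (card_inter_add_card_sdiff (Yp A PL p) (nb G v)).symm
  have h4 := h1.2
  linarith

/-- two disjoint sets cannot both contain many neighbours -/
theorem two_sets (h : Glu C g z x e ρ ζ θ G d A PL X) (v : V) (S T : Finset V) (hST : Disjoint S T) :
    ((nb G v ∩ S).card : ℝ) + ((nb G v ∩ T).card : ℝ) ≤ d := by
  have h1 : (nb G v ∩ S).card + (nb G v ∩ T).card ≤ d := by
    rw [← h.reg v, ← card_union_of_disjoint]
    · exact card_le_card (union_subset inter_subset_left inter_subset_left)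
    · exact hST.mono inter_subset_right inter_subset_right
  exact_mod_cast h1

theorem Yp_dis (h : Glu C g z x e ρ ζ θ G d A PL X) (p p' : Fin q × Fin M) (hp : p ≠ p') :
    Disjoint (Yp A PL p) (Yp A PL p') := by
  rw [disjoint_left]
  intro v h1 h2
  exact hp (Yp_uniq h p p' v h1 h2)

theorem d_pos (h : Glu C g z x e ρ ζ θ G d A PL X) : (0 : ℝ) < d := by
  have := h.d1
  exact_mod_cast this

theorem Ab_uniq (h : Glu C g z x e ρ ζ θ G d A PL X) (p p' : Fin q × Fin M) (v : V)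
    (h1 : Ab G d z A PL v p) (h2 : Ab G d z A PL v p') : p = p' := by
  by_contra hne
  have h3 := in_Ab h p v h1
  have h4 := in_Ab h p' v h2
  have h5 := two_sets h v _ _ (Yp_dis h p p' hne)
  have := d_pos h
  have := h.z8
  have := h.ζ8 p.1
  have := h.ζ8 p'.1
  nlinarith

theorem Ab_Yp (h : Glu C g z x e ρ ζ θ G d A PL X) (p p' : Fin q × Fin M) (v : V)
    (h1 : Ab G d z A PL v p) (h2 : v ∈ Yp A PL p') : p = p' := by
  by_contra hne
  have h3 := in_Ab h p v h1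
  have h4 := in_Yp h p' v h2
  have h5 := two_sets h v _ _ (Yp_dis h p p' hne)
  have := d_pos h
  have := h.z8
  have := h.ζ8 p.1
  have := h.ζ8 p'.1
  nlinarith

/-- an absorbed vertex which is a light member of a cluster is absorbed by a piece of this cluster -/
theorem Ab_A (h : Glu C g z x e ρ ζ θ G d A PL X) (p : Fin q × Fin M) (v : V)
    (h1 : Ab G d z A PL v p) (i : Fin q) (h2 : v ∈ A i) : p.1 = i := by
  by_contra hne
  have h3 := in_Ab h p v h1
  have h4 := h.lx i v h2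
  have h5 : ((nb G v ∩ Yp A PL p).card : ℝ) ≤ ((nb G v \ A i).card : ℝ) := by
    exact_mod_cast card_le_card (by
      intro w hw
      rw [mem_inter] at hw
      rw [mem_sdiff]
      exact ⟨hw.1, fun h6 => disjoint_left.1 (h.dis _ _ hne) (Yp_sub p hw.2) h6⟩)
  have := d_pos h
  have := h.z8
  have := h.x8
  have := h.ζ8 p.1
  nlinarith

omit [Fintype V] in
theorem Sp_sub (p : Fin q × Fin M) (β : Bool) : Sp A PL p β ⊆ Yp A PL p := by
  intro v hv
  obtain ⟨a1, a2, a3, _⟩ := (mem_Sp A PL p β v).1 hv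
  exact (mem_Yp A PL p v).2 ⟨a1, a2, a3⟩

omit [Fintype V] in
theorem Yp_Sp (p : Fin q × Fin M) : Yp A PL p = Sp A PL p false ∪ Sp A PL p true := by
  ext v
  rw [mem_union, mem_Yp, mem_Sp, mem_Sp]
  constructor
  · rintro ⟨a1, a2, a3⟩
    cases h : (PL p.1).sd ⟨v, a1⟩
    · exact Or.inl ⟨a1, a2, a3, h⟩
    · exact Or.inr ⟨a1, a2, a3, h⟩
  · rintro (⟨a1, a2, a3, _⟩ | ⟨a1, a2, a3, _⟩) <;> exact ⟨a1, a2, a3⟩

omit [Fintype V] in
theorem Sp_dis (p : Fin q × Fin M) (β : Bool) : Disjoint (Sp A PL p β) (Sp A PL p (!β)) := by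
  rw [disjoint_left]
  intro v h1 h2
  obtain ⟨a1, _, _, a4⟩ := (mem_Sp A PL p β v).1 h1
  obtain ⟨b1, _, _, b4⟩ := (mem_Sp A PL p (!β) v).1 h2
  rw [a4] at b4
  cases β <;> cases b4

/-- neighbours in the opposite side of a piece of type B -/
theorem in_Sp (h : Glu C g z x e ρ ζ θ G d A PL X) (p : Fin q × Fin M)
    (hp : (PL p.1).ty p.2 = Ty.B) (β : Bool) (v : V) (h1 : v ∈ Sp A PL p β) :
    (1 - ζ p.1) * d ≤ ((nb G v ∩ Sp A PL p (!β)).card : ℝ) := by
  obtain ⟨a1, a2, a3, a4⟩ := (mem_Sp A PL p β v).1 h1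
  have h2 := (h.dq p.1).thd ⟨v, a1⟩ a2
  have h3 := thin_bulk (lG G (A p.1)) (PL p.1) ⟨v, a1⟩
  have h4 := (h.dq p.1).reg ⟨v, a1⟩
  have h5 : (nb (bulk (lG G (A p.1)) (PL p.1)) ⟨v, a1⟩).card ≤
      (nb G v ∩ Sp A PL p (!β)).card := by
    rw [← card_map (f := Function.Embedding.subtype (fun v => v ∈ A p.1))]
    refine card_le_card ?_
    intro w hw
    obtain ⟨w', hw', rfl⟩ := mem_map.1 hw
    rw [mem_nb'] at hw'
    rw [mem_inter, mem_nb', mem_Sp]
    have h6 : (PL p.1).pc ⟨v, a1⟩ = (PL p.1).pc w' := hw'.2.2.2.1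
    have h7 := hw'.2.2.2.2 (by rw [a3]; exact hp)
    refine ⟨hw'.1, w'.2, hw'.2.2.1, h6.symm.trans a3, ?_⟩
    rw [a4] at h7
    change (PL p.1).sd w' = !β
    cases hs : (PL p.1).sd w' <;> cases β <;> simp_all
  have h6 : ((nb (thin (lG G (A p.1)) (PL p.1)) ⟨v, a1⟩).card : ℝ) +
      (nb (bulk (lG G (A p.1)) (PL p.1)) ⟨v, a1⟩).card + lex G (A p.1) ⟨v, a1⟩ = d := by
    exact_mod_cast (by omega : (nb (thin (lG G (A p.1)) (PL p.1)) ⟨v, a1⟩).card +
      (nb (bulk (lG G (A p.1)) (PL p.1)) ⟨v, a1⟩).card + lex G (A p.1) ⟨v, a1⟩ = d)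
  have h7 : ((nb (bulk (lG G (A p.1)) (PL p.1)) ⟨v, a1⟩).card : ℝ) ≤
      ((nb G v ∩ Sp A PL p (!β)).card : ℝ) := by exact_mod_cast h5
  linarith

theorem card_Sp (h : Glu C g z x e ρ ζ θ G d A PL X) (p : Fin q × Fin M)
    (hp : (PL p.1).ty p.2 = Ty.B) : (Sp A PL p false).card = (Sp A PL p true).card := by
  unfold Sp
  rw [card_map, card_map]
  exact (h.dq p.1).bal p.2 hp

theorem big_Sp (h : Glu C g z x e ρ ζ θ G d A PL X) (p : Fin q × Fin M)
    (hp : (PL p.1).ty p.2 = Ty.B) (hn : (Yp A PL p).Nonempty) (β : Bool) :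
    (1 - ζ p.1) * d ≤ ((Sp A PL p β).card : ℝ) := by
  have key : ∃ β, (1 - ζ p.1) * d ≤ ((Sp A PL p β).card : ℝ) := by
    obtain ⟨v, hv⟩ := hn
    rw [Yp_Sp, mem_union] at hv
    rcases hv with hv | hv
    · refine ⟨true, (in_Sp h p hp false v hv).trans ?_⟩
      exact_mod_cast card_le_card inter_subset_right
    · refine ⟨false, (in_Sp h p hp true v hv).trans ?_⟩
      exact_mod_cast card_le_card inter_subset_right
  have h1 := card_Sp h p hp
  obtain ⟨β', hβ⟩ := key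
  cases β <;> cases β'
  · exact hβ
  · rw [h1]
    exact hβ
  · rw [← h1]
    exact hβ
  · exact hβ

theorem mem_Rg (p : Fin q × Fin M) (β : Bool) (v : V) : v ∈ Rg G d ζ A PL p β ↔
    (∀ p', v ∉ Yp A PL p') ∧ (PL p.1).ty p.2 = Ty.B ∧ (Yp A PL p).Nonempty ∧
    (((nb G v \ Sp A PL p β).card : ℝ) < ζ p.1 / 4 * d ∨
      ((Sp A PL p β \ nb G v).card : ℝ) < ζ p.1 / 4 * d) := by
  unfold Rg
  rw [mem_filter]
  exact ⟨fun h => h.2, fun h => ⟨mem_univ _, h⟩⟩

/-- a rigid vertex has almost all neighbours in the side -/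
theorem out_Rg (h : Glu C g z x e ρ ζ θ G d A PL X) (p : Fin q × Fin M) (β : Bool) (v : V)
    (hv : v ∈ Rg G d ζ A PL p β) : ((nb G v \ Sp A PL p β).card : ℝ) ≤ 5 / 4 * ζ p.1 * d := by
  obtain ⟨_, h2, h3, h4⟩ := (mem_Rg p β v).1 hv
  have hd := d_pos h
  have hz := h.ζ0 p.1
  rcases h4 with h4 | h4
  · nlinarith
  · have h5 := big_Sp h p h2 h3 β
    have h6 : ((nb G v ∩ Sp A PL p β).card : ℝ) + ((nb G v \ Sp A PL p β).card : ℝ) = d := by
      rw [← h.reg v]
      exact_mod_cast card_inter_add_card_sdiff (nb G v) (Sp A PL p β)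
    have h7 : ((nb G v ∩ Sp A PL p β).card : ℝ) + ((Sp A PL p β \ nb G v).card : ℝ) =
        (Sp A PL p β).card := by
      rw [inter_comm]
      exact_mod_cast card_inter_add_card_sdiff (Sp A PL p β) (nb G v)
    nlinarith

theorem in_Rg (h : Glu C g z x e ρ ζ θ G d A PL X) (p : Fin q × Fin M) (β : Bool) (v : V)
    (hv : v ∈ Rg G d ζ A PL p β) : (1 - 5 / 4 * ζ p.1) * d ≤ ((nb G v ∩ Sp A PL p β).card : ℝ) := by
  have h1 := out_Rg h p β v hv
  have h6 : ((nb G v ∩ Sp A PL p β).card : ℝ) + ((nb G v \ Sp A PL p β).card : ℝ) = d := by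
    rw [← h.reg v]
    exact_mod_cast card_inter_add_card_sdiff (nb G v) (Sp A PL p β)
  linarith

theorem Rg_uniq (h : Glu C g z x e ρ ζ θ G d A PL X) (y y' : (Fin q × Fin M) × Bool) (v : V)
    (h1 : v ∈ Rg G d ζ A PL y.1 y.2) (h2 : v ∈ Rg G d ζ A PL y'.1 y'.2) : y = y' := by
  by_contra hne
  have hdis : Disjoint (Sp A PL y.1 y.2) (Sp A PL y'.1 y'.2) := by
    by_cases hp : y.1 = y'.1
    · have hb : y'.2 = !y.2 := by
        by_contra hb
        have hb' : y.2 = y'.2 := by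
          revert hb
          cases y.2 <;> cases y'.2 <;> simp
        exact hne (Prod.ext hp hb')
      rw [← hp, hb]
      exact Sp_dis y.1 y.2
    · exact (Yp_dis h _ _ hp).mono (Sp_sub _ _) (Sp_sub _ _)
  have h3 := in_Rg h _ _ v h1
  have h4 := in_Rg h _ _ v h2
  have h5 := two_sets h v _ _ hdis
  have := d_pos h
  have := h.ζ8 y.1.1
  have := h.ζ8 y'.1.1
  nlinarith

theorem Ab_Rg (h : Glu C g z x e ρ ζ θ G d A PL X) (p p' : Fin q × Fin M) (β : Bool) (v : V)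
    (h1 : Ab G d z A PL v p) (h2 : v ∈ Rg G d ζ A PL p' β) : False := by
  have hne : p ≠ p' := by
    rintro rfl
    have h3 := ((mem_Rg p β v).1 h2).2.1
    rw [h1.1] at h3
    cases h3
  have h3 := in_Ab h p v h1
  have h4 := in_Rg h _ _ v h2
  have h5 := two_sets h v _ _ ((Yp_dis h p p' hne).mono (Subset.refl _) (Sp_sub p' β))
  have := d_pos h
  have := h.z8
  have := h.ζ8 p.1
  have := h.ζ8 p'.1
  nlinarith

/-- the vertices which join the piece `p` -/
noncomputable def Zp (G : SimpleGraph V) (d : ℕ) (z : ℝ) (A : Fin q → Finset V)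
    (PL : ∀ i, Pcs {v // v ∈ A i} M) (X : Fin q × Fin M → Bool → Finset V) (p : Fin q × Fin M) :
    Finset V :=
  univ.filter fun v => (∀ p', v ∉ Yp A PL p') ∧ (Ab G d z A PL v p ∨ ∃ β, v ∈ X p β)

theorem mem_Zp (p : Fin q × Fin M) (v : V) : v ∈ Zp G d z A PL X p ↔
    (∀ p', v ∉ Yp A PL p') ∧ (Ab G d z A PL v p ∨ ∃ β, v ∈ X p β) := by
  unfold Zp
  rw [mem_filter]
  exact ⟨fun h => h.2, fun h => ⟨mem_univ _, h⟩⟩

theorem X_Yp (h : Glu C g z x e ρ ζ θ G d A PL X) (p p' : Fin q × Fin M) (β : Bool) (v : V)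
    (hv : v ∈ X p β) : v ∉ Yp A PL p' := ((mem_Rg _ _ v).1 (h.XR p β hv)).1 p'

theorem jn_Ab (h : Glu C g z x e ρ ζ θ G d A PL X) (p : Fin q × Fin M) (v : V)
    (hv : Ab G d z A PL v p) : jn G d z A PL X v = some (p, false) := by
  unfold jn
  have h3 : ∃ p, Ab G d z A PL v p := ⟨p, hv⟩
  rw [dif_pos h3, Ab_uniq h _ _ v h3.choose_spec hv]

theorem jn_X (h : Glu C g z x e ρ ζ θ G d A PL X) (p : Fin q × Fin M) (β : Bool) (v : V)
    (hv : v ∈ X p β) : jn G d z A PL X v = some (p, β) := by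
  unfold jn
  have h3 : ¬ ∃ p, Ab G d z A PL v p := by
    rintro ⟨p', h4⟩
    exact Ab_Rg h p' p _ v h4 (h.XR p β hv)
  have h4 : ∃ y : (Fin q × Fin M) × Bool, v ∈ X y.1 y.2 := ⟨(p, β), hv⟩
  rw [dif_neg h3, dif_pos h4]
  have h5 := Rg_uniq h (h4.choose.1, !h4.choose.2) (p, !β) v (h.XR _ _ h4.choose_spec)
    (h.XR p β hv)
  have h6 : h4.choose.1 = p := congrArg Prod.fst h5
  have h7 : (!h4.choose.2) = !β := congrArg Prod.snd h5
  have h8 : h4.choose.2 = β := by
    have := congrArg (fun b => !b) h7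
    simpa using this
  rw [← h6, ← h8]

theorem jn_none (v : V) : jn G d z A PL X v = none ↔
    (∀ p, ¬ Ab G d z A PL v p) ∧ ∀ p β, v ∉ X p β := by
  unfold jn
  by_cases h3 : ∃ p, Ab G d z A PL v p
  · rw [dif_pos h3]
    constructor
    · intro h4
      cases h4
    · intro h4
      obtain ⟨p, hp⟩ := h3
      exact absurd hp (h4.1 p)
  · rw [dif_neg h3]
    by_cases h4 : ∃ y : (Fin q × Fin M) × Bool, v ∈ X y.1 y.2
    · rw [dif_pos h4]
      constructor
      · intro h5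
        cases h5
      · intro h5
        obtain ⟨y, hy⟩ := h4
        exact absurd hy (h5.2 _ _)
    · rw [dif_neg h4]
      exact ⟨fun _ => ⟨fun p hp => h3 ⟨p, hp⟩, fun p β hp => h4 ⟨(p, β), hp⟩⟩, fun _ => rfl⟩

theorem ix_iff (h : Glu C g z x e ρ ζ θ G d A PL X) (v : V) (p : Fin q × Fin M) :
    ix G d z A PL X v = some p ↔ v ∈ Yp A PL p ∨ v ∈ Zp G d z A PL X p := by
  rw [mem_Zp]
  unfold ix
  by_cases h1 : ∃ p, v ∈ Yp A PL p
  · rw [dif_pos h1]
    constructor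
    · intro h2
      left
      rw [← Option.some.inj h2]
      exact h1.choose_spec
    · rintro (h2 | h2)
      · rw [Yp_uniq h _ _ v h1.choose_spec h2]
      · exact absurd h1.choose_spec (h2.1 _)
  · rw [dif_neg h1]
    have h1' : ∀ p', v ∉ Yp A PL p' := fun p' h2 => h1 ⟨p', h2⟩
    rcases hj : jn G d z A PL X v with _ | ⟨p0, β0⟩
    · rw [Option.map_none]
      obtain ⟨h2, h3⟩ := (jn_none v).1 hj
      constructor
      · intro h4
        cases h4
      · rintro (h4 | ⟨_, h4 | ⟨β, h4⟩⟩)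
        · exact absurd h4 (h1' _)
        · exact absurd h4 (h2 _)
        · exact absurd h4 (h3 _ _)
    · rw [Option.map_some]
      have h2 : Ab G d z A PL v p0 ∨ v ∈ X p0 β0 := by
        by_cases h3 : ∃ p, Ab G d z A PL v p
        · obtain ⟨p1, h3⟩ := h3
          rw [jn_Ab h p1 v h3] at hj
          have := congrArg (fun y => y.1) (Option.some.inj hj)
          simp only at this
          rw [← this]
          exact Or.inl h3
        · by_cases h4 : ∃ y : (Fin q × Fin M) × Bool, v ∈ X y.1 y.2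
          · obtain ⟨⟨p1, β1⟩, h4⟩ := h4
            rw [jn_X h p1 β1 v h4] at hj
            have h5 := Option.some.inj hj
            have h6 : p1 = p0 := congrArg Prod.fst h5
            have h7 : β1 = β0 := congrArg Prod.snd h5
            rw [← h6, ← h7]
            exact Or.inr h4
          · have h5 := (jn_none (G := G) (d := d) (z := z) (A := A) (PL := PL) (X := X) v).2
              ⟨fun p hp => h3 ⟨p, hp⟩, fun p β hp => h4 ⟨(p, β), hp⟩⟩
            rw [h5] at hj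
            cases hj
      constructor
      · intro h3
        have h4 : p0 = p := Option.some.inj h3
        rw [← h4]
        exact Or.inr ⟨h1', h2.imp id fun h5 => ⟨β0, h5⟩⟩
      · rintro (h3 | ⟨_, h3 | ⟨β, h3⟩⟩)
        · exact absurd h3 (h1' _)
        · rw [jn_Ab h p v h3] at hj
          have := congrArg Prod.fst (Option.some.inj hj)
          rw [← this]
        · rw [jn_X h p β v h3] at hj
          have := congrArg Prod.fst (Option.some.inj hj)
          rw [← this]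

theorem gl_V0 (v : V) : v ∈ (gl G d z ζ A PL X).V0 ↔ ix G d z A PL X v = none := by
  change v ∈ univ.filter (fun v => ix G d z A PL X v = none) ↔ _
  rw [mem_filter]
  exact ⟨fun h => h.2, fun h => ⟨mem_univ _, h⟩⟩

theorem gl_mem (v : V) (n : Fin (q * M + 1)) :
    (v ∉ (gl G d z ζ A PL X).V0 ∧ (gl G d z ζ A PL X).pc v = n) ↔
      ∃ p, n = eN q M (some p) ∧ ix G d z A PL X v = some p := by
  rw [gl_V0]
  change (¬ ix G d z A PL X v = none ∧ eN q M (ix G d z A PL X v) = n) ↔ _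
  constructor
  · rintro ⟨h1, h2⟩
    obtain ⟨p, hp⟩ := Option.ne_none_iff_exists'.1 h1
    exact ⟨p, by rw [← h2, hp], hp⟩
  · rintro ⟨p, h1, h2⟩
    rw [h2]
    exact ⟨Option.some_ne_none p, h1.symm⟩

theorem gl_mem' (v : V) (p : Fin q × Fin M) :
    (v ∉ (gl G d z ζ A PL X).V0 ∧ (gl G d z ζ A PL X).pc v = eN q M (some p)) ↔
      ix G d z A PL X v = some p := by
  rw [gl_mem]
  constructor
  · rintro ⟨p', h1, h2⟩
    have h3 := (eN q M).injective h1
    rw [Option.some.inj h3]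
    exact h2
  · intro h1
    exact ⟨p, rfl, h1⟩

theorem gl_ty (p : Fin q × Fin M) (hp : (Yp A PL p).Nonempty) :
    (gl G d z ζ A PL X).ty (eN q M (some p)) = (PL p.1).ty p.2 := by
  change tyN A PL ((eN q M).symm (eN q M (some p))) = _
  rw [Equiv.symm_apply_apply]
  change (if (Yp A PL p).Nonempty then (PL p.1).ty p.2 else Ty.E) = _
  rw [if_pos hp]

/-- a number with a type different from `E` -/
theorem gl_ty' (n : Fin (q * M + 1)) (hn : (gl G d z ζ A PL X).ty n ≠ Ty.E) :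
    ∃ p, n = eN q M (some p) ∧ (Yp A PL p).Nonempty ∧
      (gl G d z ζ A PL X).ty n = (PL p.1).ty p.2 := by
  change tyN A PL ((eN q M).symm n) ≠ Ty.E at hn
  rcases h : (eN q M).symm n with _ | p
  · rw [h] at hn
    exact absurd rfl hn
  · rw [h] at hn
    have h1 : n = eN q M (some p) := by rw [← h, Equiv.apply_symm_apply]
    have h2 : (Yp A PL p).Nonempty := by
      by_contra h3
      apply hn
      change (if (Yp A PL p).Nonempty then (PL p.1).ty p.2 else Ty.E) = _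
      rw [if_neg h3]
    refine ⟨p, h1, h2, ?_⟩
    rw [h1]
    exact gl_ty p h2

/-- only pieces of types K and B are joined -/
theorem Zp_ty (h : Glu C g z x e ρ ζ θ G d A PL X) (p : Fin q × Fin M) (v : V)
    (hv : v ∈ Zp G d z A PL X p) : (PL p.1).ty p.2 = Ty.K ∨ (PL p.1).ty p.2 = Ty.B := by
  rcases ((mem_Zp p v).1 hv).2 with h1 | ⟨β, h1⟩
  · exact Or.inl h1.1
  · exact Or.inr ((mem_Rg _ _ v).1 (h.XR p β h1)).2.1

theorem gl_sd (h : Glu C g z x e ρ ζ θ G d A PL X) (p : Fin q × Fin M) (v : {v // v ∈ A p.1})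
    (h1 : v ∉ (PL p.1).V0 ∧ (PL p.1).pc v = p.2) :
    (gl G d z ζ A PL X).sd v.1 = (PL p.1).sd v := by
  have h2 : ∃ p, v.1 ∈ Yp A PL p := ⟨p, (mem_Yp A PL p v.1).2 ⟨v.2, h1⟩⟩
  change (if ∃ p, v.1 ∈ Yp A PL p then pick A (fun i w => (PL i).sd w) false v.1
    else ((jn G d z A PL X v.1).map Prod.snd).getD false) = _
  rw [if_pos h2]
  exact pick_eq A (fun i w => (PL i).sd w) false h.dis p.1 v.1 v.2

/-- **Transport**: pieces of type N. -/
theorem gl_tr (h : Glu C g z x e ρ ζ θ G d A PL X) (p : Fin q × Fin M)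
    (hp : (Yp A PL p).Nonempty) (hN : (PL p.1).ty p.2 = Ty.N) :
    Tr (lG G (A p.1)) G (PL p.1) (gl G d z ζ A PL X) (fun v => v.1) p.2 (eN q M (some p)) where
  inj := Subtype.val_injective
  adj v w := Iff.rfl
  mem v := by
    rw [gl_mem', ix_iff h, mem_Yp]
    constructor
    · rintro (⟨_, h2⟩ | h2)
      · exact h2
      · rcases Zp_ty h p _ h2 with h3 | h3 <;> rw [hN] at h3 <;> cases h3
    · intro h1
      exact Or.inl ⟨v.2, h1⟩
  rng v h1 h2 := by
    have h3 := (gl_mem' v p).1 ⟨h1, h2⟩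
    rw [ix_iff h, mem_Yp] at h3
    rcases h3 with ⟨h4, _⟩ | h3
    · exact ⟨⟨v, h4⟩, rfl⟩
    · rcases Zp_ty h p _ h3 with h4 | h4 <;> rw [hN] at h4 <;> cases h4
  ty := gl_ty p hp
  sd v h1 := gl_sd h p v h1

end basic

end Pool.Agent.Work.MP_db9399_dx
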