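import Pool.Agent.Work.MP_db9399_xf_helper62.XFrame

/-!
# MP_db9399, all scales: monotonicity of `PcD`, `PcX` in the parameters (helper26)
-/

set_option autoImplicit false

namespace Pool.Agent.Work.MP_db9399_dx

open Finset Classical
open Pool.Agent.Work.MP_db9399_all (nb)
open Pool.Agent.Work.MP_db9399_da
open Pool.Agent.Work.MP_db9399_xf

universe u

section mono
variable {V : Type u} [Fintype V] {N J : ℕ}

/-- `S'` is weaker than `S` -/
structure SLe (S S' : Fin J → Scl) : Prop where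
  ζ : ∀ j, (S' j).ζ = (S j).ζ
  ρ : ∀ j, (S' j).ρ ≤ (S j).ρ
  θ : ∀ j, (S j).θ ≤ (S' j).θ
  ε : ∀ j, (S j).ε ≤ (S' j).ε

theorem SLe.refl (S : Fin J → Scl) : SLe S S :=
  ⟨fun _ => rfl, fun _ => le_refl _, fun _ => le_refl _, fun _ => le_refl _⟩

/-- **Monotonicity of the structure of the pieces.** -/
theorem PcD.mono {C g z θk θ' η a C' g' z' θk' θ'' η' a' : ℝ} {M M' : ℕ} {S S' : Fin J → Scl}
    {G : SimpleGraph V} {d : ℕ} {X : XD V N J} (h : PcD C g z θk θ' η a M S G d X)
    (hC : C ≤ C') (hg : g' ≤ g) (hz : z' ≤ z) (hθk : θk ≤ θk') (hθ' : θ' ≤ θ'') (hη : η ≤ η')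
    (ha : a ≤ a') (hM : M ≤ M') (hS : SLe S S') :
    PcD C' g' z' θk' θ'' η' a' M' S' G d X := by
  have hd : (0 : ℝ) ≤ d := Nat.cast_nonneg _
  have mul : ∀ {x y : ℝ} (s : ℝ), 0 ≤ s → x ≤ y → x * s ≤ y * s :=
    fun s hs hxy => mul_le_mul_of_nonneg_right hxy hs
  refine
    { reg := h.reg
      emp := h.emp
      cln := h.cln, clp := h.clp, scq := h.scq
      clc := fun k => (h.clc k).trans (mul _ hd hC)
      npc := fun k => (h.npc k).trans hM
      out := fun v h1 h2 => (h.out v h1 h2).trans (mul _ hd ha)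
      hvc := fun n h1 => (h.hvc n h1).trans (mul _ hd ha)
      xs := fun n => (h.xs n).trans (mul _ (by positivity) ha)
      v0c := fun v h1 => (h.v0c v h1).trans (mul _ hd (hS.θ _))
      kL := fun n hn => (mul _ hd (by linarith)).trans (h.kL n hn)
      kU := fun n hn => (h.kU n hn).trans (mul _ hd (by linarith))
      kd := fun v hv => (mul _ hd (by linarith)).trans (h.kd v hv)
      ki := fun v hv => (h.ki v hv).trans (mul _ hd hθk)
      kl := fun v hv => (mul _ hd (by linarith)).trans (h.kl v hv)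
      ks := fun n hn => (h.ks n hn).trans (mul _ (Nat.cast_nonneg _) (mul _ hd hη))
      kh := fun n hn => (h.kh n hn).trans (mul _ (Nat.cast_nonneg _) hη)
      kz := fun n hn w hw => (mul _ hd hz).trans (h.kz n hn w hw)
      thd := ?_
      ths := fun n hn => (h.ths n hn).trans (mul _ (by positivity) (hS.θ _))
      nL := fun n hn => (mul _ hd (by linarith)).trans (h.nL n hn)
      n4 := h.n4
      bE := h.bE
      cut := ?_, nbi := ?_, bN := h.bN
      rgT := h.rgT, rgd := ?_, rgp := h.rgp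
      rgc := fun n h1 => (h.rgc n h1).trans (mul _ hd ha)
      rgm := ?_ }
  · intro v hv
    rw [hS.ζ]
    exact h.thd v hv
  · intro n hn T
    refine le_trans ?_ (h.cut n hn T)
    exact mul _ (Nat.cast_nonneg _) (mul _ (Nat.cast_nonneg _) (hS.ρ _))
  · intro n hn T
    refine le_trans ?_ (h.nbi n hn T)
    exact mul _ (by positivity) (hS.ρ _)
  · intro w n β hr
    rw [hS.ζ]
    exact h.rgd w n β hr
  · intro n hn w hw β hr
    rw [hS.ζ]
    exact h.rgm n hn w hw β hr

/-- Monotonicity of the labels. -/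
theorem PcL.mono {η η' : ℝ} {S S' : Fin J → Scl} {G : SimpleGraph V} {d : ℕ} {X : XD V N J}
    (h : PcL S η G d X) (hη : η ≤ η') (hS : SLe S S') : PcL S' η' G d X := by
  have hd : (0 : ℝ) ≤ d := Nat.cast_nonneg _
  have mul : ∀ {x y : ℝ} (s : ℝ), 0 ≤ s → x ≤ y → x * s ≤ y * s :=
    fun s hs hxy => mul_le_mul_of_nonneg_right hxy hs
  refine
    { kC := fun n hn i l => (h.kC n hn i l).trans (mul _ hd hη)
      cutP := ?_
      nS := h.nS
      nD := fun n hn v β i => (h.nD n hn v β i).trans (mul _ hd (hS.ε _))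
      bB := h.bB, bS := h.bS
      bD := fun n hn v i => (h.bD n hn v i).trans (mul _ hd (hS.ε _))
      thq := fun n hn i => (h.thq n hn i).trans (mul _ hd (hS.ε _))
      lbw := ?_ }
  · intro n hn i T hT
    refine le_trans ?_ (h.cutP n hn i T hT)
    exact mul _ (Nat.cast_nonneg _) (mul _ (Nat.cast_nonneg _) (hS.ρ _))
  · intro n hn w hw β i h1
    rw [hS.ζ] at h1
    exact h.lbw n hn w hw β i h1

/-- Monotonicity of the pieces with labels. -/
theorem PcX.mono {C g z θk θ' η a C' g' z' θk' θ'' η' a' : ℝ} {M M' : ℕ} {S S' : Fin J → Scl}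
    {G : SimpleGraph V} {d : ℕ} {X : XD V N J} (h : PcX C g z θk θ' η a M S G d X)
    (hC : C ≤ C') (hg : g' ≤ g) (hz : z' ≤ z) (hθk : θk ≤ θk') (hθ' : θ' ≤ θ'') (hη : η ≤ η')
    (ha : a ≤ a') (hM : M ≤ M') (hS : SLe S S') :
    PcX C' g' z' θk' θ'' η' a' M' S' G d X :=
  ⟨PcD.mono h.toPcD hC hg hz hθk hθ' hη ha hM hS, PcL.mono h.toPcL hη hS⟩

/-- Monotonicity of the conditions at the pieces of type K. -/
theorem TcX.mono {η η' : ℝ} {G : SimpleGraph V} {d : ℕ} {X : XD V N J} {A : PalX}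
    {t : V → V → ℕ} (h : TcX η G d X A t) (hη : η ≤ η') : TcX η' G d X A t :=
  { h with
    lK := fun n hn b => (h.lK n hn b).trans
      (mul_le_mul_of_nonneg_right hη (Nat.cast_nonneg _)) }

end mono

end Pool.Agent.Work.MP_db9399_dx
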