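import Pool.Agent.Work.MP_db9399_dx_helper26.FinalB

/-!
# MP_db9399, all scales, DECX: the structure `PcD`, assembly (helper26)
-/

set_option autoImplicit false

namespace Pool.Agent.Work.MP_db9399_dx

open Finset Classical
open Pool.Agent.Work.MP_db9399_all (nb)
open Pool.Agent.Work.MP_db9399_da
open Pool.Agent.Work.MP_db9399_cl.helper26 (DecQ)
open Pool.Agent.Work.MP_db9399_xf

universe u v

section fin
variable {V : Type u} [Fintype V] {q M J : ℕ} {C g z x e : ℝ} {ρ ζ θ : Fin q → ℝ}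
  {G : SimpleGraph V} {d : ℕ} {A : Fin q → Finset V} {PL : ∀ i, Pcs {v // v ∈ A i} M}
  {X : Fin q × Fin M → Bool → Finset V} {Hh : Fin q → Finset V} {Fb : Fin q × Fin M → Bool}
  {s0 : Fin J} {s : Fin q → Fin J}

theorem k_size (h : Fnl C g z x e ρ ζ θ G d A PL X Hh Fb) (p : Fin q × Fin M)
    (hp : (PL p.1).ty p.2 = Ty.K) :
    (1 - ζ p.1) * d ≤ ((Yp A PL p ∪ Zp G d z A PL X p).card : ℝ) ∧
    ((Yp A PL p ∪ Zp G d z A PL X p).card : ℝ) ≤ (1 + g + 2 * θ p.1) * d := by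
  obtain ⟨h1, h2⟩ := lowYK h p hp
  have h3 := card_ZpK h.toGlu p hp
  rw [card_union_of_disjoint (dis_YZ p p)]
  push_cast
  have h4 : (0 : ℝ) ≤ ((Zp G d z A PL X p).card : ℝ) := Nat.cast_nonneg _
  constructor
  · linarith
  · nlinarith

/-- **The structure `PcD`.** -/
theorem pcd (h : Fnl C g z x e ρ ζ θ G d A PL X Hh Fb) (S : Fin J → Scl)
    (θk θ' η a C' : ℝ) (hC0 : 0 ≤ C) (hC : C + 1 ≤ C') (he0 : 0 ≤ e) (he : e ≤ 1)
    (hSζ : ∀ i, (S (s i)).ζ = 2 * ζ i) (hSθ : ∀ i, (S (s i)).θ = 2 * θ i)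
    (hSρ : ∀ i, 0 ≤ (S (s i)).ρ ∧ 4 * (S (s i)).ρ ≤ ρ i ∧ 4 * (S (s i)).ρ * (C + 1) ≤ 1)
    (heθ : ∀ i, e ≤ θ i) (he4 : 4 * e ≤ 1 / 8) (hx0 : 0 ≤ x) (ha : x ≤ a) (ha2 : 2 * e ≤ a)
    (ha3 : C * x + e ≤ a) (hη : 0 ≤ η) (hgk : g ≤ θk / 4) (hzk : z ≤ θk / 4)
    (hζk : ∀ i, ζ i ≤ θk / 8) (hθk : ∀ i, θ i ≤ θk / 16) (hζθ' : ∀ i, ζ i ≤ θ')
    (hθη : ∀ i, θ i ≤ η / 4) :
    PcD C' g z θk θ' η a M S G d (XF G d z ζ A PL X Hh Fb s0 s) := by
  have hd := d_pos h.toGlu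
  have ha0 : 0 ≤ a := hx0.trans ha
  have hθk0 : ∀ i : Fin q, 0 ≤ θk := fun i => by
    have h1 := h.ζ0 i
    have h2 := hζk i
    linarith
  have hsc : ∀ p : Fin q × Fin M,
      (XF G d z ζ A PL X Hh Fb s0 s).sc (eN q M (some p)) = s p.1 := fun p => atN_some _ _ p
  refine
    { reg := h.reg
      emp := fun n hn => gl_emp h.toGlu n hn
      cln := ?_, clp := ?_, scq := ?_, clc := ?_, npc := ?_, out := ?_, hvc := ?_, xs := ?_
      v0c := ?_, kL := ?_, kU := ?_, kd := ?_, ki := ?_, kl := ?_, ks := ?_, kh := ?_, kz := ?_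
      thd := ?_, ths := ?_, nL := ?_, n4 := ?_, bE := ?_, cut := ?_, nbi := ?_, bN := ?_, rgT := ?_
      rgd := ?_, rgp := ?_, rgc := ?_, rgm := ?_ }
  · -- cln
    intro v hv
    obtain ⟨p, h1, h2⟩ := glF_YZ h v hv
    change cqX A Hh v ≠ none
    rw [glF_cq h v p h2]
    exact Option.some_ne_none _
  · -- clp
    intro v w hv hw hvw
    obtain ⟨p, h1, h2⟩ := glF_YZ h v hv
    obtain ⟨p', h3, h4⟩ := glF_YZ h w hw
    have h5 : eN q M (some p) = eN q M (some p') := h1.symm.trans (hvw.trans h3)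
    have h6 : p = p' := Option.some.inj ((eN q M).injective h5)
    change cqX A Hh v = cqX A Hh w
    rw [glF_cq h v p h2, glF_cq h w p' h4, h6]
  · -- scq
    intro v w hv hw hvw
    obtain ⟨p, h1, h2⟩ := glF_YZ h v hv
    obtain ⟨p', h3, h4⟩ := glF_YZ h w hw
    have hvw' : cqX A Hh v = cqX A Hh w := hvw
    rw [glF_cq h v p h2, glF_cq h w p' h4] at hvw'
    have h5 : p.1 = p'.1 := Fin.ext (Option.some.inj hvw')
    change (XF G d z ζ A PL X Hh Fb s0 s).sc ((glF G d z ζ A PL X Fb).pc v) =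
      (XF G d z ζ A PL X Hh Fb s0 s).sc ((glF G d z ζ A PL X Fb).pc w)
    rw [h1, h3, hsc, hsc, h5]
  · -- clc
    intro k
    refine (f_clc h k (by linarith)).trans ?_
    exact mul_le_mul_of_nonneg_right (by linarith) hd.le
  · -- npc
    intro k
    exact f_npc h k
  · -- out
    intro v hv hvH
    obtain ⟨p, h1, h2⟩ := glF_YZ h v hv
    have h3 : v ∈ Yp A PL p := by
      rcases mem_union.1 h2 with h3 | h3
      · exact h3
      · exact absurd (mem_filter.2 ⟨mem_univ _, p, h3⟩) hvH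
    refine (f_out h p.1 v (Yp_sub p h3)).trans ?_
    exact mul_le_mul_of_nonneg_right ha hd.le
  · -- hvc
    intro n hn
    refine (f_hvc h n hn).trans ?_
    exact mul_le_mul_of_nonneg_right ha2 hd.le
  · -- xs
    intro n
    exact f_xs h n a ha0 hx0 ha3
  · -- v0c
    intro v hv
    obtain ⟨p, h1, h2⟩ := glF_YZ h v hv
    have h3 : (XF G d z ζ A PL X Hh Fb s0 s).P.pc v = eN q M (some p) := h1
    have h4 : (XF G d z ζ A PL X Hh Fb s0 s).cq v = some p.1.val := glF_cq h v p h2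
    rw [h3, hsc, h4, hSθ]
    refine (f_v0c h p.1).trans ?_
    have := heθ p.1
    exact mul_le_mul_of_nonneg_right (by linarith) hd.le
  · -- kL
    intro n hn
    obtain ⟨p, h1, h2, h3⟩ := glF_ty' n Ty.K (by decide) hn
    change _ ≤ ((pV (glF G d z ζ A PL X Fb) n).card : ℝ)
    rw [h1, glF_pV h p]
    have h4 := (k_size h p h3).1
    have := hζk p.1
    have := hθk0 p.1
    nlinarith
  · -- kU
    intro n hn
    obtain ⟨p, h1, h2, h3⟩ := glF_ty' n Ty.K (by decide) hn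
    change ((pV (glF G d z ζ A PL X Fb) n).card : ℝ) ≤ _
    rw [h1, glF_pV h p]
    have h4 := (k_size h p h3).2
    have := hθk p.1
    have := hθk0 p.1
    nlinarith
  · -- kd
    intro v hv
    obtain ⟨p, h1, h2, h3, h4⟩ := InT_p h s0 s Ty.K (by decide) v hv
    have h5 : (XF G d z ζ A PL X Hh Fb s0 s).P.pc v = eN q M (some p) := h1
    rw [h5]
    change _ ≤ ((nb G v ∩ pV (glF G d z ζ A PL X Fb) (eN q M (some p))).card : ℝ)
    rw [glF_pV h p]
    have h6 := in_K h.toGlu h.z0 p h3 v h4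
    have := hζk p.1
    have := hθk0 p.1
    nlinarith
  · -- ki
    intro v hv
    obtain ⟨p, h1, h2, h3, h4⟩ := InT_p h s0 s Ty.K (by decide) v hv
    have h5 : (XF G d z ζ A PL X Hh Fb s0 s).P.pc v = eN q M (some p) := h1
    rw [h5]
    change ((pV (glF G d z ζ A PL X Fb) (eN q M (some p)) \ nb G v).card : ℝ) ≤ _
    rw [glF_pV h p]
    have h6 := in_K h.toGlu h.z0 p h3 v h4
    have h7 := (k_size h p h3).2
    have h8 : (((Yp A PL p ∪ Zp G d z A PL X p) ∩ nb G v).card : ℝ) +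
        (((Yp A PL p ∪ Zp G d z A PL X p) \ nb G v).card : ℝ) =
        (Yp A PL p ∪ Zp G d z A PL X p).card := by
      exact_mod_cast card_inter_add_card_sdiff _ _
    rw [inter_comm] at h8
    have := hζk p.1
    have := hθk p.1
    have := hθk0 p.1
    nlinarith
  · -- kl
    intro v hv
    obtain ⟨hv1, hv2⟩ := hv
    obtain ⟨p, h1, h2, h3, h4⟩ := InT_p h s0 s Ty.K (by decide) v hv1
    have h5 : (XF G d z ζ A PL X Hh Fb s0 s).P.pc v = eN q M (some p) := h1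
    rw [h5]
    change _ ≤ ((nb G v ∩ pV (glF G d z ζ A PL X Fb) (eN q M (some p))).card : ℝ)
    rw [glF_pV h p]
    have h6 : v ∈ Yp A PL p := by
      rcases mem_union.1 h4 with h6 | h6
      · exact h6
      · exact absurd (mem_filter.2 ⟨mem_univ _, p, h6⟩) hv2
    have h7 := in_Yp h.toGlu p v h6
    have h8 : ((nb G v ∩ Yp A PL p).card : ℝ) ≤
        ((nb G v ∩ (Yp A PL p ∪ Zp G d z A PL X p)).card : ℝ) := by
      exact_mod_cast card_le_card (inter_subset_inter_left subset_union_left)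
    have := hζθ' p.1
    nlinarith
  · -- ks
    intro n hn
    obtain ⟨p, h1, h2, h3⟩ := glF_ty' n Ty.K (by decide) hn
    change ∑ v ∈ pV (glF G d z ζ A PL X Fb) n,
      ((d : ℝ) - (nb G v ∩ pV (glF G d z ζ A PL X Fb) n).card) ≤
      η * d * (pV (glF G d z ζ A PL X Fb) n).card
    rw [h1, glF_pV h p]
    refine (sum_K h.toGlu h.z0 p h3).trans ?_
    have h4 := (k_size h p h3).1
    have := h.ζ8 p.1
    have := hθη p.1
    have h5 : (d : ℝ) / 2 ≤ ((Yp A PL p ∪ Zp G d z A PL X p).card : ℝ) := by nlinarith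
    calc 2 * θ p.1 * (d : ℝ) ^ 2 ≤ (η / 2) * (d : ℝ) ^ 2 :=
          mul_le_mul_of_nonneg_right (by linarith) (by positivity)
      _ = η * d * (d / 2) := by ring
      _ ≤ _ := mul_le_mul_of_nonneg_left h5 (by positivity)
  · -- kh
    intro n hn
    obtain ⟨p, h1, h2, h3⟩ := glF_ty' n Ty.K (by decide) hn
    change ((pV (glF G d z ζ A PL X Fb) n ∩
      (univ.filter fun v => ∃ p, v ∈ Zp G d z A PL X p)).card : ℝ) ≤
      η * (pV (glF G d z ζ A PL X Fb) n).card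
    rw [h1]
    refine (f_kh h p h3).trans ?_
    rw [glF_pV h p]
    have h4 := (k_size h p h3).1
    have := h.ζ8 p.1
    have := hθη p.1
    have h5 : (d : ℝ) / 2 ≤ ((Yp A PL p ∪ Zp G d z A PL X p).card : ℝ) := by nlinarith
    calc 2 * θ p.1 * d ≤ (η / 2) * d := mul_le_mul_of_nonneg_right (by linarith) hd.le
      _ = η * (d / 2) := by ring
      _ ≤ _ := mul_le_mul_of_nonneg_left h5 hη
  · -- kz
    intro n hn w hw
    obtain ⟨p, h1, h2, h3⟩ := glF_ty' n Ty.K (by decide) hn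
    have hw' : w ∉ pV (glF G d z ζ A PL X Fb) n := hw
    rw [h1, glF_pV h p] at hw'
    change z * d ≤ ((pV (glF G d z ζ A PL X Fb) n \ nb G w).card : ℝ)
    rw [h1, glF_pV h p]
    refine (miss_K h.toGlu p h3 w hw').trans ?_
    exact_mod_cast card_le_card (sdiff_subset_sdiff subset_union_left (Subset.refl _))
  · -- thd
    intro v hv
    obtain ⟨p, h1, h3, h4⟩ : ∃ p, (glF G d z ζ A PL X Fb).pc v = eN q M (some p) ∧
        ((PL p.1).ty p.2 = Ty.N ∨ (PL p.1).ty p.2 = Ty.B) ∧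
        v ∈ Yp A PL p ∪ Zp G d z A PL X p := by
      rcases hv with hv | hv
      · obtain ⟨p, h1, h2, h3, h4⟩ := InT_p h s0 s Ty.N (by decide) v hv
        exact ⟨p, h1, Or.inl h3, h4⟩
      · obtain ⟨p, h1, h2, h3, h4⟩ := InT_p h s0 s Ty.B (by decide) v hv
        exact ⟨p, h1, Or.inr h3, h4⟩
    have h5 : (XF G d z ζ A PL X Hh Fb s0 s).P.pc v = eN q M (some p) := h1
    rw [h5, hsc, hSζ]
    exact f_thd h v p h4 h3
  · -- ths
    intro n hn
    obtain ⟨p, h1, h3⟩ : ∃ p, n = eN q M (some p) ∧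
        ((PL p.1).ty p.2 = Ty.N ∨ (PL p.1).ty p.2 = Ty.B) := by
      rcases hn with hn | hn
      · obtain ⟨p, h1, h2, h3⟩ := glF_ty' n Ty.N (by decide) hn
        exact ⟨p, h1, Or.inl h3⟩
      · obtain ⟨p, h1, h2, h3⟩ := glF_ty' n Ty.B (by decide) hn
        exact ⟨p, h1, Or.inr h3⟩
    rw [h1, hsc, hSθ]
    exact f_ths h p h3 (heθ p.1)
  · -- nL
    intro n hn
    obtain ⟨p, h1, h2, h3⟩ := glF_ty' n Ty.N (by decide) hn
    subst h1
    exact f_nL h p h2 h3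
  · -- n4
    intro n hn
    obtain ⟨p, h1, h2, h3⟩ := glF_ty' n Ty.N (by decide) hn
    subst h1
    exact f_n4 h p h2 h3
  · -- bE
    intro n hn
    exact f_bE h n hn
  · -- cut
    intro n hn
    obtain ⟨p, h1, h2, h3⟩ : ∃ p, n = eN q M (some p) ∧ (Yp A PL p).Nonempty ∧
        ((PL p.1).ty p.2 = Ty.N ∨ (PL p.1).ty p.2 = Ty.B) := by
      rcases hn with hn | hn
      · obtain ⟨p, h1, h2, h3⟩ := glF_ty' n Ty.N (by decide) hn
        exact ⟨p, h1, h2, Or.inl h3⟩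
      · obtain ⟨p, h1, h2, h3⟩ := glF_ty' n Ty.B (by decide) hn
        exact ⟨p, h1, h2, Or.inr h3⟩
    subst h1
    intro T
    rw [hsc]
    obtain ⟨b1, b2, b3⟩ := hSρ p.1
    exact f_cut h p h2 h3 _ b1 b2 b3 he4 T
  · -- nbi
    intro n hn
    obtain ⟨p, h1, h2, h3⟩ := glF_ty' n Ty.N (by decide) hn
    subst h1
    intro T
    rw [hsc]
    obtain ⟨b1, b2, b3⟩ := hSρ p.1
    exact f_nbi h p h2 h3 _ b1 b2 T
  · -- bN
    intro n hn
    obtain ⟨p, h1, h2, h3⟩ := glF_ty' n Ty.B (by decide) hn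
    change (pV (glF G d z ζ A PL X Fb) n).Nonempty
    rw [h1, glF_pV h p]
    exact h2.mono subset_union_left
  · -- rgT
    intro w n β hr
    obtain ⟨h1, h2, _⟩ := f_rg h w n β hr
    exact ⟨h1, h2⟩
  · -- rgd
    intro w n β hr
    obtain ⟨_, _, p, h1, _⟩ := f_rg h w n β hr
    subst h1
    rw [hsc, hSζ]
    exact f_rgd h w p β hr
  · -- rgp
    intro n hn
    obtain ⟨p, h1, h2, h3⟩ := glF_ty' n Ty.B (by decide) hn
    subst h1
    exact f_rgp h p h2 h3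
  · -- rgc
    intro n hn
    obtain ⟨p, h1, h2, h3⟩ := glF_ty' n Ty.B (by decide) hn
    subst h1
    refine (f_rgc h p h2 h3).trans ?_
    exact mul_le_mul_of_nonneg_right (by linarith) hd.le
  · -- rgm
    intro n hn w hw β hr
    obtain ⟨p, h1, h2, h3⟩ := glF_ty' n Ty.B (by decide) hn
    subst h1
    rw [hsc, hSζ]
    exact f_rgm h p h2 h3 w hw β hr

end fin

end Pool.Agent.Work.MP_db9399_dx
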