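import Pool.Agent.Work.MP_db9399_xf_helper62.XFrame

/-!
# MP_db9399, all scales: other labels for the same pieces (helper26)

`relab X sd pt th` has the parts `pt`, the thirds `th` and, at the pieces which are not of type B, the
sides `sd`. The structure `PcD` is kept (`PcD.relab`).
-/

set_option autoImplicit false

namespace Pool.Agent.Work.MP_db9399_dx

open Finset Classical
open Pool.Agent.Work.MP_db9399_all (nb)
open Pool.Agent.Work.MP_db9399_da
open Pool.Agent.Work.MP_db9399_xf

universe u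

section gen
variable {V : Type u} {N J : ℕ}

/-- other labels -/
noncomputable def relabP (P : Pcs V N) (sd pt : V → Bool) (th : V → Fin 3) : Pcs V N where
  V0 := P.V0
  pc := P.pc
  ty := P.ty
  rg := P.rg
  sd v := if P.ty (P.pc v) = Ty.B then P.sd v else sd v
  pt := pt
  th := th

/-- other labels -/
noncomputable def relab (X : XD V N J) (sd pt : V → Bool) (th : V → Fin 3) : XD V N J where
  P := relabP X.P sd pt th
  sc := X.sc
  cq := X.cq
  Hv := X.Hv

variable (P : Pcs V N) (sd pt : V → Bool) (th : V → Fin 3)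

theorem relabP_sd (v : V) (hv : P.ty (P.pc v) = Ty.B) : (relabP P sd pt th).sd v = P.sd v :=
  if_pos hv

theorem relabP_sd' (v : V) (hv : P.ty (P.pc v) ≠ Ty.B) : (relabP P sd pt th).sd v = sd v :=
  if_neg hv

theorem relab_bulk (G : SimpleGraph V) : bulk G (relabP P sd pt th) = bulk G P := by
  ext v w
  constructor
  · rintro ⟨h1, h2, h3, h4, h5⟩
    have h4' : P.pc v = P.pc w := h4
    refine ⟨h1, h2, h3, h4, fun h6 => ?_⟩
    have h7 := h5 h6
    rw [relabP_sd P sd pt th v h6, relabP_sd P sd pt th w (by rw [← h4']; exact h6)] at h7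
    exact h7
  · rintro ⟨h1, h2, h3, h4, h5⟩
    refine ⟨h1, h2, h3, h4, fun h6 => ?_⟩
    have h6' : P.ty (P.pc v) = Ty.B := h6
    rw [relabP_sd P sd pt th v h6', relabP_sd P sd pt th w (by rw [← h4]; exact h6')]
    exact h5 h6'

theorem relab_thin (G : SimpleGraph V) : thin G (relabP P sd pt th) = thin G P := by
  ext v w
  change (G.Adj v w ∧ ¬ (bulk G (relabP P sd pt th)).Adj v w) ↔ (G.Adj v w ∧ ¬ (bulk G P).Adj v w)
  rw [relab_bulk]

theorem relab_bk (G : SimpleGraph V) (n : Fin N) : bk G (relabP P sd pt th) n = bk G P n := by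
  change (bulk G (relabP P sd pt th)).comap (fun v : {v : V // v ∉ P.V0 ∧ P.pc v = n} => v.1) =
    (bulk G P).comap (fun v => v.1)
  rw [relab_bulk]

variable [Fintype V]

theorem relab_sV (n : Fin N) (hn : P.ty n = Ty.B) (β : Bool) :
    sV (relabP P sd pt th) n β = sV P n β := by
  ext v
  rw [sV, sV, mem_filter, mem_filter]
  constructor
  · rintro ⟨h0, h1, h2, h3⟩
    have h2' : P.pc v = n := h2
    rw [relabP_sd P sd pt th v (by rw [h2']; exact hn)] at h3
    exact ⟨h0, h1, h2, h3⟩
  · rintro ⟨h0, h1, h2, h3⟩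
    refine ⟨h0, h1, h2, ?_⟩
    rw [relabP_sd P sd pt th v (by rw [h2]; exact hn)]
    exact h3

theorem relab_cut (G : SimpleGraph V) (n : Fin N) (ρ : ℝ)
    (h : ∀ T : Finset (Ts P n), ρ * T.card * (univ \ T).card ≤
      ∑ v ∈ T, ((nb (bk G P n) v \ T).card : ℝ)) (T : Finset (Ts (relabP P sd pt th) n)) :
    ρ * T.card * (univ \ T).card ≤
      ∑ v ∈ T, ((nb (bk G (relabP P sd pt th) n) v \ T).card : ℝ) := by
  rw [relab_bk]
  exact h T

theorem relab_nbi (G : SimpleGraph V) (n : Fin N) (a : ℝ)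
    (h : ∀ T : Finset (Ts P n), a ≤ ∑ v ∈ T, ((nb (bk G P n) v ∩ T).card : ℝ) +
      ∑ v ∈ univ \ T, ((nb (bk G P n) v \ T).card : ℝ)) (T : Finset (Ts (relabP P sd pt th) n)) :
    a ≤ ∑ v ∈ T, ((nb (bk G (relabP P sd pt th) n) v ∩ T).card : ℝ) +
      ∑ v ∈ univ \ T, ((nb (bk G (relabP P sd pt th) n) v \ T).card : ℝ) := by
  rw [relab_bk]
  exact h T

/-- **Other labels.** -/
theorem PcD.relab {C g z θk θ' η a : ℝ} {M : ℕ} {S : Fin J → Scl} {G : SimpleGraph V} {d : ℕ}
    {X : XD V N J} (h : PcD C g z θk θ' η a M S G d X) (sd pt : V → Bool) (th : V → Fin 3) :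
    PcD C g z θk θ' η a M S G d (relab X sd pt th) := by
  refine
    { reg := h.reg
      emp := h.emp
      cln := h.cln, clp := h.clp, scq := h.scq, clc := h.clc, npc := h.npc, out := h.out
      hvc := h.hvc, xs := h.xs, v0c := h.v0c, kL := h.kL, kU := h.kU, kd := h.kd, ki := h.ki
      kl := h.kl, ks := h.ks, kh := h.kh, kz := h.kz
      thd := ?_, ths := ?_, nL := h.nL, n4 := h.n4, bE := ?_, cut := ?_, nbi := ?_, bN := h.bN
      rgT := h.rgT, rgd := ?_, rgp := h.rgp, rgc := h.rgc, rgm := ?_ }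
  · intro v hv
    have h1 := h.thd v hv
    change ((nb (thin G (relabP X.P sd pt th)) v).card : ℝ) ≤ _
    rw [relab_thin]
    exact h1
  · intro n hn
    have h1 := h.ths n hn
    change ∑ v ∈ pV X.P n, ((nb (thin G (relabP X.P sd pt th)) v).card : ℝ) ≤ _
    rw [relab_thin]
    exact h1
  · intro n hn
    change (sV (relabP X.P sd pt th) n false).card = (sV (relabP X.P sd pt th) n true).card
    rw [relab_sV X.P sd pt th n hn, relab_sV X.P sd pt th n hn]
    exact h.bE n hn
  · intro n hn T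
    exact relab_cut X.P sd pt th G n _ (h.cut n hn) T
  · intro n hn T
    exact relab_nbi X.P sd pt th G n _ (h.nbi n hn) T
  · intro w n β hr
    have h1 := h.rgT w n β hr
    have h2 := h.rgd w n β hr
    change ((nb G w \ sV (relabP X.P sd pt th) n β).card : ℝ) ≤ _ ∧
      ((sV (relabP X.P sd pt th) n β \ nb G w).card : ℝ) ≤ _
    rw [relab_sV X.P sd pt th n h1.2]
    exact h2
  · intro n hn w hw β hr
    have h1 := h.rgm n hn w hw β hr
    change _ ≤ ((sV (relabP X.P sd pt th) n β \ nb G w).card : ℝ)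
    rw [relab_sV X.P sd pt th n hn]
    exact h1

/-- a larger bound `a` -/
theorem PcD.mono_a {C g z θk θ' η a a' : ℝ} {M : ℕ} {S : Fin J → Scl} {G : SimpleGraph V} {d : ℕ}
    {X : XD V N J} (h : PcD C g z θk θ' η a M S G d X) (ha : a ≤ a') :
    PcD C g z θk θ' η a' M S G d X :=
  { h with
    out := fun v h1 h2 => (h.out v h1 h2).trans
      (mul_le_mul_of_nonneg_right ha (Nat.cast_nonneg _))
    hvc := fun n h1 => (h.hvc n h1).trans (mul_le_mul_of_nonneg_right ha (Nat.cast_nonneg _))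
    rgc := fun n h1 => (h.rgc n h1).trans (mul_le_mul_of_nonneg_right ha (Nat.cast_nonneg _))
    xs := fun n => (h.xs n).trans (mul_le_mul_of_nonneg_right ha (by positivity)) }

end gen

end Pool.Agent.Work.MP_db9399_dx
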