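import Pool.Agent.Work.MP_db9399_dx_helper26.FieldsB

/-!
# MP_db9399, all scales, DECX: rigid vertices (helper26)
-/

set_option autoImplicit false

namespace Pool.Agent.Work.MP_db9399_dx

open Finset Classical
open Pool.Agent.Work.MP_db9399_all (nb)
open Pool.Agent.Work.MP_db9399_da
open Pool.Agent.Work.MP_db9399_cl.helper26 (DecQ)

universe u v

section gen
variable {W : Type u} [Fintype W] {M : ℕ}

theorem hub_card (G : SimpleGraph W) (P : Pcs W M) (m : Fin M) (β : Bool) (z : W) (c B : ℝ)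
    (h : c ≤ ((sV P m β \ nb G z).card : ℝ))
    (hB : ∀ T : Finset W, (∀ w, w ∈ T ↔ w ∈ sV P m β ∧ ¬ G.Adj z w) → (T.card : ℝ) ≤ B) :
    c ≤ B := by
  refine h.trans (hB _ fun w => ?_)
  rw [mem_sdiff, mem_nb']

theorem out_card (G : SimpleGraph W) (P : Pcs W M) (m : Fin M) (β : Bool) (z : W) (c x B : ℝ)
    (h : c ≤ ((nb G z \ sV P m β).card : ℝ) + x)
    (hB : ∀ T : Finset W, (∀ w, w ∈ T ↔ G.Adj z w ∧ w ∉ sV P m β) → (T.card : ℝ) + x ≤ B) :
    c ≤ B := by
  refine h.trans (hB _ fun w => ?_)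
  rw [mem_sdiff, mem_nb']

theorem mem_sV (P : Pcs W M) (m : Fin M) (β : Bool) (w : W) :
    w ∈ sV P m β ↔ w ∉ P.V0 ∧ P.pc w = m ∧ P.sd w = β := by
  rw [sV, mem_filter]
  exact ⟨fun h => h.2, fun h => ⟨mem_univ _, h⟩⟩

end gen

section fields
variable {V : Type u} [Fintype V] {q M : ℕ} {C g z x e : ℝ} {ρ ζ θ : Fin q → ℝ}
  {G : SimpleGraph V} {d : ℕ} {A : Fin q → Finset V} {PL : ∀ i, Pcs {v // v ∈ A i} M}
  {X : Fin q × Fin M → Bool → Finset V}

/-- a light member which is rigid is rigid for the local decomposition -/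
theorem rg_light (h : Glu C g z x e ρ ζ θ G d A PL X) (p : Fin q × Fin M) (β : Bool) (v : V)
    (hv : v ∈ Rg G d ζ A PL p β) (hA : v ∈ A p.1) :
    (⟨v, hA⟩ : {v // v ∈ A p.1}) ∈ (PL p.1).V0 ∧ (PL p.1).rg ⟨v, hA⟩ = some (p.2, β) := by
  obtain ⟨h1, h2, h3, h4⟩ := (mem_Rg p β v).1 hv
  have hV0 : (⟨v, hA⟩ : {v // v ∈ A p.1}) ∈ (PL p.1).V0 := by
    by_contra h5
    exact h1 (p.1, (PL p.1).pc ⟨v, hA⟩) ((mem_Yp A PL _ v).2 ⟨hA, h5, rfl⟩)
  refine ⟨hV0, ?_⟩
  by_contra h5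
  rcases h4 with h4 | h4
  · have h6 := (h.dq p.1).out p.2 β h2 _ hV0 h5
    have h7 := out_card _ _ _ _ _ _ _ (((nb G v \ Sp A PL p β).card : ℝ)) h6 (by
      intro T hT
      have h8 : T.map (Function.Embedding.subtype _) ∪ (nb G v \ A p.1) ⊆
          nb G v \ Sp A PL p β := by
        intro w hw
        rw [mem_union] at hw
        rcases hw with hw | hw
        · obtain ⟨w', hw', rfl⟩ := mem_map.1 hw
          obtain ⟨a1, a2⟩ := (hT w').1 hw'
          rw [mem_sdiff, mem_nb', mem_Sp]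
          refine ⟨a1, ?_⟩
          rintro ⟨_, b⟩
          exact a2 ((mem_sV _ _ _ _).2 b)
        · rw [mem_sdiff] at hw ⊢
          exact ⟨hw.1, fun h9 => hw.2 (Yp_sub p (Sp_sub p β h9))⟩
      have h9 : Disjoint (T.map (Function.Embedding.subtype _)) (nb G v \ A p.1) := by
        rw [disjoint_left]
        intro w hw hw'
        obtain ⟨w', _, rfl⟩ := mem_map.1 hw
        exact (mem_sdiff.1 hw').2 w'.2
      have h10 := card_le_card h8
      rw [card_union_of_disjoint h9, card_map] at h10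
      exact_mod_cast h10)
    linarith
  · have h6 := (h.dq p.1).hubB p.2 β h2 _ hV0 h5
    have h7 := hub_card _ _ _ _ _ _ (((Sp A PL p β \ nb G v).card : ℝ)) h6 (by
      intro T hT
      rw [← card_map (f := Function.Embedding.subtype (fun v => v ∈ A p.1)) (s := T)]
      refine Nat.cast_le.2 (card_le_card ?_)
      intro w hw
      obtain ⟨w', hw', rfl⟩ := mem_map.1 hw
      obtain ⟨a1, a2⟩ := (hT w').1 hw'
      rw [mem_sdiff, mem_nb', mem_Sp]
      exact ⟨⟨w'.2, (mem_sV _ _ _ _).1 a1⟩, a2⟩)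
    linarith

/-- few vertices are rigid for one of the sides. `Hh i` = heavy members of the cluster `i`. -/
theorem Rg_c (h : Glu C g z x e ρ ζ θ G d A PL X) (Hh : Fin q → Finset V)
    (hH : ∀ i, ((Hh i).card : ℝ) ≤ e * d)
    (hnin : ∀ i v, v ∉ A i → v ∉ Hh i → 5 / 4 * ζ i * d < ((nb G v \ A i).card : ℝ))
    (p : Fin q × Fin M) : ∃ β, ((Rg G d ζ A PL p β).card : ℝ) ≤ e * d := by
  have h1 : ∀ β v, v ∈ Rg G d ζ A PL p β → v ∉ A p.1 → v ∈ Hh p.1 := by
    intro β v hv hvA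
    by_contra hcon
    have h2 := hnin p.1 v hvA hcon
    have h3 := out_Rg h p β v hv
    have h4 : ((nb G v \ A p.1).card : ℝ) ≤ ((nb G v \ Sp A PL p β).card : ℝ) := by
      exact_mod_cast card_le_card (sdiff_subset_sdiff (Subset.refl _)
        ((Sp_sub p β).trans (Yp_sub p)))
    linarith
  have h3 : ∃ β, ∀ v ∈ Rg G d ζ A PL p β, v ∉ A p.1 := by
    by_contra hcon
    push Not at hcon
    obtain ⟨v, hv, hvA⟩ := hcon false
    obtain ⟨w, hw, hwA⟩ := hcon true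
    obtain ⟨b1, b2⟩ := rg_light h p false v hv hvA
    obtain ⟨c1, c2⟩ := rg_light h p true w hw hwA
    have h4 := (h.dq p.1).rgs _ b1 _ c1 p.2 false true b2 c2
    cases h4
  obtain ⟨β, hβ⟩ := h3
  refine ⟨β, le_trans ?_ (hH p.1)⟩
  exact_mod_cast card_le_card fun v hv => h1 β v hv (hβ v hv)

theorem gl_rg (h : Glu C g z x e ρ ζ θ G d A PL X) (v : V) (n : Fin (q * M + 1)) (β : Bool) :
    (gl G d z ζ A PL X).rg v = some (n, β) ↔
      ∃ p, n = eN q M (some p) ∧ v ∈ Rg G d ζ A PL p β := by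
  change (if h : ∃ y : (Fin q × Fin M) × Bool, v ∈ Rg G d ζ A PL y.1 y.2 then
    some (eN q M (some h.choose.1), h.choose.2) else none) = some (n, β) ↔ _
  by_cases h1 : ∃ y : (Fin q × Fin M) × Bool, v ∈ Rg G d ζ A PL y.1 y.2
  · rw [dif_pos h1]
    constructor
    · intro h2
      have h3 := Option.some.inj h2
      have h4 : eN q M (some h1.choose.1) = n := congrArg Prod.fst h3
      have h5 : h1.choose.2 = β := congrArg Prod.snd h3
      refine ⟨h1.choose.1, h4.symm, ?_⟩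
      rw [← h5]
      exact h1.choose_spec
    · rintro ⟨p, h2, h3⟩
      have h4 := Rg_uniq h h1.choose (p, β) v h1.choose_spec h3
      rw [h4, h2]
  · rw [dif_neg h1]
    constructor
    · intro h2
      cases h2
    · rintro ⟨p, _, h3⟩
      exact absurd ⟨(p, β), h3⟩ h1

theorem notV0_of_Yp (h : Glu C g z x e ρ ζ θ G d A PL X) (p : Fin q × Fin M) (v : V)
    (hv : v ∈ Yp A PL p) : v ∉ (gl G d z ζ A PL X).V0 :=
  ((gl_mem' (G := G) (d := d) (z := z) (ζ := ζ) (X := X) v p).2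
    ((ix_iff h v p).2 (Or.inl hv))).1

theorem notV0_of_X (h : Glu C g z x e ρ ζ θ G d A PL X) (p : Fin q × Fin M) (β : Bool) (v : V)
    (hv : v ∈ X p β) : v ∉ (gl G d z ζ A PL X).V0 :=
  ((gl_mem' (G := G) (d := d) (z := z) (ζ := ζ) (X := X) v p).2
    ((ix_iff h v p).2 (Or.inr ((mem_Zp p v).2
      ⟨fun p' => X_Yp h p p' β v hv, Or.inr ⟨β, hv⟩⟩)))).1

/-- vertices of `V0` which are not rigid miss many vertices of a side and have many neighbours
outside -/
theorem rg_non (h : Glu C g z x e ρ ζ θ G d A PL X) (p : Fin q × Fin M)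
    (hp : (PL p.1).ty p.2 = Ty.B) (hn : (Yp A PL p).Nonempty) (β : Bool) (v : V)
    (hv : v ∈ (gl G d z ζ A PL X).V0)
    (hr : (gl G d z ζ A PL X).rg v ≠ some (eN q M (some p), β)) :
    ζ p.1 / 4 * d ≤ ((sV (gl G d z ζ A PL X) (eN q M (some p)) β \ nb G v).card : ℝ) ∧
    (ζ p.1 / 4 - e) * d ≤
      ((nb G v \ sV (gl G d z ζ A PL X) (eN q M (some p)) β).card : ℝ) := by
  have h1 : ∀ p', v ∉ Yp A PL p' := fun p' h2 => notV0_of_Yp h p' v h2 hv
  have h2 : v ∉ Rg G d ζ A PL p β := fun h3 => hr ((gl_rg h v _ β).2 ⟨p, rfl, h3⟩)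
  rw [mem_Rg] at h2
  have h3 : ¬ (((nb G v \ Sp A PL p β).card : ℝ) < ζ p.1 / 4 * d ∨
      ((Sp A PL p β \ nb G v).card : ℝ) < ζ p.1 / 4 * d) := fun h4 => h2 ⟨h1, hp, hn, h4⟩
  rw [not_or, not_lt, not_lt] at h3
  rw [sV_gl h p hp]
  constructor
  · refine h3.2.trans ?_
    exact_mod_cast card_le_card (sdiff_subset_sdiff subset_union_left (Subset.refl _))
  · have h4 := h.Xc p β
    have h5 : (nb G v \ Sp A PL p β).card ≤
        (nb G v \ (Sp A PL p β ∪ X p β)).card + (X p β).card := by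
      refine le_trans (card_le_card ?_) (card_union_le _ _)
      intro w hw
      simp only [mem_sdiff, mem_union] at hw ⊢
      tauto
    have h6 : ((nb G v \ Sp A PL p β).card : ℝ) ≤
        (nb G v \ (Sp A PL p β ∪ X p β)).card + (X p β).card := by exact_mod_cast h5
    linarith [h3.1]

theorem rg_ty (h : Glu C g z x e ρ ζ θ G d A PL X) (v : V) (n : Fin (q * M + 1)) (β : Bool)
    (hr : (gl G d z ζ A PL X).rg v = some (n, β)) : (gl G d z ζ A PL X).ty n = Ty.B ∧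
      ∃ p, n = eN q M (some p) ∧
      ((nb G v \ sV (gl G d z ζ A PL X) n β).card : ℝ) ≤ 5 / 4 * ζ p.1 * d := by
  obtain ⟨p, h1, h2⟩ := (gl_rg h v n β).1 hr
  obtain ⟨_, h3, h4, _⟩ := (mem_Rg p β v).1 h2
  refine ⟨by rw [h1, gl_ty p h4]; exact h3, p, h1, ?_⟩
  refine le_trans ?_ (out_Rg h p β v h2)
  rw [h1, sV_gl h p h3]
  exact_mod_cast card_le_card (sdiff_subset_sdiff (Subset.refl _) subset_union_left)

end fields

end Pool.Agent.Work.MP_db9399_dx
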