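import Pool.Agent.Work.MP_db9399_cl_helper26.DecX

/-!
# MP_db9399, all scales, DECX: transport of a piece (helper26)

`f : W → V` embeds the cluster, the piece `m` of `P'` becomes the piece `n` of `P`.
-/

set_option autoImplicit false

namespace Pool.Agent.Work.MP_db9399_dx

open Finset Classical
open Pool.Agent.Work.MP_db9399_all (nb)
open Pool.Agent.Work.MP_db9399_da

universe u

section tr
variable {V W : Type u} [Fintype V] [Fintype W] {M N : ℕ}

theorem mem_nb' {U : Type u} [Fintype U] (G : SimpleGraph U) (v w : U) : w ∈ nb G v ↔ G.Adj v w := by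
  simp [nb]

/-- transport of the piece `m` to the piece `n` -/
structure Tr (G' : SimpleGraph W) (G : SimpleGraph V) (P' : Pcs W M) (P : Pcs V N) (f : W → V)
    (m : Fin M) (n : Fin N) : Prop where
  inj : Function.Injective f
  adj : ∀ v w, G.Adj (f v) (f w) ↔ G'.Adj v w
  mem : ∀ v, (f v ∉ P.V0 ∧ P.pc (f v) = n) ↔ (v ∉ P'.V0 ∧ P'.pc v = m)
  rng : ∀ v, v ∉ P.V0 → P.pc v = n → v ∈ Set.range f
  ty : P.ty n = P'.ty m
  sd : ∀ v, (v ∉ P'.V0 ∧ P'.pc v = m) → P.sd (f v) = P'.sd v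

/-- the embedding -/
def em {f : W → V} (hf : Function.Injective f) : W ↪ V := ⟨f, hf⟩

variable {G' : SimpleGraph W} {G : SimpleGraph V} {P' : Pcs W M} {P : Pcs V N} {f : W → V}
  {m : Fin M} {n : Fin N}

theorem Tr.pV (h : Tr G' G P' P f m n) : pV P n = (pV P' m).map (em h.inj) := by
  ext v
  simp only [MP_db9399_da.pV, mem_map, mem_filter, mem_univ, true_and]
  constructor
  · rintro ⟨h1, h2⟩
    obtain ⟨w, rfl⟩ := h.rng v h1 h2
    exact ⟨w, (h.mem w).1 ⟨h1, h2⟩, rfl⟩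
  · rintro ⟨w, h1, rfl⟩
    exact (h.mem w).2 h1

theorem Tr.sV (h : Tr G' G P' P f m n) (β : Bool) : sV P n β = (sV P' m β).map (em h.inj) := by
  ext v
  simp only [MP_db9399_da.sV, mem_map, mem_filter, mem_univ, true_and]
  constructor
  · rintro ⟨h1, h2, h3⟩
    obtain ⟨w, rfl⟩ := h.rng v h1 h2
    obtain ⟨h4, h5⟩ := (h.mem w).1 ⟨h1, h2⟩
    exact ⟨w, ⟨h4, h5, by rw [← h.sd w ⟨h4, h5⟩]; exact h3⟩, rfl⟩
  · rintro ⟨w, ⟨h1, h2, h3⟩, rfl⟩
    obtain ⟨h4, h5⟩ := (h.mem w).2 ⟨h1, h2⟩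
    exact ⟨h4, h5, by rw [← h3]; exact h.sd w ⟨h1, h2⟩⟩

/-- the vertices of the piece -/
noncomputable def Tr.eT (h : Tr G' G P' P f m n) : Ts P' m ≃ Ts P n :=
  Equiv.ofBijective (fun v => ⟨f v.1, (h.mem v.1).2 v.2⟩)
    ⟨fun v w h1 => Subtype.ext (h.inj (congrArg Subtype.val h1)), fun w => by
      obtain ⟨v, hv⟩ := h.rng w.1 w.2.1 w.2.2
      have h1 := w.2
      rw [← hv] at h1
      exact ⟨⟨v, (h.mem v).1 h1⟩, Subtype.ext hv⟩⟩

omit [Fintype V] [Fintype W] in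
theorem Tr.eT_val (h : Tr G' G P' P f m n) (v : Ts P' m) : (h.eT v).1 = f v.1 := rfl

theorem Tr.card (h : Tr G' G P' P f m n) : Fintype.card (Ts P n) = Fintype.card (Ts P' m) :=
  (Fintype.card_congr h.eT).symm

omit [Fintype V] [Fintype W] in
theorem Tr.bulk (h : Tr G' G P' P f m n) (v w : W) (hv : v ∉ P'.V0 ∧ P'.pc v = m) :
    (bulk G P).Adj (f v) (f w) ↔ (bulk G' P').Adj v w := by
  have hv' := (h.mem v).2 hv
  constructor
  · rintro ⟨h1, h2, h3, h4, h5⟩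
    have hw := (h.mem w).1 ⟨h3, by rw [← h4]; exact hv'.2⟩
    refine ⟨(h.adj v w).1 h1, hv.1, hw.1, hv.2.trans hw.2.symm, fun h6 => ?_⟩
    rw [← h.sd v hv, ← h.sd w hw]
    apply h5
    rw [hv'.2, h.ty, ← hv.2]
    exact h6
  · rintro ⟨h1, h2, h3, h4, h5⟩
    have hw := (h.mem w).2 ⟨h3, by rw [← h4]; exact hv.2⟩
    refine ⟨(h.adj v w).2 h1, hv'.1, hw.1, hv'.2.trans hw.2.symm, fun h6 => ?_⟩
    rw [h.sd v hv, h.sd w ⟨h3, by rw [← h4]; exact hv.2⟩]
    apply h5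
    rw [hv.2, ← h.ty, ← hv'.2]
    exact h6

theorem Tr.nb_bk (h : Tr G' G P' P f m n) (v : Ts P' m) :
    nb (bk G P n) (h.eT v) = (nb (bk G' P' m) v).map h.eT.toEmbedding := by
  ext w
  rw [mem_nb', mem_map]
  constructor
  · intro h1
    refine ⟨h.eT.symm w, ?_, h.eT.apply_symm_apply w⟩
    rw [mem_nb']
    change (MP_db9399_da.bulk G' P').Adj v.1 (h.eT.symm w).1
    rw [← h.bulk v.1 _ v.2, ← h.eT_val, ← h.eT_val, Equiv.apply_symm_apply]
    exact h1
  · rintro ⟨w', h1, rfl⟩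
    rw [mem_nb'] at h1
    exact (h.bulk v.1 w'.1 v.2).2 h1

theorem Tr.nb_bulk (h : Tr G' G P' P f m n) (v : W) (hv : v ∉ P'.V0 ∧ P'.pc v = m) :
    nb (MP_db9399_da.bulk G P) (f v) = (nb (MP_db9399_da.bulk G' P') v).map (em h.inj) := by
  ext w
  rw [mem_nb', mem_map]
  have hv' := (h.mem v).2 hv
  constructor
  · intro h1
    obtain ⟨w', rfl⟩ := h.rng w h1.2.2.1 (by rw [← h1.2.2.2.1]; exact hv'.2)
    exact ⟨w', (mem_nb' _ _ _).2 ((h.bulk v w' hv).1 h1), rfl⟩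
  · rintro ⟨w', h1, rfl⟩
    exact (h.bulk v w' hv).2 ((mem_nb' _ _ _).1 h1)

end tr

section thin
variable {V : Type u} [Fintype V] {M : ℕ}

theorem thin_bulk (G : SimpleGraph V) (P : Pcs V M) (v : V) :
    (nb (thin G P) v).card + (nb (bulk G P) v).card = (nb G v).card := by
  rw [← card_union_of_disjoint]
  · congr 1
    ext w
    simp only [mem_union, mem_nb']
    constructor
    · rintro (h | h)
      · exact h.1
      · exact h.1
    · intro h
      by_cases h1 : (bulk G P).Adj v w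
      · exact Or.inr h1
      · exact Or.inl ⟨h, h1⟩
  · rw [disjoint_left]
    intro w h1 h2
    rw [mem_nb'] at h1 h2
    exact h1.2 h2

end thin

section sums
variable {V W : Type u} [Fintype V] [Fintype W] {M N : ℕ} {G' : SimpleGraph W}
  {G : SimpleGraph V} {P' : Pcs W M} {P : Pcs V N} {f : W → V} {m : Fin M} {n : Fin N}

/-- thin degrees -/
theorem Tr.thin (h : Tr G' G P' P f m n) (v : W) (hv : v ∉ P'.V0 ∧ P'.pc v = m) (ex d : ℕ)
    (h1 : (nb G' v).card + ex = d) (h2 : (nb G (f v)).card = d) :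
    (nb (thin G P) (f v)).card = (nb (MP_db9399_da.thin G' P') v).card + ex := by
  have h3 := thin_bulk G P (f v)
  have h4 := thin_bulk G' P' v
  rw [h.nb_bulk v hv, card_map] at h3
  omega

theorem Tr.cut (h : Tr G' G P' P f m n) (ρ : ℝ)
    (h1 : ∀ S : Finset (Ts P' m),
      ρ * S.card * (univ \ S).card ≤ ∑ v ∈ S, ((nb (bk G' P' m) v \ S).card : ℝ))
    (T : Finset (Ts P n)) :
    ρ * T.card * (univ \ T).card ≤ ∑ v ∈ T, ((nb (bk G P n) v \ T).card : ℝ) := by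
  obtain ⟨S, rfl⟩ : ∃ S : Finset (Ts P' m), T = S.map h.eT.toEmbedding :=
    ⟨T.map h.eT.symm.toEmbedding, by
      ext x
      simp only [mem_map_equiv, Equiv.symm_symm, Equiv.apply_symm_apply]⟩
  have h2 : (univ : Finset (Ts P n)) = (univ : Finset (Ts P' m)).map h.eT.toEmbedding := by
    ext x
    simp only [mem_map_equiv, mem_univ]
  rw [h2, ← Finset.map_sdiff, card_map, card_map, sum_map]
  refine (h1 S).trans (le_of_eq (sum_congr rfl fun v _ => ?_))
  change _ = ((nb (bk G P n) (h.eT v) \ S.map h.eT.toEmbedding).card : ℝ)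
  rw [h.nb_bk, ← Finset.map_sdiff, card_map]

theorem Tr.nbi (h : Tr G' G P' P f m n) (a : ℝ)
    (h1 : ∀ S : Finset (Ts P' m), a ≤ ∑ v ∈ S, ((nb (bk G' P' m) v ∩ S).card : ℝ) +
      ∑ v ∈ univ \ S, ((nb (bk G' P' m) v \ S).card : ℝ)) (T : Finset (Ts P n)) :
    a ≤ ∑ v ∈ T, ((nb (bk G P n) v ∩ T).card : ℝ) +
      ∑ v ∈ univ \ T, ((nb (bk G P n) v \ T).card : ℝ) := by
  obtain ⟨S, rfl⟩ : ∃ S : Finset (Ts P' m), T = S.map h.eT.toEmbedding :=
    ⟨T.map h.eT.symm.toEmbedding, by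
      ext x
      simp only [mem_map_equiv, Equiv.symm_symm, Equiv.apply_symm_apply]⟩
  have h2 : (univ : Finset (Ts P n)) = (univ : Finset (Ts P' m)).map h.eT.toEmbedding := by
    ext x
    simp only [mem_map_equiv, mem_univ]
  rw [h2, ← Finset.map_sdiff, sum_map, sum_map]
  refine (h1 S).trans (le_of_eq ?_)
  congr 1
  · refine sum_congr rfl fun v _ => ?_
    change _ = ((nb (bk G P n) (h.eT v) ∩ S.map h.eT.toEmbedding).card : ℝ)
    rw [h.nb_bk, ← Finset.map_inter, card_map]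
  · refine sum_congr rfl fun v _ => ?_
    change _ = ((nb (bk G P n) (h.eT v) \ S.map h.eT.toEmbedding).card : ℝ)
    rw [h.nb_bk, ← Finset.map_sdiff, card_map]

end sums

end Pool.Agent.Work.MP_db9399_dx
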